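import Pool.Agent.H850.RG.SSDesc

/-!
# Random elements: semisimplicity and fixed vectors
-/

set_option autoImplicit false
set_option linter.unusedSectionVars false

namespace Pool.Agent.H850.RG

open Pool.Agent.H850.TF MeasureTheory Topology

variable {N : ℕ} {p : ℕ} [Fact p.Prime] {Γ : Type} [Group Γ]

/-- the standard representation -/
noncomputable def stdr (ρ : Γ →* GL (Fin N) ℤ_[p]) : Γ →* Module.End ℚ_[p] (Fin N → ℚ_[p]) where
  toFun σ := Matrix.toLin' (rat ρ σ)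
  map_one' := by
    rw [map_one, Matrix.toLin'_one]
    rfl
  map_mul' := by
    intro σ τ
    rw [map_mul, Matrix.toLin'_mul]
    rfl

theorem stdr_apply (ρ : Γ →* GL (Fin N) ℤ_[p]) (σ : Γ) (x : Fin N → ℚ_[p]) :
    stdr ρ σ x = (rat ρ σ).mulVec x := rfl

theorem stdr_MC (ρ : Γ →* GL (Fin N) ℤ_[p]) : MC ρ fun σ => stdr ρ σ := by
  classical
  intro l x
  have h1 : (fun σ => l (stdr ρ σ x)) =
      ∑ i, ∑ j, (fun _ : Γ => l (Pi.single i 1) * x j) * fun σ => rat ρ σ i j := by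
    funext σ
    rw [stdr_apply]
    simp only [Finset.sum_apply, Pi.mul_apply]
    have h2 : (rat ρ σ).mulVec x = ∑ i, (rat ρ σ).mulVec x i • (Pi.single i (1 : ℚ_[p])) := by
      funext j
      simp [Finset.sum_apply, Pi.single_apply]
    rw [h2, map_sum]
    refine Finset.sum_congr rfl fun i _ => ?_
    rw [map_smul, smul_eq_mul, Matrix.mulVec, dotProduct, Finset.sum_mul]
    refine Finset.sum_congr rfl fun j _ => ?_
    ring
  rw [h1]
  exact Subalgebra.sum_mem _ fun i _ => Subalgebra.sum_mem _ fun j _ =>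
    (Pol ρ).mul_mem (const_mem ρ _) (entry_mem ρ _ _)

variable [TopologicalSpace Γ] [IsTopologicalGroup Γ] [CompactSpace Γ]
  [MeasurableSpace Γ] [BorelSpace Γ]

/-- **Almost every element decides semisimplicity and the potentially fixed vectors.** -/
theorem cn_main (μ : Measure Γ) [μ.IsHaarMeasure] {ρ : Γ →* GL (Fin N) ℤ_[p]}
    (hρ : Continuous fun σ => (ρ σ : Matrix (Fin N) (Fin N) ℤ_[p]))
    {X : Type} [AddCommGroup X] [Module ℚ_[p] X] [FiniteDimensional ℚ_[p] X]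
    (r : Γ →* Module.End ℚ_[p] X) (hr : MC ρ fun σ => r σ) :
    CN μ fun σ => (SS r (Subgroup.normalClosure {σ} : Set Γ) → SS r Set.univ) ∧
      (SS r Set.univ → ∀ V : Subgroup Γ, IsOpen (V : Set Γ) → ∀ x,
        (∀ t ∈ Subgroup.normalClosure {σ}, t ∈ V → r t x = x) → ∀ u ∈ U1 ρ, r u x = x) := by
  have hfin : Finite (Γ ⧸ U1 ρ) := Subgroup.quotient_finite_of_isOpen (U1 ρ) (isOpen_U1 ρ hρ)
  have hidx : (U1 ρ).FiniteIndex := Subgroup.finiteIndex_of_finite_quotient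
  set n := (U1 ρ).index with hn
  have hn0 : n ≠ 0 := hidx.index_ne_zero
  have hpow : ∀ σ : Γ, σ ^ n ∈ U1 ρ := fun σ => Subgroup.pow_index_mem (U1 ρ) σ
  have h1 := ae_SS (ρ := ρ) μ hρ (Module.finrank ℚ_[p] X) X r le_rfl hr
  by_cases hss : SS r Set.univ
  · have hrep : Rep ρ r := Rep.std hr hss
    obtain ⟨hcl, hnull⟩ := hrep.null μ hρ hn0
    have hgood : CN μ fun σ => Good ρ r n σ := ⟨_, hcl, hnull, fun σ hσ => not_not.1 hσ⟩
    exact hgood.mono fun σ hg =>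
      ⟨fun _ => hss, fun _ V hV x hx => hrep.fixed_of_good (hpow σ) hg V hV hx⟩
  · exact h1.mono fun σ hσ => ⟨hσ, fun h => absurd h hss⟩

/-- the almost everywhere version -/
theorem ae_main (μ : Measure Γ) [μ.IsHaarMeasure] {ρ : Γ →* GL (Fin N) ℤ_[p]}
    (hρ : Continuous fun σ => (ρ σ : Matrix (Fin N) (Fin N) ℤ_[p]))
    {X : Type} [AddCommGroup X] [Module ℚ_[p] X] [FiniteDimensional ℚ_[p] X]
    (r : Γ →* Module.End ℚ_[p] X) (hr : MC ρ fun σ => r σ) :
    ∀ᵐ σ ∂μ, (SS r (Subgroup.normalClosure {σ} : Set Γ) → SS r Set.univ) ∧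
      (SS r Set.univ → ∀ V : Subgroup Γ, IsOpen (V : Set Γ) → ∀ x,
        (∀ t ∈ Subgroup.normalClosure {σ}, t ∈ V → r t x = x) → ∀ u ∈ U1 ρ, r u x = x) :=
  (cn_main μ hρ r hr).ae

end Pool.Agent.H850.RG
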