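import Pool.Agent.H850.RG.Null
import Pool.Agent.H850.TF.Avg

/-!
# The conjugation representation of a semisimple `p`-adic representation
-/

set_option autoImplicit false
set_option linter.unusedSectionVars false

namespace Pool.Agent.H850.RG

open Pool.Agent.H850.TF MeasureTheory Topology

section Commutant

variable {N : ℕ} {K : Type} [Field K] [CharZero K]

/-- the commutant of a set of matrices -/
def Cm (S : Set (Matrix (Fin N) (Fin N) K)) : Subalgebra K (Matrix (Fin N) (Fin N) K) :=
  Subalgebra.centralizer K S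

theorem mem_Cm {S : Set (Matrix (Fin N) (Fin N) K)} {X : Matrix (Fin N) (Fin N) K} :
    X ∈ Cm S ↔ ∀ A ∈ S, Commute A X := Subalgebra.mem_centralizer_iff K

/-- the commutant of a semisimple set of matrices is a semisimple ring -/
theorem semisimple_Cm {S : Set (Matrix (Fin N) (Fin N) K)} (h : CR S) :
    IsSemisimpleRing (Cm S) := by
  classical
  set A := Algebra.adjoin K S with hA
  set AE : Subalgebra K (Module.End K (Fin N → K)) :=
    A.map (Matrix.toLinAlgEquiv' (R := K) (n := Fin N)).toAlgHom with hAE
  have hmem : ∀ X : Matrix (Fin N) (Fin N) K, X ∈ A → Matrix.toLin' X ∈ AE := fun X hX =>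
    ⟨X, hX, rfl⟩
  have hss : IsSemisimpleModule AE (Fin N → K) := by
    refine @IsSemisimpleModule.mk _ _ _ _ _ ⟨fun W => ?_⟩
    obtain ⟨W', hW', hc⟩ := h (W.restrictScalars K) (by
      intro X hX x hx
      exact W.smul_mem (⟨Matrix.toLin' X, hmem X (Algebra.subset_adjoin hX)⟩ : AE) hx)
    have hst := stable_adjoin hW'
    refine ⟨{ carrier := W'
              add_mem' := W'.add_mem
              zero_mem' := W'.zero_mem
              smul_mem' := fun a x hx => by
                obtain ⟨X, hX, hXa⟩ := a.2
                have h1 : a • x = X.mulVec x := by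
                  change (a : Module.End K (Fin N → K)) x = X.mulVec x
                  rw [← hXa]
                  rfl
                rw [h1]
                exact hst X hX x hx }, ?_⟩
    rw [isCompl_iff] at hc ⊢
    constructor
    · rw [Submodule.disjoint_def]
      intro x hx hx'
      exact (Submodule.disjoint_def.1 hc.1) x hx hx'
    · rw [codisjoint_iff, eq_top_iff]
      intro x _
      have h3 : x ∈ W.restrictScalars K ⊔ W' := by rw [codisjoint_iff.1 hc.2]; trivial
      obtain ⟨y, hy, z, hz, rfl⟩ := Submodule.mem_sup.1 h3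
      exact Submodule.add_mem_sup hy hz
  have hfin : Module.Finite AE (Fin N → K) := Module.Finite.of_restrictScalars_finite K AE _
  have hend : IsSemisimpleRing (Module.End AE (Fin N → K)) := IsSemisimpleRing.moduleEnd AE _
  -- elements of the commutant give module endomorphisms
  have hcomm : ∀ X ∈ Cm S, ∀ Y ∈ A, X * Y = Y * X := by
    intro X hX Y hY
    induction hY using Algebra.adjoin_induction with
    | mem Y hY => exact (mem_Cm.1 hX Y hY).eq.symm
    | algebraMap r => exact (Algebra.commutes r X).symm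
    | add Y Z _ _ h1 h2 => rw [mul_add, add_mul, h1, h2]
    | mul Y Z _ _ h1 h2 => rw [← mul_assoc, h1, mul_assoc, h2, mul_assoc]
  let f : Cm S →+* Module.End AE (Fin N → K) :=
    { toFun := fun X =>
        { toFun := fun x => (X : Matrix (Fin N) (Fin N) K).mulVec x
          map_add' := fun x y => Matrix.mulVec_add _ x y
          map_smul' := by
            intro a x
            obtain ⟨Y, hY, hYa⟩ := a.2
            have h1 : ∀ y : Fin N → K, a • y = Y.mulVec y := by
              intro y
              change (a : Module.End K (Fin N → K)) y = Y.mulVec y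
              rw [← hYa]
              rfl
            rw [RingHom.id_apply, h1, h1, Matrix.mulVec_mulVec, Matrix.mulVec_mulVec,
              hcomm _ X.2 Y hY] }
      map_one' := by
        apply LinearMap.ext
        intro x
        exact Matrix.one_mulVec x
      map_mul' := by
        intro X Y
        apply LinearMap.ext
        intro x
        exact (Matrix.mulVec_mulVec x _ _).symm
      map_zero' := by
        apply LinearMap.ext
        intro x
        exact Matrix.zero_mulVec x
      map_add' := by
        intro X Y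
        apply LinearMap.ext
        intro x
        exact Matrix.add_mulVec _ _ x }
  have hf : ∀ (X : Cm S) (x : Fin N → K), f X x = (X : Matrix (Fin N) (Fin N) K).mulVec x :=
    fun X x => rfl
  have hinj : Function.Injective f := by
    intro X Y hXY
    apply Subtype.ext
    apply Matrix.toLin'.injective
    apply LinearMap.ext
    intro x
    exact congrArg (fun g : Module.End AE (Fin N → K) => g x) hXY
  have hsurj : Function.Surjective f := by
    intro d
    let d' : Module.End K (Fin N → K) :=
      { toFun := d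
        map_add' := map_add d
        map_smul' := by
          intro c x
          rw [RingHom.id_apply]
          have h1 : c • x = (algebraMap K AE c) • x := (algebraMap_smul AE c x).symm
          have h2 : c • d x = (algebraMap K AE c) • d x := (algebraMap_smul AE c (d x)).symm
          rw [h1, h2, map_smul] }
    obtain ⟨X, hX⟩ := Matrix.toLin'.surjective d'
    have hXd : ∀ y, X.mulVec y = d y := fun y => congrArg (fun g => g y) hX
    have hXc : X ∈ Cm S := by
      rw [mem_Cm]
      intro B hB
      apply Matrix.toLin'.injective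
      apply LinearMap.ext
      intro y
      rw [Matrix.toLin'_mul, Matrix.toLin'_mul]
      change B.mulVec (X.mulVec y) = X.mulVec (B.mulVec y)
      rw [hXd, hXd]
      exact (map_smul d (⟨Matrix.toLin' B, hmem B (Algebra.subset_adjoin hB)⟩ : AE) y).symm
    refine ⟨⟨X, hXc⟩, ?_⟩
    apply LinearMap.ext
    intro y
    exact hXd y
  exact (RingEquiv.ofBijective f ⟨hinj, hsurj⟩).symm.isSemisimpleRing

/-- the trace form is nondegenerate on the commutant of a semisimple set of matrices -/
theorem nondeg_Cm {S : Set (Matrix (Fin N) (Fin N) K)} (h : CR S) :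
    ∀ a ∈ Cm S, (∀ b ∈ Cm S, (a * b).trace = 0) → a = 0 := by
  have h1 := nondeg_of_CR (CR_of_semisimple (Cm S) (semisimple_Cm h))
  rw [Algebra.adjoin_eq] at h1
  exact h1

end Commutant

section

variable {N : ℕ} {p : ℕ} [Fact p.Prime] {Γ : Type} [Group Γ]

/-- the conjugation representation -/
noncomputable def cj (ρ : Γ →* GL (Fin N) ℤ_[p]) :
    Γ →* Module.End ℚ_[p] (Matrix (Fin N) (Fin N) ℚ_[p]) where
  toFun σ := LinearMap.mulLeft ℚ_[p] (rat ρ σ) ∘ₗ LinearMap.mulRight ℚ_[p] (rat ρ σ⁻¹)
  map_one' := by
    apply LinearMap.ext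
    intro X
    simp
  map_mul' := by
    intro σ τ
    apply LinearMap.ext
    intro X
    simp [mul_assoc]

theorem cj_apply (ρ : Γ →* GL (Fin N) ℤ_[p]) (σ : Γ) (X : Matrix (Fin N) (Fin N) ℚ_[p]) :
    cj ρ σ X = rat ρ σ * X * rat ρ σ⁻¹ := by
  simp [cj, mul_assoc]

theorem rat_mul_inv (ρ : Γ →* GL (Fin N) ℤ_[p]) (σ : Γ) : rat ρ σ * rat ρ σ⁻¹ = 1 := by
  rw [← map_mul, mul_inv_cancel, map_one]

theorem rat_inv_mul (ρ : Γ →* GL (Fin N) ℤ_[p]) (σ : Γ) : rat ρ σ⁻¹ * rat ρ σ = 1 := by
  rw [← map_mul, inv_mul_cancel, map_one]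

theorem cj_eq_iff (ρ : Γ →* GL (Fin N) ℤ_[p]) (σ : Γ) (X : Matrix (Fin N) (Fin N) ℚ_[p]) :
    cj ρ σ X = X ↔ Commute (rat ρ σ) X := by
  rw [cj_apply]
  constructor
  · intro h
    have h1 := congrArg (· * rat ρ σ) h
    simp only [mul_assoc, rat_inv_mul, mul_one] at h1
    exact h1
  · intro h
    rw [h.eq, mul_assoc, rat_mul_inv, mul_one]

theorem mem_Fix_cj {ρ : Γ →* GL (Fin N) ℤ_[p]} {S : Set Γ} {X : Matrix (Fin N) (Fin N) ℚ_[p]} :
    X ∈ Fix (cj ρ) S ↔ X ∈ Cm (rat ρ '' S) := by
  rw [mem_Cm]
  constructor
  · rintro h _ ⟨s, hs, rfl⟩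
    exact (cj_eq_iff ρ s X).1 (h s hs)
  · intro h s hs
    exact (cj_eq_iff ρ s X).2 (h _ ⟨s, hs, rfl⟩)

/-- the trace form -/
noncomputable def tf (N p : ℕ) [Fact p.Prime] :
    LinearMap.BilinForm ℚ_[p] (Matrix (Fin N) (Fin N) ℚ_[p]) :=
  (LinearMap.mul ℚ_[p] (Matrix (Fin N) (Fin N) ℚ_[p])).compr₂ (Matrix.traceLinearMap (Fin N) ℚ_[p] ℚ_[p])

theorem tf_apply (X Y : Matrix (Fin N) (Fin N) ℚ_[p]) : tf N p X Y = (X * Y).trace := rfl

theorem tf_refl : (tf N p).IsRefl := by
  intro X Y h
  rw [tf_apply] at h ⊢
  rw [Matrix.trace_mul_comm]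
  exact h

theorem tf_nondeg : (tf N p).Nondegenerate := by
  refine (LinearMap.IsRefl.nondegenerate_iff_separatingLeft (B := tf N p) tf_refl).2 ?_
  intro X h
  rw [Matrix.ext_iff_trace_mul_right]
  intro Y
  rw [zero_mul, Matrix.trace_zero]
  exact h Y

theorem Rep.conj {ρ : Γ →* GL (Fin N) ℤ_[p]} (h : CR (Set.range (rat ρ))) : Rep ρ (cj ρ) := by
  classical
  refine ⟨?_, ?_, ?_⟩
  · intro l X
    have h1 : (fun σ => l (cj ρ σ X)) = ∑ i, ∑ j, ∑ k, ∑ m,
        (fun _ : Γ => l (Matrix.single i j 1) * X k m) *
          ((fun σ => rat ρ σ i k) * fun σ => rat ρ σ⁻¹ m j) := by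
      funext σ
      simp only [Finset.sum_apply, Pi.mul_apply]
      rw [cj_apply]
      conv_lhs => rw [Matrix.matrix_eq_sum_single (rat ρ σ * X * rat ρ σ⁻¹)]
      rw [map_sum]
      refine Finset.sum_congr rfl fun i _ => ?_
      rw [map_sum]
      refine Finset.sum_congr rfl fun j _ => ?_
      have h2 : Matrix.single i j ((rat ρ σ * X * rat ρ σ⁻¹) i j) =
          (rat ρ σ * X * rat ρ σ⁻¹) i j • Matrix.single i j (1 : ℚ_[p]) := by
        rw [Matrix.smul_single, smul_eq_mul, mul_one]
      rw [h2, map_smul, smul_eq_mul, Matrix.mul_apply, Finset.sum_mul, Finset.sum_comm]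
      refine Finset.sum_congr rfl fun m _ => ?_
      rw [Matrix.mul_apply, Finset.sum_mul, Finset.sum_mul]
      refine Finset.sum_congr rfl fun k _ => ?_
      ring
    rw [h1]
    refine Subalgebra.sum_mem _ fun i _ => Subalgebra.sum_mem _ fun j _ =>
      Subalgebra.sum_mem _ fun k _ => Subalgebra.sum_mem _ fun m _ => ?_
    exact (Pol ρ).mul_mem (const_mem ρ _) ((Pol ρ).mul_mem (entry_mem ρ _ _) (entry_inv_mem ρ _ _))
  · intro H hH
    have hCR : CR (rat ρ '' (H : Set Γ)) := clifford (rat ρ) H h
    have horth : (tf N p).orthogonal (Mov (cj ρ) (H : Set Γ)) = Fix (cj ρ) (H : Set Γ) := by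
      ext Y
      rw [LinearMap.BilinForm.mem_orthogonal_iff]
      constructor
      · intro hY s hs
        have h1 : ∀ X, (X * (rat ρ s⁻¹ * Y * rat ρ s)).trace = (X * Y).trace := by
          intro X
          have h2 := hY (cj ρ s X - X) (Submodule.subset_span ⟨s, hs, X, rfl⟩)
          rw [tf_apply, sub_mul, Matrix.trace_sub, cj_apply, sub_eq_zero] at h2
          rw [← h2]
          rw [← mul_assoc, Matrix.trace_mul_comm]
          congr 1
          simp only [mul_assoc]
        have h2 : rat ρ s⁻¹ * Y * rat ρ s = Y := by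
          rw [Matrix.ext_iff_trace_mul_left]
          exact h1
        rw [cj_apply]
        conv_lhs => rw [← h2]
        rw [mul_assoc, mul_assoc, mul_assoc, rat_mul_inv, mul_one, ← mul_assoc, rat_mul_inv,
          one_mul]
      · intro hY Z hZ
        induction hZ using Submodule.span_induction with
        | mem Z hZ =>
          obtain ⟨s, hs, X, rfl⟩ := hZ
          have h1 : Commute (rat ρ s) Y := (cj_eq_iff ρ s Y).1 (hY s hs)
          rw [tf_apply, sub_mul, Matrix.trace_sub, cj_apply, sub_eq_zero, mul_assoc (rat ρ s * X),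
            mul_assoc (rat ρ s), Matrix.trace_mul_comm]
          congr 1
          have h2 : Commute (rat ρ s⁻¹) Y := by
            have := (cj_eq_iff ρ s⁻¹ Y).1 (hY s⁻¹ (H.inv_mem hs))
            exact this
          rw [h2.eq, mul_assoc, mul_assoc, rat_inv_mul, mul_one]
        | zero => rw [map_zero]; rfl
        | add a b _ _ ha hb =>
          rw [map_add, LinearMap.add_apply, ha, hb, add_zero]
        | smul c a _ ha =>
          rw [map_smul, LinearMap.smul_apply, ha, smul_zero]
    have horth2 : (tf N p).orthogonal (Fix (cj ρ) (H : Set Γ)) = Mov (cj ρ) (H : Set Γ) := by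
      rw [← horth]
      exact LinearMap.BilinForm.orthogonal_orthogonal tf_nondeg tf_refl _
    have hdis : Disjoint (Fix (cj ρ) (H : Set Γ)) ((tf N p).orthogonal (Fix (cj ρ) (H : Set Γ))) := by
      rw [Submodule.disjoint_def]
      intro X hX hX'
      apply nondeg_Cm hCR X (mem_Fix_cj.1 hX)
      intro Y hY
      rw [LinearMap.BilinForm.mem_orthogonal_iff] at hX'
      have h1 := hX' Y (mem_Fix_cj.2 hY)
      rw [tf_apply] at h1
      rw [Matrix.trace_mul_comm]
      exact h1
    have h1 := LinearMap.BilinForm.isCompl_orthogonal_of_restrict_nondegenerate tf_refl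
      (LinearMap.BilinForm.nondegenerate_restrict_of_disjoint_orthogonal (tf N p) tf_refl hdis)
    rwa [horth2] at h1
  · intro u hu n hn X hX
    rw [cj_eq_iff] at hX ⊢
    exact commute_of_adjoin (S := {rat ρ (u ^ n)}) (by
      intro B hB
      rw [Set.mem_singleton_iff] at hB
      rw [hB]
      exact hX) (mem_adjoin_pow ρ hu hn)

end

end Pool.Agent.H850.RG
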