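import Pool.Agent.H850.RG.Gen

/-!
# Random pairs of elements of a connected compact `p`-adic group
-/

set_option autoImplicit false
set_option linter.unusedSectionVars false

namespace Pool.Agent.H850.RG

open Pool.Agent.H850.TF MeasureTheory Topology

variable {N : ℕ} {p : ℕ} [Fact p.Prime] {Γ : Type} [Group Γ]

theorem right_mem (ρ : Γ →* GL (Fin N) ℤ_[p]) (τ : Γ) {D : Γ → ℚ_[p]} (hD : D ∈ Pol ρ) :
    (fun σ => D (σ * τ)) ∈ Pol ρ := by
  induction hD using Algebra.adjoin_induction with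
  | mem D hD =>
    rcases hD with ⟨i, j, rfl⟩ | ⟨i, j, rfl⟩
    · have h1 : (fun σ : Γ => rat ρ (σ * τ) i j) =
          ∑ l, (fun σ => rat ρ σ i l) * fun _ => rat ρ τ l j := by
        funext σ
        rw [map_mul, Matrix.mul_apply, Finset.sum_apply]
        rfl
      rw [h1]
      exact Subalgebra.sum_mem _ fun l _ => (Pol ρ).mul_mem (entry_mem ρ _ _) (const_mem ρ _)
    · have h1 : (fun σ : Γ => rat ρ (σ * τ)⁻¹ i j) =
          ∑ l, (fun _ => rat ρ τ⁻¹ i l) * fun σ => rat ρ σ⁻¹ l j := by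
        funext σ
        rw [mul_inv_rev, map_mul, Matrix.mul_apply, Finset.sum_apply]
        rfl
      rw [h1]
      exact Subalgebra.sum_mem _ fun l _ => (Pol ρ).mul_mem (const_mem ρ _) (entry_inv_mem ρ _ _)
  | algebraMap r => exact const_mem ρ r
  | add D D' _ _ h h' => exact (Pol ρ).add_mem h h'
  | mul D D' _ _ h h' => exact (Pol ρ).mul_mem h h'

/-- all entries are polynomial functions -/
def PM (ρ : Γ →* GL (Fin N) ℤ_[p]) (M : Γ → Matrix (Fin N) (Fin N) ℚ_[p]) : Prop :=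
  ∀ i j, (fun σ => M σ i j) ∈ Pol ρ

theorem PM.const (ρ : Γ →* GL (Fin N) ℤ_[p]) (M : Matrix (Fin N) (Fin N) ℚ_[p]) :
    PM ρ (fun _ => M) := fun i j => const_mem ρ _

theorem PM.rat (ρ : Γ →* GL (Fin N) ℤ_[p]) : PM ρ (fun σ => rat ρ σ) :=
  fun i j => entry_mem ρ i j

theorem PM.mul {ρ : Γ →* GL (Fin N) ℤ_[p]} {M M' : Γ → Matrix (Fin N) (Fin N) ℚ_[p]}
    (h : PM ρ M) (h' : PM ρ M') : PM ρ (fun σ => M σ * M' σ) := by
  intro i j
  have h1 : (fun σ => (M σ * M' σ) i j) = ∑ l, (fun σ => M σ i l) * fun σ => M' σ l j := by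
    funext σ
    rw [Matrix.mul_apply, Finset.sum_apply]
    rfl
  rw [h1]
  exact Subalgebra.sum_mem _ fun l _ => (Pol ρ).mul_mem (h _ _) (h' _ _)

theorem PM.rat_pow (ρ : Γ →* GL (Fin N) ℤ_[p]) (k : ℕ) :
    PM ρ (fun σ => Pool.Agent.H850.TF.rat ρ (σ ^ k)) := by
  induction k with
  | zero =>
    simp only [pow_zero]
    exact PM.const ρ _
  | succ k ih =>
    simp only [pow_succ, map_mul]
    exact ih.mul (PM.rat ρ)

theorem PM.wd {ρ : Γ →* GL (Fin N) ℤ_[p]} {M M' : Γ → Matrix (Fin N) (Fin N) ℚ_[p]}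
    (h : PM ρ M) (h' : PM ρ M') (l : List (Fin 2)) : PM ρ (fun σ => wd (M σ) (M' σ) l) := by
  induction l with
  | nil =>
    have : (fun σ => Pool.Agent.H850.TF.wd (M σ) (M' σ) []) = fun _ => 1 := by
      funext x
      simp [Pool.Agent.H850.TF.wd]
    rw [this]
    exact PM.const ρ _
  | cons a l ih =>
    have : (fun σ => Pool.Agent.H850.TF.wd (M σ) (M' σ) (a :: l)) =
        fun σ => (if a = 0 then M σ else M' σ) * Pool.Agent.H850.TF.wd (M σ) (M' σ) l := by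
      funext x
      simp [Pool.Agent.H850.TF.wd]
    rw [this]
    refine PM.mul ?_ ih
    split_ifs
    · exact h
    · exact h'

theorem PM.minor {ρ : Γ →* GL (Fin N) ℤ_[p]} {M M' : Γ → Matrix (Fin N) (Fin N) ℚ_[p]}
    (h : PM ρ M) (h' : PM ρ M') {D : ℕ} (w : Fin D → List (Fin 2))
    (e : Fin D → Fin N × Fin N) : (fun σ => minor w e (M σ) (M' σ)) ∈ Pol ρ :=
  det_mem (fun σ => Matrix.of fun i j => ent (Pool.Agent.H850.TF.wd (M σ) (M' σ) (w i)) (e j))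
    fun i j => (h.wd h' (w i)) _ _

theorem functional_mem (ρ : Γ →* GL (Fin N) ℤ_[p])
    (f : Matrix (Fin N) (Fin N) ℚ_[p] →ₗ[ℚ_[p]] ℚ_[p]) : (fun σ => f (rat ρ σ)) ∈ Pol ρ := by
  have h1 : (fun σ => f (rat ρ σ)) =
      ∑ i, ∑ j, (fun σ => rat ρ σ i j) * fun _ => f (Matrix.single i j 1) := by
    funext σ
    conv_lhs => rw [Matrix.matrix_eq_sum_single (rat ρ σ)]
    rw [map_sum, Finset.sum_apply]
    refine Finset.sum_congr rfl fun i _ => ?_
    rw [map_sum, Finset.sum_apply]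
    refine Finset.sum_congr rfl fun j _ => ?_
    have h2 : Matrix.single i j (rat ρ σ i j) = rat ρ σ i j • Matrix.single i j (1 : ℚ_[p]) := by
      rw [Matrix.smul_single, smul_eq_mul, mul_one]
    rw [h2, map_smul]
    rfl
  rw [h1]
  exact Subalgebra.sum_mem _ fun i _ => Subalgebra.sum_mem _ fun j _ =>
    (Pol ρ).mul_mem (entry_mem ρ _ _) (const_mem ρ _)

theorem noetherian_Pol (ρ : Γ →* GL (Fin N) ℤ_[p]) : IsNoetherianRing (Pol ρ) := by
  have h1 : ({f : Γ → ℚ_[p] | ∃ i j, f = fun σ => rat ρ σ i j} ∪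
      {f | ∃ i j, f = fun σ => rat ρ σ⁻¹ i j}).Finite := by
    apply Set.Finite.union
    · refine (Set.finite_range fun q : Fin N × Fin N => fun σ => rat ρ σ q.1 q.2).subset ?_
      rintro f ⟨i, j, rfl⟩
      exact ⟨(i, j), rfl⟩
    · refine (Set.finite_range fun q : Fin N × Fin N => fun σ => rat ρ σ⁻¹ q.1 q.2).subset ?_
      rintro f ⟨i, j, rfl⟩
      exact ⟨(i, j), rfl⟩
  exact isNoetherianRing_of_fg (Subalgebra.fg_def.2 ⟨_, h1, rfl⟩)

variable [TopologicalSpace Γ] [IsTopologicalGroup Γ]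

/-- the Zariski closure of the image of `U` is connected, and equal to that of every smaller open
subgroup -/
def ConnOn (ρ : Γ →* GL (Fin N) ℤ_[p]) (U : Subgroup Γ) : Prop :=
  ∀ D ∈ Pol ρ, ∀ V : Subgroup Γ, IsOpen (V : Set Γ) → (∀ v ∈ V, D v = 0) → ∀ u ∈ U, D u = 0

/-- the polynomial functions vanishing on `V` -/
def van (ρ : Γ →* GL (Fin N) ℤ_[p]) (V : Subgroup Γ) : Ideal (Pol ρ) where
  carrier := {D | ∀ v ∈ V, (D : Γ → ℚ_[p]) v = 0}
  add_mem' := by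
    intro a b ha hb v hv
    change (a : Γ → ℚ_[p]) v + (b : Γ → ℚ_[p]) v = 0
    rw [ha v hv, hb v hv, add_zero]
  zero_mem' := fun v _ => rfl
  smul_mem' := by
    intro c a ha v hv
    change (c : Γ → ℚ_[p]) v * (a : Γ → ℚ_[p]) v = 0
    rw [ha v hv, mul_zero]

theorem exists_connOn (ρ : Γ →* GL (Fin N) ℤ_[p]) :
    ∃ U : Subgroup Γ, IsOpen (U : Set Γ) ∧ ConnOn ρ U := by
  have hN := noetherian_Pol ρ
  obtain ⟨I, ⟨U, hU, rfl⟩, hmax⟩ := (set_has_maximal_iff_noetherian (R := Pol ρ)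
    (M := Pol ρ)).2 hN {I | ∃ U : Subgroup Γ, IsOpen (U : Set Γ) ∧ I = van ρ U}
      ⟨_, ⊤, by rw [Subgroup.coe_top]; exact isOpen_univ, rfl⟩
  refine ⟨U, hU, fun D hD V hV hDV u hu => ?_⟩
  have h1 : van ρ U ≤ van ρ (U ⊓ V) := fun a ha v hv => ha v hv.1
  have h2 : van ρ U = van ρ (U ⊓ V) := by
    by_contra hne
    exact hmax _ ⟨U ⊓ V, by rw [Subgroup.coe_inf]; exact hU.inter hV, rfl⟩
      (lt_of_le_of_ne h1 hne)
  have h3 : (⟨D, hD⟩ : Pol ρ) ∈ van ρ (U ⊓ V) := fun v hv => hDV v hv.2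
  rw [← h2] at h3
  exact h3 u hu

/-- the functions vanishing on some open subgroup vanish at the elements of `conn ρ`: the largest
subgroup on which the image is Zariski connected -/
def connSet (ρ : Γ →* GL (Fin N) ℤ_[p]) : Set Γ :=
  {g | ∀ D ∈ Pol ρ, (∃ V : Subgroup Γ, IsOpen (V : Set Γ) ∧ ∀ v ∈ V, D v = 0) → D g = 0}

theorem connSet_of_connOn {ρ : Γ →* GL (Fin N) ℤ_[p]} {U : Subgroup Γ} (h : ConnOn ρ U) :
    (U : Set Γ) ⊆ connSet ρ := fun u hu D hD ⟨V, hV, hDV⟩ => h D hD V hV hDV u hu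

theorem left_mem (ρ : Γ →* GL (Fin N) ℤ_[p]) (τ : Γ) {D : Γ → ℚ_[p]} (hD : D ∈ Pol ρ) :
    (fun σ => D (τ * σ)) ∈ Pol ρ := by
  have h1 := inv_mem ρ (right_mem ρ τ⁻¹ (inv_mem ρ hD))
  have h2 : (fun σ => D (τ * σ)) = fun σ => D (σ⁻¹ * τ⁻¹)⁻¹ := by
    funext σ
    rw [mul_inv_rev, inv_inv, inv_inv]
  rw [h2]
  exact h1

/-- the largest subgroup on which the image of `ρ` is Zariski connected -/
def conn (ρ : Γ →* GL (Fin N) ℤ_[p]) : Subgroup Γ where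
  carrier := connSet ρ
  one_mem' := by
    rintro D hD ⟨V, hV, hDV⟩
    exact hDV 1 V.one_mem
  mul_mem' := by
    obtain ⟨U, hU, hc⟩ := exists_connOn ρ
    rintro w u hw hu D hD ⟨V, hV, hDV⟩
    refine hw (fun σ => D (σ * u)) (right_mem ρ u hD) ⟨U, hU, fun v hv => ?_⟩
    refine hu (fun σ => D (v * σ)) (left_mem ρ v hD) ⟨U, hU, fun x hx => ?_⟩
    exact hc D hD V hV hDV _ (U.mul_mem hv hx)
  inv_mem' := by
    rintro w hw D hD ⟨V, hV, hDV⟩
    exact hw (fun σ => D σ⁻¹) (inv_mem ρ hD) ⟨V, hV, fun v hv => hDV _ (V.inv_mem hv)⟩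

instance conn_normal (ρ : Γ →* GL (Fin N) ℤ_[p]) : (conn ρ).Normal := by
  refine ⟨fun w hw g => ?_⟩
  rintro D hD ⟨V, hV, hDV⟩
  refine hw (fun σ => D (g * σ * g⁻¹)) ?_ ⟨V.comap (MulAut.conj g).toMonoidHom, ?_, ?_⟩
  · have h1 := left_mem ρ g (right_mem ρ g⁻¹ hD)
    exact h1
  · refine hV.preimage ?_
    change Continuous fun x => g * x * g⁻¹
    fun_prop
  · intro v hv
    exact hDV _ hv

theorem connOn_conn (ρ : Γ →* GL (Fin N) ℤ_[p]) : ConnOn ρ (conn ρ) :=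
  fun D hD V hV hDV u hu => hu D hD ⟨V, hV, hDV⟩

theorem ConnOn.le {ρ : Γ →* GL (Fin N) ℤ_[p]} {U : Subgroup Γ} (h : ConnOn ρ U) : U ≤ conn ρ :=
  connSet_of_connOn h

theorem isOpen_conn (ρ : Γ →* GL (Fin N) ℤ_[p]) : IsOpen (conn ρ : Set Γ) := by
  obtain ⟨U, hU, hc⟩ := exists_connOn ρ
  exact Subgroup.isOpen_mono hc.le hU

/-- connectedness can be tested on polynomials in the matrix entries -/
theorem exists_poly (ρ : Γ →* GL (Fin N) ℤ_[p]) {D : Γ → ℚ_[p]} (hD : D ∈ Pol ρ) :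
    ∃ (m : ℕ) (P : MvPolynomial (Fin N × Fin N) ℚ_[p]), ∀ σ,
      (rat ρ σ).det ^ m * D σ = MvPolynomial.eval (fun q => rat ρ σ q.1 q.2) P := by
  have hdet : ∀ σ, MvPolynomial.eval (fun q => rat ρ σ q.1 q.2)
      (Matrix.mvPolynomialX (Fin N) (Fin N) ℚ_[p]).det = (rat ρ σ).det := by
    intro σ
    rw [RingHom.map_det]
    congr 1
    ext i j
    simp
  induction hD using Algebra.adjoin_induction with
  | mem D hD =>
    rcases hD with ⟨i, j, rfl⟩ | ⟨i, j, rfl⟩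
    · exact ⟨0, MvPolynomial.X (i, j), fun σ => by simp⟩
    · refine ⟨1, (Matrix.mvPolynomialX (Fin N) (Fin N) ℚ_[p]).adjugate i j, fun σ => ?_⟩
      have h1 : MvPolynomial.eval (fun q => rat ρ σ q.1 q.2)
          ((Matrix.mvPolynomialX (Fin N) (Fin N) ℚ_[p]).adjugate i j) =
            (rat ρ σ).adjugate i j := by
        have h2 := RingHom.map_adjugate (MvPolynomial.eval (fun q => rat ρ σ q.1 q.2))
          (Matrix.mvPolynomialX (Fin N) (Fin N) ℚ_[p])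
        have h3 := congrArg (fun A : Matrix (Fin N) (Fin N) ℚ_[p] => A i j) h2
        simp only [RingHom.mapMatrix_apply, Matrix.map_apply] at h3
        rw [h3]
        congr 2
        ext i j
        simp
      rw [h1, pow_one]
      have h2 : rat ρ σ * rat ρ σ⁻¹ = 1 := by rw [← map_mul, mul_inv_cancel, map_one]
      have h3 : (rat ρ σ).det • rat ρ σ⁻¹ = (rat ρ σ).adjugate := by
        have h4 : (rat ρ σ).adjugate * (rat ρ σ * rat ρ σ⁻¹) = (rat ρ σ).adjugate := by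
          rw [h2, mul_one]
        rw [← mul_assoc, Matrix.adjugate_mul, Matrix.smul_mul, one_mul] at h4
        exact h4
      rw [← h3, Matrix.smul_apply, smul_eq_mul]
  | algebraMap r => exact ⟨0, MvPolynomial.C r, fun σ => by simp⟩
  | add D D' _ _ h h' =>
    obtain ⟨m, P, hP⟩ := h
    obtain ⟨m', P', hP'⟩ := h'
    refine ⟨m + m', (Matrix.mvPolynomialX (Fin N) (Fin N) ℚ_[p]).det ^ m' * P +
      (Matrix.mvPolynomialX (Fin N) (Fin N) ℚ_[p]).det ^ m * P', fun σ => ?_⟩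
    rw [map_add, map_mul, map_mul, map_pow, map_pow, hdet, ← hP, ← hP', Pi.add_apply]
    ring
  | mul D D' _ _ h h' =>
    obtain ⟨m, P, hP⟩ := h
    obtain ⟨m', P', hP'⟩ := h'
    refine ⟨m + m', P * P', fun σ => ?_⟩
    rw [map_mul, ← hP, ← hP', Pi.mul_apply]
    ring

theorem eval_mem (ρ : Γ →* GL (Fin N) ℤ_[p]) (P : MvPolynomial (Fin N × Fin N) ℚ_[p]) :
    (fun σ => MvPolynomial.eval (fun q => rat ρ σ q.1 q.2) P) ∈ Pol ρ := by
  induction P using MvPolynomial.induction_on with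
  | C a =>
    simp only [MvPolynomial.eval_C]
    exact const_mem ρ a
  | add P Q h h' =>
    simp only [map_add]
    exact (Pol ρ).add_mem h h'
  | mul_X P q h =>
    simp only [map_mul, MvPolynomial.eval_X]
    exact (Pol ρ).mul_mem h (entry_mem ρ _ _)

theorem connOn_of_poly (ρ : Γ →* GL (Fin N) ℤ_[p]) (U : Subgroup Γ)
    (h : ∀ P : MvPolynomial (Fin N × Fin N) ℚ_[p], ∀ V : Subgroup Γ, IsOpen (V : Set Γ) →
      (∀ v ∈ V, MvPolynomial.eval (fun q => rat ρ v q.1 q.2) P = 0) →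
        ∀ u ∈ U, MvPolynomial.eval (fun q => rat ρ u q.1 q.2) P = 0) : ConnOn ρ U := by
  intro D hD V hV hDV u hu
  obtain ⟨m, P, hP⟩ := exists_poly ρ hD
  have h1 := h P V hV (fun v hv => by rw [← hP, hDV v hv, mul_zero]) u hu
  rw [← hP] at h1
  have h2 : (rat ρ u).det ≠ 0 := by
    intro h0
    have h3 : rat ρ u * rat ρ u⁻¹ = 1 := by rw [← map_mul, mul_inv_cancel, map_one]
    have h4 := congrArg Matrix.det h3
    rw [Matrix.det_mul, h0, zero_mul, Matrix.det_one] at h4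
    exact zero_ne_one h4
  exact (mul_eq_zero.1 h1).resolve_left (pow_ne_zero _ h2)

theorem ConnOn.mono {ρ : Γ →* GL (Fin N) ℤ_[p]} {U U' : Subgroup Γ} (h : ConnOn ρ U)
    (hle : U' ≤ U) : ConnOn ρ U' := fun D hD V hV hDV u hu => h D hD V hV hDV u (hle hu)

variable [CompactSpace Γ] [MeasurableSpace Γ] [BorelSpace Γ]

/-- zero-one law on a connected open subgroup -/
theorem ConnOn.ae_ne (μ : Measure Γ) [μ.IsHaarMeasure] {ρ : Γ →* GL (Fin N) ℤ_[p]}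
    (hρ : Continuous fun σ => (ρ σ : Matrix (Fin N) (Fin N) ℤ_[p])) {U : Subgroup Γ}
    (hU : IsOpen (U : Set Γ)) (h : ConnOn ρ U) {D : Γ → ℚ_[p]} (hD : D ∈ Pol ρ) {u₀ : Γ}
    (hu₀ : u₀ ∈ U) (h0 : D u₀ ≠ 0) : ∀ᵐ σ ∂μ, σ ∈ U → D σ ≠ 0 := by
  set B : Set Γ := (U : Set Γ) ∩ {σ | D σ = 0} with hB
  have hBc : IsClosed B := (Subgroup.isClosed_of_isOpen U hU).inter
    (isClosed_eq (continuous_of_mem ρ hρ hD) continuous_const)
  have h1 : μ B = 0 := by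
    apply null_of_dichotomy μ hBc ((U1 ρ ⊓ U : Subgroup Γ) : Set Γ)
    · intro g hg σ
      by_cases hσ : σ ∈ U
      · have hmem : ∀ k : ℕ, g ^ k * σ ∈ U := fun k => U.mul_mem (U.pow_mem hg.2 k) hσ
        by_cases hall : ∀ k : ℕ, g ^ k * σ ∈ B
        · exact Or.inr hall
        · left
          push Not at hall
          obtain ⟨k₀, hk₀⟩ := hall
          by_contra hinf
          have h2 : {k : ℕ | D (g ^ k * σ) = 0}.Infinite :=
            Set.Infinite.mono (fun k hk => hk.2) hinf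
          exact hk₀ ⟨hmem k₀, (an_of_mem ρ hD hg.1 σ).zero_of_infinite h2 k₀⟩
      · left
        have h2 : {k : ℕ | g ^ k * σ ∈ B} = ∅ := by
          ext k
          simp only [Set.mem_ofPred_eq, Set.mem_empty_iff_false, iff_false]
          intro hk
          apply hσ
          have h3 := U.mul_mem (U.inv_mem (U.pow_mem hg.2 k)) hk.1
          rwa [inv_mul_cancel_left] at h3
        rw [h2]
        exact Set.finite_empty
    · intro σ
      by_cases hσ : σ ∈ U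
      · by_contra hcon
        push Not at hcon
        have h2 : ∀ v ∈ U1 ρ ⊓ U, D (v * σ) = 0 := fun v hv =>
          (hcon v ((U1 ρ ⊓ U).inv_mem hv)).2
        have h3 := h _ (right_mem ρ σ hD) (U1 ρ ⊓ U) (by
          rw [Subgroup.coe_inf]
          exact (isOpen_U1 ρ hρ).inter hU) h2 (u₀ * σ⁻¹) (U.mul_mem hu₀ (U.inv_mem hσ))
        simp only [inv_mul_cancel_right] at h3
        exact h0 h3
      · exact ⟨1, by rw [inv_one]; exact (U1 ρ ⊓ U).one_mem, fun hB' => hσ (by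
          have := hB'.1
          rwa [one_mul] at this)⟩
  have h2 : ∀ᵐ σ ∂μ, σ ∉ B := measure_eq_zero_iff_ae_notMem.1 h1
  filter_upwards [h2] with σ hσ hσU hD0
  exact hσ ⟨hσU, hD0⟩

omit [CompactSpace Γ] [MeasurableSpace Γ] [BorelSpace Γ] in
theorem ConnOn.mem_adjoin {ρ : Γ →* GL (Fin N) ℤ_[p]} {U : Subgroup Γ} (h : ConnOn ρ U)
    {V : Subgroup Γ} (hV : IsOpen (V : Set Γ)) {u : Γ} (hu : u ∈ U)
    (A : Subalgebra ℚ_[p] (Matrix (Fin N) (Fin N) ℚ_[p])) (hA : ∀ v ∈ V, rat ρ v ∈ A) :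
    rat ρ u ∈ A := by
  by_contra hne
  have h1 : rat ρ u ∉ Subalgebra.toSubmodule A := hne
  obtain ⟨f, hf, hf0⟩ := Submodule.exists_le_ker_of_notMem h1
  exact hf (h _ (functional_mem ρ f) V hV (fun v hv => hf0 (hA v hv)) u hu)

omit [MeasurableSpace Γ] [BorelSpace Γ] in
/-- a pair all of whose powers generate the whole algebra -/
theorem ConnOn.exists_pair [TotallyDisconnectedSpace Γ] {ρ : Γ →* GL (Fin N) ℤ_[p]}
    (hρ : Continuous fun σ => (ρ σ : Matrix (Fin N) (Fin N) ℤ_[p])) {U : Subgroup Γ}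
    (hU : IsOpen (U : Set Γ)) (h : ConnOn ρ U) (hss : CR (Set.range (rat ρ))) {k : ℕ}
    (hk : k ≠ 0) : ∃ σ₁ ∈ U, ∃ τ₁ ∈ U, ∀ u ∈ U,
      rat ρ u ∈ Algebra.adjoin ℚ_[p] {rat ρ (σ₁ ^ k), rat ρ (τ₁ ^ k)} := by
  obtain ⟨V, σ₀, τ₀, -, -, h1, h2, h3⟩ := two_cosets ρ hρ hss
  have hσ₀ : σ₀ ∈ U1 ρ := by
    have := h1 1 V.one_mem
    rwa [mul_one] at this
  have hτ₀ : τ₀ ∈ U1 ρ := by
    have := h2 1 V.one_mem
    rwa [mul_one] at this
  have hgen : ∀ σ ∈ U1 ρ, rat ρ σ ∈ Algebra.adjoin ℚ_[p] {rat ρ σ₀, rat ρ τ₀} := by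
    intro σ hσ
    have := h3 1 V.one_mem 1 V.one_mem σ hσ
    rwa [mul_one, mul_one] at this
  have hfin : Finite (Γ ⧸ U) := Subgroup.quotient_finite_of_isOpen U hU
  have hidx : U.index ≠ 0 := by
    have : U.FiniteIndex := Subgroup.finiteIndex_of_finite_quotient
    exact this.index_ne_zero
  obtain ⟨m, hm, -, hσm⟩ := Subgroup.exists_pow_mem_of_index_ne_zero hidx σ₀
  obtain ⟨n, hn, -, hτn⟩ := Subgroup.exists_pow_mem_of_index_ne_zero hidx τ₀
  have hm0 : m * k ≠ 0 := Nat.mul_ne_zero (by omega) hk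
  have hn0 : n * k ≠ 0 := Nat.mul_ne_zero (by omega) hk
  refine ⟨σ₀ ^ m, hσm, τ₀ ^ n, hτn, fun u hu => ?_⟩
  refine h.mem_adjoin (isOpen_U1 ρ hρ) hu _ fun v hv => ?_
  have hle : Algebra.adjoin ℚ_[p] {rat ρ σ₀, rat ρ τ₀} ≤
      Algebra.adjoin ℚ_[p] {rat ρ ((σ₀ ^ m) ^ k), rat ρ ((τ₀ ^ n) ^ k)} := by
    have h4 := mem_adjoin_pow ρ hσ₀ hm0
    have h5 := mem_adjoin_pow ρ hτ₀ hn0
    rw [pow_mul] at h4 h5
    generalize rat ρ ((σ₀ ^ m) ^ k) = X at h4 ⊢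
    generalize rat ρ ((τ₀ ^ n) ^ k) = Y at h5 ⊢
    generalize rat ρ σ₀ = X₀ at h4 ⊢
    generalize rat ρ τ₀ = Y₀ at h5 ⊢
    apply Algebra.adjoin_le
    intro Z hZ
    rcases hZ with rfl | hZ
    · exact Algebra.adjoin_mono (Set.singleton_subset_iff.2 (Set.mem_insert _ _)) h4
    · rw [Set.mem_singleton_iff] at hZ
      rw [hZ]
      exact Algebra.adjoin_mono (Set.singleton_subset_iff.2
        (Set.mem_insert_of_mem _ (Set.mem_singleton _))) h5
  exact hle (hgen v hv)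

/-- **Almost every pair generates the whole algebra.** -/
theorem ConnOn.pair (μ : Measure Γ) [μ.IsHaarMeasure] [TotallyDisconnectedSpace Γ]
    {ρ : Γ →* GL (Fin N) ℤ_[p]}
    (hρ : Continuous fun σ => (ρ σ : Matrix (Fin N) (Fin N) ℤ_[p])) {U : Subgroup Γ}
    (hU : IsOpen (U : Set Γ)) (h : ConnOn ρ U) (hss : CR (Set.range (rat ρ))) {k : ℕ}
    (hk : k ≠ 0) : ∀ᵐ σ ∂μ, ∀ᵐ τ ∂μ, σ ∈ U → τ ∈ U → ∀ u ∈ U,
      rat ρ u ∈ Algebra.adjoin ℚ_[p] {rat ρ (σ ^ k), rat ρ (τ ^ k)} := by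
  classical
  obtain ⟨σ₁, hσm, τ₁, hτn, hA2⟩ := h.exists_pair hρ hU hss hk
  have hpair : ∀ σ ∈ U, ∀ τ ∈ U, Algebra.adjoin ℚ_[p] {rat ρ (σ ^ k), rat ρ (τ ^ k)} ≤
      Algebra.adjoin ℚ_[p] (rat ρ '' (U : Set Γ)) := by
    intro σ hσ τ hτ
    apply Algebra.adjoin_mono
    intro X hX
    rcases hX with rfl | hX
    · exact ⟨_, U.pow_mem hσ k, rfl⟩
    · rw [Set.mem_singleton_iff] at hX
      rw [hX]
      exact ⟨_, U.pow_mem hτ k, rfl⟩
  have hA0 : Algebra.adjoin ℚ_[p] (rat ρ '' (U : Set Γ)) =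
      Algebra.adjoin ℚ_[p] {rat ρ (σ₁ ^ k), rat ρ (τ₁ ^ k)} := by
    apply le_antisymm
    · apply Algebra.adjoin_le
      rintro _ ⟨σ, hσ, rfl⟩
      exact hA2 σ hσ
    · exact hpair σ₁ hσm τ₁ hτn
  obtain ⟨w, e, hwe⟩ := exists_minor (rat ρ (σ₁ ^ k)) (rat ρ (τ₁ ^ k))
    (Module.finrank ℚ_[p] (Subalgebra.toSubmodule
      (Algebra.adjoin ℚ_[p] (rat ρ '' (U : Set Γ))))) (by
    rw [← adjoin_pair_eq_span, ← hA0])
  have hf1 : (fun σ => minor w e (rat ρ (σ ^ k)) (rat ρ (τ₁ ^ k))) ∈ Pol ρ :=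
    (PM.rat_pow ρ k).minor (PM.const ρ _) w e
  have hae := h.ae_ne μ hρ hU hf1 hσm hwe
  filter_upwards [hae] with σ hσ
  by_cases hσU : σ ∈ U
  swap
  · exact Filter.Eventually.of_forall fun τ h' => absurd h' hσU
  have hf2 : (fun τ => minor w e (rat ρ (σ ^ k)) (rat ρ (τ ^ k))) ∈ Pol ρ :=
    (PM.const ρ _).minor (PM.rat_pow ρ k) w e
  have hae2 := h.ae_ne μ hρ hU hf2 hτn (hσ hσU)
  filter_upwards [hae2] with τ hτ _ hτU u hu
  have h5 := le_finrank_of_minor _ _ w e (hτ hτU)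
  have h4 := Submodule.eq_of_le_of_finrank_le
    (show Subalgebra.toSubmodule (Algebra.adjoin ℚ_[p] {rat ρ (σ ^ k), rat ρ (τ ^ k)}) ≤
      Subalgebra.toSubmodule (Algebra.adjoin ℚ_[p] (rat ρ '' (U : Set Γ))) from
        hpair σ hσU τ hτU) h5
  rw [← Subalgebra.mem_toSubmodule, h4]
  exact Algebra.subset_adjoin ⟨u, hu, rfl⟩

end Pool.Agent.H850.RG
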