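import Pool.Agent.H850.RG.Ae
import Pool.Agent.H850.RG.Pair

/-!
# Adding a trivial summand; random pairs and fixed vectors
-/

set_option autoImplicit false
set_option linter.unusedSectionVars false

namespace Pool.Agent.H850.RG

open Pool.Agent.H850.TF MeasureTheory Topology

variable {N : ℕ} {p : ℕ} [Fact p.Prime] {Γ : Type} [Group Γ]

/-- the matrix with an additional diagonal entry `1` -/
def aug (R : Type) [CommRing R] (N : ℕ) :
    Matrix (Fin N) (Fin N) R →* Matrix (Fin (N + 1)) (Fin (N + 1)) R where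
  toFun X := Matrix.reindex finSumFinEquiv finSumFinEquiv
    (Matrix.fromBlocks X 0 0 (1 : Matrix (Fin 1) (Fin 1) R))
  map_one' := by simp
  map_mul' X Y := by
    simp [Matrix.fromBlocks_multiply, Matrix.submatrix_mul_equiv]

theorem aug_mulVec {R : Type} [CommRing R] (X : Matrix (Fin N) (Fin N) R) (a : Fin N → R)
    (c : Fin 1 → R) :
    (aug R N X).mulVec (Sum.elim a c ∘ finSumFinEquiv.symm) =
      Sum.elim (X.mulVec a) c ∘ finSumFinEquiv.symm := by
  change (Matrix.reindex finSumFinEquiv finSumFinEquiv _).mulVec _ = _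
  rw [Matrix.reindex_apply, Matrix.submatrix_mulVec_equiv]
  congr 1
  simp only [Function.comp_assoc, Equiv.symm_symm, Equiv.symm_comp_self, Function.comp_id]
  rw [Matrix.fromBlocks_mulVec]
  congr 1
  · simp
  · simp

theorem aug_toQ (X : Matrix (Fin N) (Fin N) ℤ_[p]) : toQ (aug ℤ_[p] N X) = aug ℚ_[p] N (toQ X) := by
  ext i j
  obtain ⟨i, rfl⟩ := finSumFinEquiv.surjective i
  obtain ⟨j, rfl⟩ := finSumFinEquiv.surjective j
  simp only [aug, toQ_apply, MonoidHom.coe_mk, OneHom.coe_mk, Matrix.reindex_apply,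
    Matrix.submatrix_apply, Equiv.symm_apply_apply]
  rcases i with i | i <;> rcases j with j | j
  · simp [toQ_apply]
  · simp
  · simp
  · have hi : i = 0 := Subsingleton.elim _ _
    have hj : j = 0 := Subsingleton.elim _ _
    rw [hi, hj]
    simp

/-- the direct sum of `ρ` and the trivial representation -/
noncomputable def augr (ρ : Γ →* GL (Fin N) ℤ_[p]) : Γ →* GL (Fin (N + 1)) ℤ_[p] :=
  (Units.map (aug ℤ_[p] N)).comp ρ

theorem rat_augr (ρ : Γ →* GL (Fin N) ℤ_[p]) (σ : Γ) :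
    rat (augr ρ) σ = aug ℚ_[p] N (rat ρ σ) := by
  rw [rat_apply, rat_apply]
  exact aug_toQ _

theorem continuous_augr [TopologicalSpace Γ] (ρ : Γ →* GL (Fin N) ℤ_[p])
    (hρ : Continuous fun σ => (ρ σ : Matrix (Fin N) (Fin N) ℤ_[p])) :
    Continuous fun σ => (augr ρ σ : Matrix (Fin (N + 1)) (Fin (N + 1)) ℤ_[p]) := by
  refine continuous_matrix fun i j => ?_
  obtain ⟨i, rfl⟩ := finSumFinEquiv.surjective i
  obtain ⟨j, rfl⟩ := finSumFinEquiv.surjective j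
  have h1 : (fun σ => (augr ρ σ : Matrix (Fin (N + 1)) (Fin (N + 1)) ℤ_[p])
      (finSumFinEquiv i) (finSumFinEquiv j)) = fun σ => (Matrix.fromBlocks
        (ρ σ : Matrix (Fin N) (Fin N) ℤ_[p]) 0 0 (1 : Matrix (Fin 1) (Fin 1) ℤ_[p])) i j := by
    funext σ
    change (Matrix.reindex finSumFinEquiv finSumFinEquiv _) _ _ = _
    rw [Matrix.reindex_apply, Matrix.submatrix_apply, Equiv.symm_apply_apply,
      Equiv.symm_apply_apply]
  rw [h1]
  rcases i with i | i <;> rcases j with j | j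
  · exact hρ.matrix_elem i j
  · exact continuous_const
  · exact continuous_const
  · exact continuous_const

/-- the equivalence of the underlying spaces -/
noncomputable def augE (N p : ℕ) [Fact p.Prime] :
    ((Fin N → ℚ_[p]) × (Fin 1 → ℚ_[p])) ≃ₗ[ℚ_[p]] (Fin (N + 1) → ℚ_[p]) :=
  (LinearEquiv.sumArrowLequivProdArrow (Fin N) (Fin 1) ℚ_[p] ℚ_[p]).symm.trans
    (LinearEquiv.funCongrLeft ℚ_[p] ℚ_[p] finSumFinEquiv.symm)

theorem augE_apply (x : (Fin N → ℚ_[p]) × (Fin 1 → ℚ_[p])) :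
    augE N p x = Sum.elim x.1 x.2 ∘ finSumFinEquiv.symm := rfl

theorem SS_trivial {X : Type} [AddCommGroup X] [Module ℚ_[p] X] (r : Γ →* Module.End ℚ_[p] X)
    (S : Set Γ) (h : ∀ s x, r s x = x) : SS r S := by
  intro W _
  obtain ⟨W', hW'⟩ := exists_isCompl W
  refine ⟨W', fun s _ x hx => ?_, hW'⟩
  rw [h]
  exact hx

/-- the product representation -/
noncomputable def prodr (ρ : Γ →* GL (Fin N) ℤ_[p]) :
    Γ →* Module.End ℚ_[p] ((Fin N → ℚ_[p]) × (Fin 1 → ℚ_[p])) where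
  toFun σ := LinearMap.prodMap (stdr ρ σ) LinearMap.id
  map_one' := by
    rw [map_one]
    rfl
  map_mul' := by
    intro σ τ
    rw [map_mul]
    rfl

theorem CR_augr {ρ : Γ →* GL (Fin N) ℤ_[p]} (h : CR (Set.range (rat ρ))) :
    CR (Set.range (rat (augr ρ))) := by
  have h0 : SS (stdr ρ) Set.univ := by
    intro W hW
    obtain ⟨W', hW', hc⟩ := h W (by
      rintro _ ⟨σ, rfl⟩ x hx
      exact hW σ trivial x hx)
    exact ⟨W', fun σ _ x hx => hW' _ ⟨σ, rfl⟩ x hx, hc⟩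
  have h1 : SS (prodr ρ) Set.univ := by
    refine SS.of_isCompl (Submodule.prod ⊤ ⊥) (Submodule.prod ⊥ ⊤) ?_ ?_ ?_ ?_ ?_
    · refine ⟨?_, ?_⟩
      · rw [Submodule.disjoint_def]
        rintro ⟨a, b⟩ ⟨_, hb⟩ ⟨ha, _⟩
        ext1
        · exact ha
        · exact hb
      · rw [codisjoint_iff, eq_top_iff]
        rintro ⟨a, b⟩ _
        exact Submodule.mem_sup.2 ⟨(a, 0), ⟨trivial, Submodule.zero_mem _⟩, (0, b),
          ⟨Submodule.zero_mem _, trivial⟩, by simp⟩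
    · rintro s ⟨a, b⟩ ⟨_, hb⟩
      exact ⟨trivial, hb⟩
    · rintro s ⟨a, b⟩ ⟨ha, _⟩
      refine ⟨?_, trivial⟩
      change stdr ρ s a ∈ (⊥ : Submodule ℚ_[p] (Fin N → ℚ_[p]))
      have ha' : a = 0 := ha
      rw [ha', map_zero]
      exact Submodule.zero_mem _
    · let f : (Fin N → ℚ_[p]) ≃ₗ[ℚ_[p]]
          (Submodule.prod ⊤ ⊥ : Submodule ℚ_[p] ((Fin N → ℚ_[p]) × (Fin 1 → ℚ_[p]))) :=
        { toFun := fun a => ⟨(a, 0), trivial, Submodule.zero_mem _⟩
          invFun := fun x => x.1.1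
          left_inv := fun a => rfl
          right_inv := by
            rintro ⟨⟨a, b⟩, ha, hb⟩
            have hb' : b = 0 := hb
            subst hb'
            rfl
          map_add' := by
            intro a b
            apply Subtype.ext
            simp
          map_smul' := by
            intro c a
            apply Subtype.ext
            simp }
      exact h0.congr f fun s _ x => rfl
    · apply SS_trivial
      rintro s ⟨⟨a, b⟩, ha, hb⟩
      have ha' : a = 0 := ha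
      subst ha'
      apply Subtype.ext
      change (stdr ρ s 0, b) = (0, b)
      rw [map_zero]
  have h2 : SS (stdr (augr ρ)) Set.univ := by
    refine h1.congr (augE N p) fun s _ x => ?_
    rw [stdr_apply, rat_augr, augE_apply, augE_apply, aug_mulVec]
    rfl
  intro W hW
  obtain ⟨W', hW', hc⟩ := h2 W fun σ _ x hx => hW _ ⟨σ, rfl⟩ x hx
  refine ⟨W', ?_, hc⟩
  rintro _ ⟨σ, rfl⟩ x hx
  exact hW' σ trivial x hx

/-- vectors fixed by a set whose augmented matrices generate -/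
theorem fixed_of_augr (ρ : Γ →* GL (Fin N) ℤ_[p]) {S : Set Γ} {u : Γ}
    (h : rat (augr ρ) u ∈ Algebra.adjoin ℚ_[p] (rat (augr ρ) '' S)) {v : Fin N → ℚ_[p]}
    (hv : ∀ s ∈ S, (rat ρ s).mulVec v = v) : (rat ρ u).mulVec v = v := by
  set x : Fin (N + 1) → ℚ_[p] := Sum.elim v (fun _ : Fin 1 => (1 : ℚ_[p])) ∘ finSumFinEquiv.symm
    with hx
  have h1 : ∀ A ∈ rat (augr ρ) '' S, ∀ y ∈ Submodule.span ℚ_[p] {x},
      A.mulVec y ∈ Submodule.span ℚ_[p] {x} := by
    rintro _ ⟨s, hs, rfl⟩ y hy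
    obtain ⟨c, rfl⟩ := Submodule.mem_span_singleton.1 hy
    rw [Matrix.mulVec_smul, rat_augr, hx, aug_mulVec, hv s hs]
    exact hy
  have h2 := stable_adjoin h1 _ h x (Submodule.mem_span_singleton_self x)
  obtain ⟨c, hc⟩ := Submodule.mem_span_singleton.1 h2
  rw [rat_augr, hx, aug_mulVec] at hc
  have h3 := congrFun hc (finSumFinEquiv (Sum.inr 0))
  simp only [Pi.smul_apply, Function.comp_apply, Equiv.symm_apply_apply, Sum.elim_inr,
    smul_eq_mul, mul_one] at h3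
  funext i
  have h4 := congrFun hc (finSumFinEquiv (Sum.inl i))
  simp only [Pi.smul_apply, Function.comp_apply, Equiv.symm_apply_apply, Sum.elim_inl,
    smul_eq_mul, h3, one_mul] at h4
  exact h4.symm

theorem Pol_augr (ρ : Γ →* GL (Fin N) ℤ_[p]) : Pol (augr ρ) ≤ Pol ρ := by
  apply Algebra.adjoin_le
  have h1 : ∀ (f : Γ → Γ), (∀ i j, (fun σ => rat ρ (f σ) i j) ∈ Pol ρ) → ∀ i j,
      (fun σ => rat (augr ρ) (f σ) i j) ∈ Pol ρ := by
    intro f hf i j
    obtain ⟨i, rfl⟩ := finSumFinEquiv.surjective i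
    obtain ⟨j, rfl⟩ := finSumFinEquiv.surjective j
    have h1 : (fun σ => rat (augr ρ) (f σ) (finSumFinEquiv i) (finSumFinEquiv j)) =
        fun σ => (Matrix.fromBlocks (rat ρ (f σ)) 0 0
          (1 : Matrix (Fin 1) (Fin 1) ℚ_[p])) i j := by
      funext σ
      rw [rat_augr]
      change (Matrix.reindex finSumFinEquiv finSumFinEquiv _) _ _ = _
      rw [Matrix.reindex_apply, Matrix.submatrix_apply, Equiv.symm_apply_apply,
        Equiv.symm_apply_apply]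
    rw [h1]
    rcases i with i | i <;> rcases j with j | j
    · exact hf i j
    · exact const_mem ρ _
    · exact const_mem ρ _
    · exact const_mem ρ _
  rintro D (⟨i, j, rfl⟩ | ⟨i, j, rfl⟩)
  · exact h1 id (entry_mem ρ) i j
  · exact h1 (fun σ => σ⁻¹) (entry_inv_mem ρ) i j

theorem ConnOn.augr [TopologicalSpace Γ] [IsTopologicalGroup Γ] {ρ : Γ →* GL (Fin N) ℤ_[p]}
    {U : Subgroup Γ} (h : ConnOn ρ U) : ConnOn (Pool.Agent.H850.RG.augr ρ) U :=
  fun D hD => h D (Pol_augr ρ hD)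

/-- **Random pairs.** A semisimple representation, its restriction to a connected open subgroup
and to all powers of almost all pairs in it -/
theorem ae_pairs [TopologicalSpace Γ] [IsTopologicalGroup Γ] [CompactSpace Γ]
    [TotallyDisconnectedSpace Γ] [MeasurableSpace Γ] [BorelSpace Γ]
    (μ : Measure Γ) [μ.IsHaarMeasure] {ρ : Γ →* GL (Fin N) ℤ_[p]}
    (hρ : Continuous fun σ => (ρ σ : Matrix (Fin N) (Fin N) ℤ_[p]))
    (hss : CR (Set.range (rat ρ))) :
    ∀ᵐ σ ∂μ, ∀ᵐ τ ∂μ, σ ∈ conn ρ → τ ∈ conn ρ → ∀ k : ℕ, k ≠ 0 → ∀ u ∈ conn ρ,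
        rat ρ u ∈ Algebra.adjoin ℚ_[p] {rat ρ (σ ^ k), rat ρ (τ ^ k)} ∧
        ∀ v : Fin N → ℚ_[p], (rat ρ (σ ^ k)).mulVec v = v → (rat ρ (τ ^ k)).mulVec v = v →
          (rat ρ u).mulVec v = v := by
  have hU := isOpen_conn ρ
  have h1 : ∀ k : ℕ, k ≠ 0 → ∀ᵐ σ ∂μ, ∀ᵐ τ ∂μ, σ ∈ conn ρ → τ ∈ conn ρ →
      ∀ u ∈ conn ρ, rat ρ u ∈ Algebra.adjoin ℚ_[p] {rat ρ (σ ^ k), rat ρ (τ ^ k)} :=
    fun k hk => (connOn_conn ρ).pair μ hρ hU hss hk
  have h2 : ∀ k : ℕ, k ≠ 0 → ∀ᵐ σ ∂μ, ∀ᵐ τ ∂μ, σ ∈ conn ρ → τ ∈ conn ρ →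
      ∀ u ∈ conn ρ, rat (augr ρ) u ∈
        Algebra.adjoin ℚ_[p] {rat (augr ρ) (σ ^ k), rat (augr ρ) (τ ^ k)} :=
    fun k hk => (connOn_conn ρ).augr.pair μ (continuous_augr ρ hρ) hU (CR_augr hss) hk
  have h3 : ∀ᵐ σ ∂μ, ∀ k : ℕ, k ≠ 0 → ∀ᵐ τ ∂μ, σ ∈ conn ρ → τ ∈ conn ρ →
      ∀ u ∈ conn ρ, rat ρ u ∈ Algebra.adjoin ℚ_[p] {rat ρ (σ ^ k), rat ρ (τ ^ k)} ∧
        rat (augr ρ) u ∈ Algebra.adjoin ℚ_[p] {rat (augr ρ) (σ ^ k), rat (augr ρ) (τ ^ k)} := by
    rw [ae_all_iff]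
    intro k
    by_cases hk : k = 0
    · exact Filter.Eventually.of_forall fun σ h => absurd hk h
    · filter_upwards [h1 k hk, h2 k hk] with σ hσ1 hσ2 _
      filter_upwards [hσ1, hσ2] with τ hτ1 hτ2 hσU hτU u hu
      exact ⟨hτ1 hσU hτU u hu, hτ2 hσU hτU u hu⟩
  filter_upwards [h3] with σ hσ
  have h4 : ∀ᵐ τ ∂μ, ∀ k : ℕ, k ≠ 0 → σ ∈ conn ρ → τ ∈ conn ρ →
      ∀ u ∈ conn ρ, rat ρ u ∈ Algebra.adjoin ℚ_[p] {rat ρ (σ ^ k), rat ρ (τ ^ k)} ∧
        rat (augr ρ) u ∈ Algebra.adjoin ℚ_[p] {rat (augr ρ) (σ ^ k), rat (augr ρ) (τ ^ k)} := by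
    rw [ae_all_iff]
    intro k
    by_cases hk : k = 0
    · exact Filter.Eventually.of_forall fun τ h => absurd hk h
    · filter_upwards [hσ k hk] with τ hτ _
      exact hτ
  filter_upwards [h4] with τ hτ hσU hτU k hk u hu
  obtain ⟨h5, h6⟩ := hτ k hk hσU hτU u hu
  refine ⟨h5, fun v hv1 hv2 => ?_⟩
  refine fixed_of_augr ρ (S := {σ ^ k, τ ^ k}) ?_ ?_
  · rwa [Set.image_pair]
  · intro s hs
    rcases hs with rfl | hs
    · exact hv1
    · rw [Set.mem_singleton_iff] at hs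
      rw [hs]
      exact hv2

/-- over a connected open subgroup nothing changes on smaller open subgroups -/
theorem conn_open [TopologicalSpace Γ] [IsTopologicalGroup Γ] (ρ : Γ →* GL (Fin N) ℤ_[p])
    {V : Subgroup Γ} (hV : IsOpen (V : Set Γ)) {u : Γ} (hu : u ∈ conn ρ)
    {v : Fin N → ℚ_[p]} (hv : ∀ s ∈ V, (rat ρ s).mulVec v = v) : (rat ρ u).mulVec v = v := by
  refine fixed_of_augr ρ (S := (V : Set Γ)) ?_ hv
  exact (connOn_conn ρ).augr.mem_adjoin hV hu _ fun w hw => Algebra.subset_adjoin ⟨w, hw, rfl⟩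

end Pool.Agent.H850.RG
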