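import Pool.Agent.H850.RG.Det

/-!
# Homomorphisms between two representations restricted to random elements
-/

set_option autoImplicit false
set_option linter.unusedSectionVars false

namespace Pool.Agent.H850.RG

open Pool.Agent.H850.TF MeasureTheory Topology Module

section Dsum

variable {N N' : ℕ} {p : ℕ} [Fact p.Prime] {Γ : Type} [Group Γ]

/-- block diagonal matrices -/
def blk {R : Type} [CommRing R] (X : Matrix (Fin N) (Fin N) R) (Y : Matrix (Fin N') (Fin N') R) :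
    Matrix (Fin (N + N')) (Fin (N + N')) R :=
  (Matrix.fromBlocks X 0 0 Y).submatrix finSumFinEquiv.symm finSumFinEquiv.symm

theorem blk_mul {R : Type} [CommRing R] (X X' : Matrix (Fin N) (Fin N) R)
    (Y Y' : Matrix (Fin N') (Fin N') R) : blk X Y * blk X' Y' = blk (X * X') (Y * Y') := by
  unfold blk
  rw [Matrix.submatrix_mul_equiv, Matrix.fromBlocks_multiply]
  simp

theorem blk_one {R : Type} [CommRing R] :
    blk (1 : Matrix (Fin N) (Fin N) R) (1 : Matrix (Fin N') (Fin N') R) = 1 := by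
  unfold blk
  rw [Matrix.fromBlocks_one, Matrix.submatrix_one_equiv]

/-- the direct sum of two representations -/
noncomputable def dsm (ρ : Γ →* GL (Fin N) ℤ_[p]) (ρ' : Γ →* GL (Fin N') ℤ_[p]) :
    Γ →* GL (Fin (N + N')) ℤ_[p] :=
  MonoidHom.toHomUnits
    { toFun := fun σ => blk (ρ σ : Matrix (Fin N) (Fin N) ℤ_[p])
        (ρ' σ : Matrix (Fin N') (Fin N') ℤ_[p])
      map_one' := by
        rw [map_one, map_one, Units.val_one, Units.val_one, blk_one]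
      map_mul' := fun σ τ => by
        rw [map_mul, map_mul, Units.val_mul, Units.val_mul, blk_mul] }

theorem dsm_val (ρ : Γ →* GL (Fin N) ℤ_[p]) (ρ' : Γ →* GL (Fin N') ℤ_[p]) (σ : Γ) :
    (dsm ρ ρ' σ : Matrix (Fin (N + N')) (Fin (N + N')) ℤ_[p]) = blk (ρ σ : Matrix (Fin N) (Fin N) ℤ_[p])
        (ρ' σ : Matrix (Fin N') (Fin N') ℤ_[p]) := rfl

theorem rat_dsm (ρ : Γ →* GL (Fin N) ℤ_[p]) (ρ' : Γ →* GL (Fin N') ℤ_[p]) (σ : Γ) :
    rat (dsm ρ ρ') σ = blk (rat ρ σ) (rat ρ' σ) := by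
  ext i j
  obtain ⟨i, rfl⟩ := finSumFinEquiv.surjective i
  obtain ⟨j, rfl⟩ := finSumFinEquiv.surjective j
  change algebraMap ℤ_[p] ℚ_[p] (blk (ρ σ : Matrix (Fin N) (Fin N) ℤ_[p])
        (ρ' σ : Matrix (Fin N') (Fin N') ℤ_[p]) _ _) = _
  unfold blk
  rw [Matrix.submatrix_apply, Matrix.submatrix_apply, Equiv.symm_apply_apply,
    Equiv.symm_apply_apply]
  rcases i with i | i <;> rcases j with j | j
  · rfl
  · exact map_zero _
  · exact map_zero _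
  · rfl

theorem continuous_dsm [TopologicalSpace Γ] {ρ : Γ →* GL (Fin N) ℤ_[p]}
    {ρ' : Γ →* GL (Fin N') ℤ_[p]}
    (hρ : Continuous fun σ => (ρ σ : Matrix (Fin N) (Fin N) ℤ_[p]))
    (hρ' : Continuous fun σ => (ρ' σ : Matrix (Fin N') (Fin N') ℤ_[p])) :
    Continuous fun σ => (dsm ρ ρ' σ : Matrix (Fin (N + N')) (Fin (N + N')) ℤ_[p]) := by
  refine continuous_matrix fun i j => ?_
  obtain ⟨i, rfl⟩ := finSumFinEquiv.surjective i
  obtain ⟨j, rfl⟩ := finSumFinEquiv.surjective j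
  simp only [dsm_val, blk, Matrix.submatrix_apply, Equiv.symm_apply_apply]
  rcases i with i | i <;> rcases j with j | j
  · exact hρ.matrix_elem i j
  · exact continuous_const
  · exact continuous_const
  · exact hρ'.matrix_elem i j

theorem Pol_left (ρ : Γ →* GL (Fin N) ℤ_[p]) (ρ' : Γ →* GL (Fin N') ℤ_[p]) :
    Pol ρ ≤ Pol (dsm ρ ρ') := by
  have h0 : ∀ σ i j, rat ρ σ i j =
      rat (dsm ρ ρ') σ (finSumFinEquiv (Sum.inl i)) (finSumFinEquiv (Sum.inl j)) := by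
    intro σ i j
    rw [rat_dsm]
    unfold blk
    rw [Matrix.submatrix_apply, Equiv.symm_apply_apply, Equiv.symm_apply_apply]
    rfl
  unfold Pol
  apply Algebra.adjoin_le
  rintro f (⟨i, j, rfl⟩ | ⟨i, j, rfl⟩)
  · simp only [h0]
    exact entry_mem _ _ _
  · simp only [h0]
    exact entry_inv_mem _ _ _

theorem Pol_right (ρ : Γ →* GL (Fin N) ℤ_[p]) (ρ' : Γ →* GL (Fin N') ℤ_[p]) :
    Pol ρ' ≤ Pol (dsm ρ ρ') := by
  have h0 : ∀ σ i j, rat ρ' σ i j =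
      rat (dsm ρ ρ') σ (finSumFinEquiv (Sum.inr i)) (finSumFinEquiv (Sum.inr j)) := by
    intro σ i j
    rw [rat_dsm]
    unfold blk
    rw [Matrix.submatrix_apply, Equiv.symm_apply_apply, Equiv.symm_apply_apply]
    rfl
  unfold Pol
  apply Algebra.adjoin_le
  rintro f (⟨i, j, rfl⟩ | ⟨i, j, rfl⟩)
  · simp only [h0]
    exact entry_mem _ _ _
  · simp only [h0]
    exact entry_inv_mem _ _ _

theorem MC_left (ρ : Γ →* GL (Fin N) ℤ_[p]) (ρ' : Γ →* GL (Fin N') ℤ_[p]) :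
    MC (dsm ρ ρ') fun σ => stdr ρ σ := fun l x => Pol_left ρ ρ' (stdr_MC ρ l x)

theorem MC_right (ρ : Γ →* GL (Fin N) ℤ_[p]) (ρ' : Γ →* GL (Fin N') ℤ_[p]) :
    MC (dsm ρ ρ') fun σ => stdr ρ' σ := fun l x => Pol_right ρ ρ' (stdr_MC ρ' l x)

/-- the value of a polynomial at the pair of matrices -/
noncomputable def val2 (ρ : Γ →* GL (Fin N) ℤ_[p]) (ρ' : Γ →* GL (Fin N') ℤ_[p])
    (P : MvPolynomial ((Fin N × Fin N) ⊕ (Fin N' × Fin N')) ℚ_[p]) (σ : Γ) : ℚ_[p] :=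
  MvPolynomial.eval (Sum.elim (fun q => rat ρ σ q.1 q.2) fun q => rat ρ' σ q.1 q.2) P

theorem val2_mem (ρ : Γ →* GL (Fin N) ℤ_[p]) (ρ' : Γ →* GL (Fin N') ℤ_[p])
    (P : MvPolynomial ((Fin N × Fin N) ⊕ (Fin N' × Fin N')) ℚ_[p]) :
    (fun σ => val2 ρ ρ' P σ) ∈ Pol (dsm ρ ρ') := by
  unfold val2
  induction P using MvPolynomial.induction_on with
  | C a =>
    simp only [MvPolynomial.eval_C]
    exact const_mem _ a
  | add P Q h h' =>
    simp only [map_add]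
    exact (Pol (dsm ρ ρ')).add_mem h h'
  | mul_X P q h =>
    simp only [map_mul, MvPolynomial.eval_X]
    refine (Pol (dsm ρ ρ')).mul_mem h ?_
    rcases q with q | q
    · exact Pol_left ρ ρ' (entry_mem ρ _ _)
    · exact Pol_right ρ ρ' (entry_mem ρ' _ _)

/-- polynomials of the block diagonal matrix as polynomials of the pair -/
theorem exists_val2 (ρ : Γ →* GL (Fin N) ℤ_[p]) (ρ' : Γ →* GL (Fin N') ℤ_[p])
    (P : MvPolynomial (Fin (N + N') × Fin (N + N')) ℚ_[p]) :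
    ∃ Q : MvPolynomial ((Fin N × Fin N) ⊕ (Fin N' × Fin N')) ℚ_[p], ∀ σ,
      MvPolynomial.eval (fun q => rat (dsm ρ ρ') σ q.1 q.2) P = val2 ρ ρ' Q σ := by
  induction P using MvPolynomial.induction_on with
  | C a => exact ⟨MvPolynomial.C a, fun σ => by simp [val2]⟩
  | add P P' h h' =>
    obtain ⟨Q, hQ⟩ := h
    obtain ⟨Q', hQ'⟩ := h'
    refine ⟨Q + Q', fun σ => ?_⟩
    unfold val2 at *
    rw [map_add, map_add, hQ, hQ']
  | mul_X P q h =>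
    obtain ⟨Q, hQ⟩ := h
    obtain ⟨i, j⟩ := q
    obtain ⟨i, rfl⟩ := finSumFinEquiv.surjective i
    obtain ⟨j, rfl⟩ := finSumFinEquiv.surjective j
    have h0 : ∀ σ, rat (dsm ρ ρ') σ (finSumFinEquiv i) (finSumFinEquiv j) =
        (Matrix.fromBlocks (rat ρ σ) 0 0 (rat ρ' σ)) i j := by
      intro σ
      rw [rat_dsm]
      unfold blk
      rw [Matrix.submatrix_apply, Equiv.symm_apply_apply, Equiv.symm_apply_apply]
    rcases i with i | i <;> rcases j with j | j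
    · refine ⟨Q * MvPolynomial.X (Sum.inl (i, j)), fun σ => ?_⟩
      unfold val2 at *
      rw [map_mul, map_mul, hQ, MvPolynomial.eval_X, MvPolynomial.eval_X, h0]
      rfl
    · refine ⟨0, fun σ => ?_⟩
      unfold val2 at *
      rw [map_mul, MvPolynomial.eval_X, h0, map_zero]
      exact mul_zero _
    · refine ⟨0, fun σ => ?_⟩
      unfold val2 at *
      rw [map_mul, MvPolynomial.eval_X, h0, map_zero]
      exact mul_zero _
    · refine ⟨Q * MvPolynomial.X (Sum.inr (i, j)), fun σ => ?_⟩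
      unfold val2 at *
      rw [map_mul, map_mul, hQ, MvPolynomial.eval_X, MvPolynomial.eval_X, h0]
      rfl

end Dsum

section Main

variable {N N' : ℕ} {p : ℕ} [Fact p.Prime] {Γ : Type} [Group Γ] [TopologicalSpace Γ]
  [IsTopologicalGroup Γ]

theorem conn_left (ρ : Γ →* GL (Fin N) ℤ_[p]) (ρ' : Γ →* GL (Fin N') ℤ_[p]) :
    conn (dsm ρ ρ') ≤ conn ρ := by
  apply ConnOn.le
  intro D hD V hV hDV u hu
  exact connOn_conn (dsm ρ ρ') D (Pol_left ρ ρ' hD) V hV hDV u hu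

theorem conn_right (ρ : Γ →* GL (Fin N) ℤ_[p]) (ρ' : Γ →* GL (Fin N') ℤ_[p]) :
    conn (dsm ρ ρ') ≤ conn ρ' := by
  apply ConnOn.le
  intro D hD V hV hDV u hu
  exact connOn_conn (dsm ρ ρ') D (Pol_right ρ ρ' hD) V hV hDV u hu

/-- if the image of an open subgroup lies in an algebra, so does that of `conn ρ` -/
theorem mem_of_open {E : Type} [AddCommGroup E] [Module ℚ_[p] E] [FiniteDimensional ℚ_[p] E]
    {ρ : Γ →* GL (Fin N) ℤ_[p]} {A : Γ →* Module.End ℚ_[p] E} (hA : MC ρ fun σ => A σ)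
    (B : Subalgebra ℚ_[p] (Module.End ℚ_[p] E)) {V : Subgroup Γ} (hV : IsOpen (V : Set Γ))
    (hB : ∀ v ∈ V, A v ∈ B) : ∀ u ∈ conn ρ, A u ∈ B := by
  intro u hu
  by_contra hne
  have h1 : A u ∉ Subalgebra.toSubmodule B := hne
  obtain ⟨f, hf, hf0⟩ := Submodule.exists_le_ker_of_notMem h1
  exact hf (connOn_conn ρ _ (functional_MC hA f) V hV (fun v hv => hf0 (hB v hv)) u hu)

/-- the endomorphism `(x, y) ↦ (0, φ x)` -/
noncomputable def off {E E' : Type} [AddCommGroup E] [Module ℚ_[p] E] [AddCommGroup E']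
    [Module ℚ_[p] E'] (φ : E →ₗ[ℚ_[p]] E') : Module.End ℚ_[p] (E × E') :=
  LinearMap.inr ℚ_[p] E E' ∘ₗ φ ∘ₗ LinearMap.fst ℚ_[p] E E'

theorem off_comm {E E' : Type} [AddCommGroup E] [Module ℚ_[p] E] [AddCommGroup E']
    [Module ℚ_[p] E'] (φ : E →ₗ[ℚ_[p]] E') (A : Γ →* Module.End ℚ_[p] E)
    (A' : Γ →* Module.End ℚ_[p] E') (s : Γ) :
    dprod A A' s ∈ Subalgebra.centralizer ℚ_[p] {off φ} ↔ ∀ x, φ (A s x) = A' s (φ x) := by
  rw [Subalgebra.mem_centralizer_iff]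
  constructor
  · intro h x
    have h1 := LinearMap.congr_fun (h (off φ) rfl) (x, 0)
    have h2 := congrArg Prod.snd h1
    exact h2
  · rintro h _ rfl
    apply LinearMap.ext
    rintro ⟨x, y⟩
    change ((0 : E), φ (A s x)) = (A s 0, A' s (φ x))
    rw [map_zero, h]

variable [CompactSpace Γ] [TotallyDisconnectedSpace Γ] [MeasurableSpace Γ] [BorelSpace Γ]

theorem hom_of_open {E E' : Type} [AddCommGroup E] [Module ℚ_[p] E] [FiniteDimensional ℚ_[p] E]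
    [AddCommGroup E'] [Module ℚ_[p] E'] [FiniteDimensional ℚ_[p] E']
    {ρ : Γ →* GL (Fin N) ℤ_[p]} {A : Γ →* Module.End ℚ_[p] E} {A' : Γ →* Module.End ℚ_[p] E'}
    (hA : MC ρ fun σ => A σ) (hA' : MC ρ fun σ => A' σ) (φ : E →ₗ[ℚ_[p]] E') {V : Subgroup Γ}
    (hV : IsOpen (V : Set Γ)) (h : ∀ v ∈ V, ∀ x, φ (A v x) = A' v (φ x)) :
    ∀ u ∈ conn ρ, ∀ x, φ (A u x) = A' u (φ x) := by
  intro u hu
  rw [← off_comm]
  exact mem_of_open (hA.dprod hA') _ hV (fun v hv => (off_comm φ A A' v).2 (h v hv)) u hu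

theorem hom_main (μ : Measure Γ) [μ.IsHaarMeasure] {ρ : Γ →* GL (Fin N) ℤ_[p]}
    {ρ' : Γ →* GL (Fin N') ℤ_[p]}
    (hρ : Continuous fun σ => (ρ σ : Matrix (Fin N) (Fin N) ℤ_[p]))
    (hρ' : Continuous fun σ => (ρ' σ : Matrix (Fin N') (Fin N') ℤ_[p])) :
    ∀ᵐ σ ∂μ, ∀ᵐ τ ∂μ, ∀ᵐ υ ∂μ, σ ∈ conn (dsm ρ ρ') → τ ∈ conn (dsm ρ ρ') →
      υ ∈ conn (dsm ρ ρ') → ∀ k : ℕ, k ≠ 0 → ∀ S : Set Γ, S ⊆ conn (dsm ρ ρ') →
        σ ^ k ∈ S → τ ^ k ∈ S → υ ^ k ∈ S →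
          (SS (stdr ρ) S ↔ SS (stdr ρ) Set.univ) ∧
          (SS (stdr ρ') S ↔ SS (stdr ρ') Set.univ) ∧
          (SS (stdr ρ) Set.univ → SS (stdr ρ') Set.univ →
            (∀ W : Submodule ℚ_[p] (Fin N → ℚ_[p]), (∀ s ∈ S, ∀ x ∈ W, stdr ρ s x ∈ W) →
              ∀ u ∈ conn (dsm ρ ρ'), ∀ x ∈ W, stdr ρ u x ∈ W) ∧
            (∀ W : Submodule ℚ_[p] (Fin N' → ℚ_[p]), (∀ s ∈ S, ∀ x ∈ W, stdr ρ' s x ∈ W) →
              ∀ u ∈ conn (dsm ρ ρ'), ∀ x ∈ W, stdr ρ' u x ∈ W) ∧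
            ∀ φ : (Fin N → ℚ_[p]) →ₗ[ℚ_[p]] (Fin N' → ℚ_[p]),
              (∀ s ∈ S, ∀ x, φ (stdr ρ s x) = stdr ρ' s (φ x)) →
                ∀ u ∈ conn (dsm ρ ρ'), ∀ x, φ (stdr ρ u x) = stdr ρ' u (φ x)) := by
  -- generation by almost every pair
  have gen : ∀ (E : Type) [AddCommGroup E] [Module ℚ_[p] E] [FiniteDimensional ℚ_[p] E]
      (A : Γ →* Module.End ℚ_[p] E), (MC (dsm ρ ρ') fun σ => A σ) → SS A Set.univ →
      ∀ᵐ σ ∂μ, ∀ᵐ τ ∂μ, ∀ k : ℕ, k ≠ 0 → σ ∈ conn (dsm ρ ρ') → τ ∈ conn (dsm ρ ρ') →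
        ∀ u ∈ conn (dsm ρ ρ'), A u ∈ Algebra.adjoin ℚ_[p] {A (σ ^ k), A (τ ^ k)} := by
    intro E _ _ _ A hA hss
    have h1 : ∀ᵐ σ ∂μ, ∀ k : ℕ, k ≠ 0 → ∀ᵐ τ ∂μ, σ ∈ conn (dsm ρ ρ') →
        τ ∈ conn (dsm ρ ρ') → ∀ u ∈ conn (dsm ρ ρ'),
          A u ∈ Algebra.adjoin ℚ_[p] {A (σ ^ k), A (τ ^ k)} := by
      rw [ae_all_iff]
      intro k
      by_cases hk : k = 0
      · exact Filter.Eventually.of_forall fun σ h => absurd hk h
      filter_upwards [ae_pair_MC μ (continuous_dsm hρ hρ') hA hss hk] with σ hσ _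
      exact hσ
    filter_upwards [h1] with σ h2
    have h3 : ∀ᵐ τ ∂μ, ∀ k : ℕ, k ≠ 0 → σ ∈ conn (dsm ρ ρ') →
        τ ∈ conn (dsm ρ ρ') → ∀ u ∈ conn (dsm ρ ρ'),
          A u ∈ Algebra.adjoin ℚ_[p] {A (σ ^ k), A (τ ^ k)} := by
      rw [ae_all_iff]
      intro k
      by_cases hk : k = 0
      · exact Filter.Eventually.of_forall fun σ h => absurd hk h
      filter_upwards [h2 k hk] with τ hτ _
      exact hτ
    exact h3
  -- stable subspaces and complements from generation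
  have stab : ∀ (E : Type) [AddCommGroup E] [Module ℚ_[p] E] [FiniteDimensional ℚ_[p] E]
      (A : Γ →* Module.End ℚ_[p] E) (σ τ : Γ) (k : ℕ), (∀ u ∈ conn (dsm ρ ρ'),
        A u ∈ Algebra.adjoin ℚ_[p] {A (σ ^ k), A (τ ^ k)}) → ∀ S : Set Γ, σ ^ k ∈ S →
        τ ^ k ∈ S → ∀ W : Submodule ℚ_[p] E, (∀ s ∈ S, ∀ x ∈ W, A s x ∈ W) →
          ∀ u ∈ conn (dsm ρ ρ'), ∀ x ∈ W, A u x ∈ W := by
    intro E _ _ _ A σ τ k hg S s1 s2 W hW u hu
    refine stable_adjoin_end (S := {A (σ ^ k), A (τ ^ k)}) ?_ _ (hg u hu)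
    rintro a (rfl | ha) y hy
    · exact hW _ s1 y hy
    · rw [Set.mem_singleton_iff] at ha
      rw [ha]
      exact hW _ s2 y hy
  have back : ∀ (E : Type) [AddCommGroup E] [Module ℚ_[p] E] [FiniteDimensional ℚ_[p] E]
      (A : Γ →* Module.End ℚ_[p] E), (MC (dsm ρ ρ') fun σ => A σ) →
      ∀ᵐ σ ∂μ, ∀ᵐ τ ∂μ, SS A Set.univ → ∀ k : ℕ, k ≠ 0 → σ ∈ conn (dsm ρ ρ') →
        τ ∈ conn (dsm ρ ρ') → ∀ u ∈ conn (dsm ρ ρ'),
          A u ∈ Algebra.adjoin ℚ_[p] {A (σ ^ k), A (τ ^ k)} := by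
    intro E _ _ _ A hA
    by_cases hss : SS A Set.univ
    · filter_upwards [gen E A hA hss] with σ h1
      filter_upwards [h1] with τ h2 _
      exact h2
    · exact Filter.Eventually.of_forall fun σ => Filter.Eventually.of_forall fun τ h =>
        absurd h hss
  have b1 := back _ (stdr ρ) (MC_left ρ ρ')
  have b2 := back _ (stdr ρ') (MC_right ρ ρ')
  have b3 := back _ (dprod (stdr ρ) (stdr ρ')) ((MC_left ρ ρ').dprod (MC_right ρ ρ'))
  have d1 := detect_all μ hρ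
  have d2 := detect_all μ hρ'
  filter_upwards [b1, b2, b3, d1, d2] with σ b1 b2 b3 d1 d2
  filter_upwards [b1, b2, b3, d1, d2] with τ b1 b2 b3 d1 d2
  filter_upwards [d1, d2] with υ d1 d2 hσ hτ hυ k hk S hS s1 s2 s3
  have hcl := conn_left ρ ρ'
  have hcr := conn_right ρ ρ'
  refine ⟨⟨?_, ?_⟩, ⟨?_, ?_⟩, ?_⟩
  · exact d1 (hcl hσ) (hcl hτ) (hcl hυ) k hk S (hS.trans hcl) s1 s2 s3
  · intro hss W hW
    obtain ⟨W', hW', hc⟩ := (hss.clifford (conn (dsm ρ ρ'))) W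
      (stab _ (stdr ρ) σ τ k (b1 hss k hk hσ hτ) S s1 s2 W hW)
    exact ⟨W', fun s hs => hW' s (hS hs), hc⟩
  · exact d2 (hcr hσ) (hcr hτ) (hcr hυ) k hk S (hS.trans hcr) s1 s2 s3
  · intro hss W hW
    obtain ⟨W', hW', hc⟩ := (hss.clifford (conn (dsm ρ ρ'))) W
      (stab _ (stdr ρ') σ τ k (b2 hss k hk hσ hτ) S s1 s2 W hW)
    exact ⟨W', fun s hs => hW' s (hS hs), hc⟩
  · intro hss hss'
    refine ⟨fun W hW => stab _ (stdr ρ) σ τ k (b1 hss k hk hσ hτ) S s1 s2 W hW,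
      fun W hW => stab _ (stdr ρ') σ τ k (b2 hss' k hk hσ hτ) S s1 s2 W hW, ?_⟩
    intro φ hφ u hu
    rw [← off_comm]
    refine (Algebra.adjoin_le ?_ : Algebra.adjoin ℚ_[p]
      {dprod (stdr ρ) (stdr ρ') (σ ^ k), dprod (stdr ρ) (stdr ρ') (τ ^ k)} ≤ _)
        (b3 (hss.prod hss') k hk hσ hτ u hu)
    rintro a (rfl | ha)
    · exact (off_comm φ _ _ _).2 (hφ _ s1)
    · rw [Set.mem_singleton_iff] at ha
      rw [ha]
      exact (off_comm φ _ _ _).2 (hφ _ s2)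

end Main

end Pool.Agent.H850.RG
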