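import Pool.Agent.H850.RG.Ae
import Pool.Agent.H850.TF.Cheb

/-!
# Closed null sets contain the Frobenius elements of few places
-/

set_option autoImplicit false

namespace Pool.Agent.H850.RG

open NumberField Filter Topology IsDedekindDomain MeasureTheory
open Pool.Agent.W401.Cheb Pool.Agent.W352.ChAbs
open scoped Pointwise ENNReal

section Count

variable {G : Type} [Group G] [TopologicalSpace G] [IsTopologicalGroup G] [MeasurableSpace G]
  [BorelSpace G]

theorem measure_preimage_finset (μ : Measure G) [μ.IsHaarMeasure] (U : Subgroup G)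
    (hU : IsOpen (U : Set G)) (S : Finset (G ⧸ U)) :
    μ ((QuotientGroup.mk : G → G ⧸ U) ⁻¹' (S : Set (G ⧸ U))) = S.card * μ (U : Set G) := by
  classical
  induction S using Finset.induction_on with
  | empty => simp
  | insert a S ha ih =>
    rw [Finset.coe_insert, Set.insert_eq, Set.preimage_union, measure_union, ih,
      Finset.card_insert_of_notMem ha]
    · have h1 : (QuotientGroup.mk : G → G ⧸ U) ⁻¹' {a} = (fun x => a.out⁻¹ * x) ⁻¹' (U : Set G) := by
        ext x
        simp only [Set.mem_preimage, Set.mem_singleton_iff, SetLike.mem_coe]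
        rw [← QuotientGroup.eq, QuotientGroup.out_eq']
        exact eq_comm
      rw [h1, measure_preimage_mul]
      push_cast
      ring
    · rw [Set.disjoint_left]
      intro x hx hx'
      simp only [Set.mem_preimage, Set.mem_singleton_iff] at hx
      rw [Set.mem_preimage, hx] at hx'
      exact ha hx'
    · have h1 : (QuotientGroup.mk : G → G ⧸ U) ⁻¹' (S : Set (G ⧸ U)) =
          ⋃ a ∈ S, (fun x => a.out⁻¹ * x) ⁻¹' (U : Set G) := by
        ext x
        simp only [Set.mem_preimage, Set.mem_iUnion, SetLike.mem_coe]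
        constructor
        · intro h
          refine ⟨_, h, ?_⟩
          rw [← QuotientGroup.eq, QuotientGroup.out_eq']
        · rintro ⟨a, ha, h⟩
          rw [← QuotientGroup.eq, QuotientGroup.out_eq'] at h
          rwa [← h]
      rw [h1]
      refine MeasurableSet.biUnion S.countable_toSet fun a _ => ?_
      exact (hU.preimage (continuous_const.mul continuous_id)).measurableSet

theorem ratio_eq [CompactSpace G] (μ : Measure G) [μ.IsHaarMeasure] (U : Subgroup G)
    (hU : IsOpen (U : Set G)) (C : Set G) (hC : ∀ σ ∈ C, ∀ u ∈ U, σ * u ∈ C) :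
    (((QuotientGroup.mk : G → G ⧸ U) '' C).ncard : ℝ) / (Nat.card (G ⧸ U) : ℝ) =
      (μ C).toReal / (μ Set.univ).toReal := by
  classical
  have hfin : Finite (G ⧸ U) := Subgroup.quotient_finite_of_isOpen U hU
  have : Fintype (G ⧸ U) := Fintype.ofFinite _
  set S : Finset (G ⧸ U) := ((QuotientGroup.mk : G → G ⧸ U) '' C).toFinset with hS
  have hSC : (S : Set (G ⧸ U)) = (QuotientGroup.mk : G → G ⧸ U) '' C := by
    rw [hS, Set.coe_toFinset]
  have h1 : C = (QuotientGroup.mk : G → G ⧸ U) ⁻¹' (S : Set (G ⧸ U)) := by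
    rw [hSC]
    ext x
    constructor
    · intro hx
      exact ⟨x, hx, rfl⟩
    · rintro ⟨y, hy, hyx⟩
      rw [QuotientGroup.eq] at hyx
      have := hC y hy _ hyx
      rwa [mul_inv_cancel_left] at this
  have h2 : μ C = S.card * μ (U : Set G) := by
    conv_lhs => rw [h1]
    exact measure_preimage_finset μ U hU S
  have h3 : μ Set.univ = (Finset.univ : Finset (G ⧸ U)).card * μ (U : Set G) := by
    rw [← measure_preimage_finset μ U hU]
    simp
  have hm0 : μ (U : Set G) ≠ 0 := (hU.measure_pos μ ⟨1, U.one_mem⟩).ne'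
  have hmt : μ (U : Set G) ≠ ⊤ := measure_ne_top μ _
  have hm : 0 < (μ (U : Set G)).toReal := ENNReal.toReal_pos hm0 hmt
  rw [h2, h3, ENNReal.toReal_mul, ENNReal.toReal_mul, ← hSC, Set.ncard_coe_finset,
    Nat.card_eq_fintype_card, ← Finset.card_univ]
  simp only [ENNReal.toReal_natCast]
  rw [mul_div_mul_right _ _ hm.ne']

end Count

variable {K : Type} [Field K] [NumberField K]

theorem dens_mono {P Q : HeightOneSpectrum (𝓞 K) → Prop} (h : ∀ v, P v → Q v) (N : ℕ) :
    dens P N ≤ dens Q N := by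
  unfold dens
  have hfin : Finite {v : HeightOneSpectrum (𝓞 K) // Ideal.absNorm v.asIdeal ≤ N ∧ Q v} :=
    ((finite_le (K := K) N).subset fun v hv => hv.1).to_subtype
  have h1 : Nat.card {v : HeightOneSpectrum (𝓞 K) // Ideal.absNorm v.asIdeal ≤ N ∧ P v} ≤
      Nat.card {v : HeightOneSpectrum (𝓞 K) // Ideal.absNorm v.asIdeal ≤ N ∧ Q v} := by
    refine Nat.card_le_card_of_injective (fun v => ⟨v.1, v.2.1, h _ v.2.2⟩) ?_
    intro a b hab
    exact Subtype.ext (congrArg (fun x => x.1) hab)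
  have h2 : (Nat.card {v : HeightOneSpectrum (𝓞 K) // Ideal.absNorm v.asIdeal ≤ N ∧ P v} : ℝ) ≤
      Nat.card {v : HeightOneSpectrum (𝓞 K) // Ideal.absNorm v.asIdeal ≤ N ∧ Q v} := by
    exact_mod_cast h1
  gcongr

theorem dens_nonneg (P : HeightOneSpectrum (𝓞 K) → Prop) (N : ℕ) : 0 ≤ dens P N := by
  unfold dens
  positivity

/-- Frobenius elements exist -/
theorem exists_isFrob (v : HeightOneSpectrum (𝓞 K)) : ∃ σ : GK K, IsFrob v σ := by
  haveI : v.asIdeal.IsMaximal := v.isMaximal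
  have hint : Algebra.IsIntegral (𝓞 K) (𝓞 (AlgebraicClosure K)) := by
    refine ⟨fun x => ?_⟩
    have h1 : IsIntegral ℤ x := RingOfIntegers.isIntegral x
    exact h1.tower_top
  obtain ⟨Q, hQ, hQv⟩ := Ideal.exists_ideal_over_maximal_of_isIntegral
    (S := 𝓞 (AlgebraicClosure K)) v.asIdeal (by
      rw [(RingHom.injective_iff_ker_eq_bot _).1
        (FaithfulSMul.algebraMap_injective (𝓞 K) (𝓞 (AlgebraicClosure K)))]
      exact bot_le)
  obtain ⟨σ, hσ⟩ := exists_frob v Q hQv
  exact ⟨σ, Q, hQ, hQv, hσ⟩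

/-- **Closed null sets.** The places all of whose Frobenius elements lie in a closed null set have
density zero. -/
theorem dens_null [MeasurableSpace (GK K)] [BorelSpace (GK K)] (μ : Measure (GK K))
    [μ.IsHaarMeasure] [μ.OuterRegular] {B : Set (GK K)} (hB : IsClosed B) (hB0 : μ B = 0) :
    Tendsto (dens fun v : HeightOneSpectrum (𝓞 K) => ∀ σ, IsFrob v σ → σ ∈ B) atTop (𝓝 0) := by
  -- the conjugation invariant part
  set B' : Set (GK K) := ⋂ τ : GK K, (fun σ => τ * σ * τ⁻¹) ⁻¹' B with hB'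
  have hmem : ∀ σ, σ ∈ B' ↔ ∀ τ : GK K, τ * σ * τ⁻¹ ∈ B := by
    intro σ
    simp only [hB', Set.mem_iInter, Set.mem_preimage]
  have hB'c : IsClosed B' := isClosed_iInter fun τ =>
    hB.preimage ((continuous_const.mul continuous_id).mul continuous_const)
  have hB'0 : μ B' = 0 := by
    refine measure_mono_null (fun σ hσ => ?_) hB0
    have := (hmem σ).1 hσ 1
    simpa using this
  have hconj : ∀ σ ∈ B', ∀ τ : GK K, τ * σ * τ⁻¹ ∈ B' := by
    intro σ hσ τ
    rw [hmem] at hσ ⊢
    intro τ'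
    have := hσ (τ' * τ)
    have h1 : τ' * τ * σ * (τ' * τ)⁻¹ = τ' * (τ * σ * τ⁻¹) * τ'⁻¹ := by group
    rwa [h1] at this
  have huniv : 0 < (μ Set.univ).toReal := by
    apply ENNReal.toReal_pos
    · exact (isOpen_univ.measure_pos μ ⟨1, trivial⟩).ne'
    · exact measure_ne_top μ _
  rw [Metric.tendsto_atTop]
  intro ε hε
  set δ : ℝ := ε / 2 * (μ Set.univ).toReal with hδ
  have hδ0 : 0 < δ := by positivity
  obtain ⟨O, hO, hOo, hOδ⟩ := B'.exists_isOpen_lt_of_lt (μ := μ) (ENNReal.ofReal δ) (by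
    rw [hB'0]
    exact ENNReal.ofReal_pos.2 hδ0)
  obtain ⟨V, hV, hVO⟩ := compact_open_separated_mul_right hB'c.isCompact hOo hO
  obtain ⟨E, hE, hEn, hEV⟩ := (krullTopology_mem_nhds_one_iff_of_normal K (AlgebraicClosure K) V).1
    hV
  set U : Subgroup (GK K) := E.fixingSubgroup with hU
  have hUo : IsOpen (U : Set (GK K)) := E.fixingSubgroup_isOpen
  have hUn : U.Normal := by
    rw [hU]
    exact (InfiniteGalois.normal_iff_isGalois E).2 ⟨⟩
  set C : Set (GK K) := B' * (U : Set (GK K)) with hC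
  have hC1 : ∀ σ ∈ C, ∀ τ : GK K, τ * σ * τ⁻¹ ∈ C := by
    rintro _ ⟨b, hb, u, hu, rfl⟩ τ
    refine ⟨τ * b * τ⁻¹, hconj b hb τ, τ * u * τ⁻¹, hUn.conj_mem u hu τ, ?_⟩
    simp only
    group
  have hC2 : ∀ σ ∈ C, ∀ u ∈ U, σ * u ∈ C := by
    rintro _ ⟨b, hb, u, hu, rfl⟩ u' hu'
    exact ⟨b, hb, u * u', U.mul_mem hu hu', (mul_assoc _ _ _).symm⟩
  have hlim := chebK K U hUo C hC1 hC2
  rw [ratio_eq μ U hUo C hC2] at hlim
  have hCO : C ⊆ O := (Set.mul_subset_mul_left hEV).trans hVO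
  have hCm : (μ C).toReal / (μ Set.univ).toReal < ε := by
    have h1 : (μ C).toReal < δ := by
      have h2 : μ C < ENNReal.ofReal δ := lt_of_le_of_lt (measure_mono hCO) hOδ
      exact (ENNReal.lt_ofReal_iff_toReal_lt (measure_ne_top μ _)).1 h2
    rw [div_lt_iff₀ huniv]
    have h3 : δ < ε * (μ Set.univ).toReal := by
      rw [hδ]
      nlinarith [mul_pos hε huniv]
    exact h1.trans h3
  have hev := (tendsto_order.1 hlim).2 ε hCm
  obtain ⟨N₀, hN₀⟩ := eventually_atTop.1 hev
  refine ⟨N₀, fun N hN => ?_⟩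
  rw [Real.dist_eq, sub_zero, abs_of_nonneg (dens_nonneg _ N)]
  refine lt_of_le_of_lt (dens_mono (fun v hv => ?_) N) (hN₀ N hN)
  obtain ⟨σ, hσ⟩ := exists_isFrob v
  refine ⟨σ, ⟨σ, ?_, 1, U.one_mem, mul_one σ⟩, hσ⟩
  rw [hmem]
  intro τ
  exact hv _ (Pool.Agent.H850.TF.isFrob_conj hσ τ)

end Pool.Agent.H850.RG
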