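import Pool.Agent.H850.RG.Strass
import Pool.Agent.H850.TF.Open

/-!
# Matrix coefficients of a `p`-adic representation
-/

set_option autoImplicit false
set_option linter.unusedSectionVars false

namespace Pool.Agent.H850.RG

open Pool.Agent.H850.TF

variable {N : ℕ} {p : ℕ} [Fact p.Prime] {Γ : Type} [Group Γ]

/-- the algebra of the polynomial functions of the matrix entries of `ρ` and `ρ⁻¹` -/
noncomputable def Pol (ρ : Γ →* GL (Fin N) ℤ_[p]) : Subalgebra ℚ_[p] (Γ → ℚ_[p]) :=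
  Algebra.adjoin ℚ_[p] ({f | ∃ i j, f = fun σ => rat ρ σ i j} ∪
    {f | ∃ i j, f = fun σ => rat ρ σ⁻¹ i j})

theorem entry_mem (ρ : Γ →* GL (Fin N) ℤ_[p]) (i j : Fin N) :
    (fun σ => rat ρ σ i j) ∈ Pol ρ := Algebra.subset_adjoin (Or.inl ⟨i, j, rfl⟩)

theorem entry_inv_mem (ρ : Γ →* GL (Fin N) ℤ_[p]) (i j : Fin N) :
    (fun σ => rat ρ σ⁻¹ i j) ∈ Pol ρ := Algebra.subset_adjoin (Or.inr ⟨i, j, rfl⟩)

theorem const_mem (ρ : Γ →* GL (Fin N) ℤ_[p]) (a : ℚ_[p]) : (fun _ => a) ∈ Pol ρ :=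
  (Pol ρ).algebraMap_mem a

theorem inv_mem (ρ : Γ →* GL (Fin N) ℤ_[p]) {D : Γ → ℚ_[p]} (hD : D ∈ Pol ρ) :
    (fun σ => D σ⁻¹) ∈ Pol ρ := by
  induction hD using Algebra.adjoin_induction with
  | mem D hD =>
    rcases hD with ⟨i, j, rfl⟩ | ⟨i, j, rfl⟩
    · exact entry_inv_mem ρ i j
    · simp only [inv_inv]
      exact entry_mem ρ i j
  | algebraMap r => exact const_mem ρ r
  | add D D' _ _ h h' => exact (Pol ρ).add_mem h h'
  | mul D D' _ _ h h' => exact (Pol ρ).mul_mem h h'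

theorem continuous_of_mem [TopologicalSpace Γ] [IsTopologicalGroup Γ]
    (ρ : Γ →* GL (Fin N) ℤ_[p])
    (hρ : Continuous fun σ => (ρ σ : Matrix (Fin N) (Fin N) ℤ_[p])) {D : Γ → ℚ_[p]}
    (hD : D ∈ Pol ρ) : Continuous D := by
  have hcr : Continuous fun σ : Γ => rat ρ σ := continuous_toQ.comp hρ
  induction hD using Algebra.adjoin_induction with
  | mem D hD =>
    rcases hD with ⟨i, j, rfl⟩ | ⟨i, j, rfl⟩
    · exact hcr.matrix_elem i j
    · exact (hcr.comp continuous_inv).matrix_elem i j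
  | algebraMap r => exact continuous_const
  | add D D' _ _ h h' => exact h.add h'
  | mul D D' _ _ h h' => exact h.mul h'

/-- powers of a small matrix -/
theorem an_pow (h a : Matrix (Fin N) (Fin N) ℤ_[p]) (ha : h = 1 + (p : ℤ_[p]) ^ 2 • a)
    (i j : Fin N) : An (fun k => toQ (h ^ k) i j) := by
  refine ⟨1, fun l m => ?_⟩
  have h1 : ∀ l, (fwdDiff 1)^[l] (fun k => toQ (h ^ k) i j) =
      fun m => toQ (h ^ m * (h - 1) ^ l) i j := by
    intro l
    induction l with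
    | zero =>
      funext m
      simp
    | succ l ih =>
      rw [Function.iterate_succ_apply', ih]
      funext m
      simp only [fwdDiff]
      rw [← Matrix.sub_apply, ← map_sub]
      rw [pow_succ h m, ← sub_mul]
      have h2 : h ^ m * h - h ^ m = h ^ m * (h - 1) := by rw [mul_sub, mul_one]
      rw [h2, mul_assoc, ← pow_succ']
  rw [h1]
  have h2 : h ^ m * (h - 1) ^ l = ((p : ℤ_[p]) ^ 2) ^ l • (h ^ m * a ^ l) := by
    rw [ha, add_sub_cancel_left, smul_pow, mul_smul_comm]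
  have h3 : toQ (h ^ m * (h - 1) ^ l) i j =
      ((((p : ℤ_[p]) ^ 2) ^ l * (h ^ m * a ^ l) i j : ℤ_[p]) : ℚ_[p]) := by
    rw [h2, toQ_apply, Matrix.smul_apply, smul_eq_mul]
    rfl
  simp only [h3]
  rw [← PadicInt.norm_def, norm_mul, norm_pow, norm_pow, PadicInt.norm_p, one_mul, ← pow_mul]
  calc ((p : ℝ)⁻¹) ^ (2 * l) * ‖(h ^ m * a ^ l) i j‖ ≤ ((p : ℝ)⁻¹) ^ (2 * l) * 1 := by
        gcongr
        exact PadicInt.norm_le_one _
    _ = _ := mul_one _

theorem an_rat_pow (ρ : Γ →* GL (Fin N) ℤ_[p]) {g : Γ} (hg : g ∈ U1 ρ) (i j : Fin N) :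
    An (fun k => rat ρ (g ^ k) i j) := by
  obtain ⟨a, ha⟩ := hg
  have h1 := an_pow _ a ha i j
  have h2 : (fun k => rat ρ (g ^ k) i j) =
      fun k => toQ ((ρ g : Matrix (Fin N) (Fin N) ℤ_[p]) ^ k) i j := by
    funext k
    rw [rat_apply, map_pow, Units.val_pow_eq_pow_val]
  rw [h2]
  exact h1

theorem An.sum {ι : Type*} (s : Finset ι) {G : ι → ℕ → ℚ_[p]} (h : ∀ i ∈ s, An (G i)) :
    An (fun k => ∑ i ∈ s, G i k) := by
  classical
  induction s using Finset.induction_on with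
  | empty => simpa using An.const (0 : ℚ_[p])
  | insert a s ha ih =>
    have h1 := (h a (Finset.mem_insert_self _ _)).add
      (ih fun i hi => h i (Finset.mem_insert_of_mem hi))
    convert h1 using 1
    funext k
    rw [Finset.sum_insert ha]
    rfl

/-- matrix coefficients are analytic along the powers of a small element -/
theorem an_of_mem (ρ : Γ →* GL (Fin N) ℤ_[p]) {D : Γ → ℚ_[p]} (hD : D ∈ Pol ρ) {g : Γ}
    (hg : g ∈ U1 ρ) (σ : Γ) : An (fun k : ℕ => D (g ^ k * σ)) := by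
  induction hD using Algebra.adjoin_induction with
  | mem D hD =>
    rcases hD with ⟨i, j, rfl⟩ | ⟨i, j, rfl⟩
    · have h1 : (fun k : ℕ => rat ρ (g ^ k * σ) i j) =
          fun k => ∑ l, rat ρ (g ^ k) i l * rat ρ σ l j := by
        funext k
        rw [map_mul, Matrix.mul_apply]
      rw [h1]
      exact An.sum _ fun l _ => (an_rat_pow ρ hg i l).mul (An.const _)
    · have h1 : (fun k : ℕ => rat ρ (g ^ k * σ)⁻¹ i j) =
          fun k => ∑ l, rat ρ σ⁻¹ i l * rat ρ (g⁻¹ ^ k) l j := by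
        funext k
        rw [mul_inv_rev, map_mul, Matrix.mul_apply, inv_pow]
      rw [h1]
      exact An.sum _ fun l _ => (An.const _).mul (an_rat_pow ρ ((U1 ρ).inv_mem hg) l j)
  | algebraMap r => exact An.const r
  | add D D' _ _ h h' => exact h.add h'
  | mul D D' _ _ h h' => exact h.mul h'

end Pool.Agent.H850.RG
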