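import Pool.Agent.H850.RG.Gen

/-!
# The conjugation representation of a semisimple representation
-/

set_option autoImplicit false
set_option linter.unusedSectionVars false

namespace Pool.Agent.H850.RG

open Pool.Agent.H850.TF MeasureTheory Topology

section Mat

variable {N : ℕ} {p : ℕ} [Fact p.Prime] {Γ : Type} [Group Γ] {m : ℕ}

/-- the conjugation representation on matrices -/
noncomputable def cjA (A : Γ →* Matrix (Fin m) (Fin m) ℚ_[p]) :
    Γ →* Module.End ℚ_[p] (Matrix (Fin m) (Fin m) ℚ_[p]) where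
  toFun σ := LinearMap.mulLeft ℚ_[p] (A σ) ∘ₗ LinearMap.mulRight ℚ_[p] (A σ⁻¹)
  map_one' := by
    apply LinearMap.ext
    intro X
    simp
  map_mul' := by
    intro σ τ
    apply LinearMap.ext
    intro X
    simp [mul_assoc]

variable (A : Γ →* Matrix (Fin m) (Fin m) ℚ_[p])

theorem cjA_apply (σ : Γ) (X : Matrix (Fin m) (Fin m) ℚ_[p]) :
    cjA A σ X = A σ * X * A σ⁻¹ := by
  simp [cjA, mul_assoc]

theorem A_mul_inv (σ : Γ) : A σ * A σ⁻¹ = 1 := by
  rw [← map_mul, mul_inv_cancel, map_one]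

theorem A_inv_mul (σ : Γ) : A σ⁻¹ * A σ = 1 := by
  rw [← map_mul, inv_mul_cancel, map_one]

theorem cjA_eq_iff (σ : Γ) (X : Matrix (Fin m) (Fin m) ℚ_[p]) :
    cjA A σ X = X ↔ Commute (A σ) X := by
  rw [cjA_apply]
  constructor
  · intro h
    have h1 := congrArg (· * A σ) h
    simp only [mul_assoc, A_inv_mul, mul_one] at h1
    exact h1
  · intro h
    rw [h.eq, mul_assoc, A_mul_inv, mul_one]

theorem mem_Fix_cjA {S : Set Γ} {X : Matrix (Fin m) (Fin m) ℚ_[p]} :
    X ∈ Fix (cjA A) S ↔ X ∈ Cm (A '' S) := by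
  rw [mem_Cm]
  constructor
  · rintro h _ ⟨s, hs, rfl⟩
    exact (cjA_eq_iff A s X).1 (h s hs)
  · intro h s hs
    exact (cjA_eq_iff A s X).2 (h _ ⟨s, hs, rfl⟩)

theorem rep_cjA {ρ : Γ →* GL (Fin N) ℤ_[p]} (hA : ∀ i j, (fun σ => A σ i j) ∈ Pol ρ)
    (h : CR (Set.range A)) : Rep ρ (cjA A) := by
  classical
  have hcoef : MC ρ fun σ => cjA A σ := by
    intro l X
    have h1 : (fun σ => l (cjA A σ X)) = ∑ i, ∑ j, ∑ k, ∑ q,
        (fun _ : Γ => l (Matrix.single i j 1) * X k q) *
          ((fun σ => A σ i k) * fun σ => A σ⁻¹ q j) := by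
      funext σ
      simp only [Finset.sum_apply, Pi.mul_apply]
      rw [cjA_apply]
      conv_lhs => rw [Matrix.matrix_eq_sum_single (A σ * X * A σ⁻¹)]
      rw [map_sum]
      refine Finset.sum_congr rfl fun i _ => ?_
      rw [map_sum]
      refine Finset.sum_congr rfl fun j _ => ?_
      have h2 : Matrix.single i j ((A σ * X * A σ⁻¹) i j) =
          (A σ * X * A σ⁻¹) i j • Matrix.single i j (1 : ℚ_[p]) := by
        rw [Matrix.smul_single, smul_eq_mul, mul_one]
      rw [h2, map_smul, smul_eq_mul, Matrix.mul_apply, Finset.sum_mul, Finset.sum_comm]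
      refine Finset.sum_congr rfl fun m _ => ?_
      rw [Matrix.mul_apply, Finset.sum_mul, Finset.sum_mul]
      refine Finset.sum_congr rfl fun k _ => ?_
      ring
    rw [h1]
    refine Subalgebra.sum_mem _ fun i _ => Subalgebra.sum_mem _ fun j _ =>
      Subalgebra.sum_mem _ fun k _ => Subalgebra.sum_mem _ fun m _ => ?_
    exact (Pol ρ).mul_mem (const_mem ρ _) ((Pol ρ).mul_mem (hA _ _) (inv_mem ρ (hA _ _)))
  refine ⟨hcoef, ?_, fun u hu n hn x hx => pow_of_MC hcoef hu hn hx⟩
  intro H hH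
  have hCR : CR (A '' (H : Set Γ)) := clifford A H h
  have horth : (tf m p).orthogonal (Mov (cjA A) (H : Set Γ)) =
      Fix (cjA A) (H : Set Γ) := by
    ext Y
    rw [LinearMap.BilinForm.mem_orthogonal_iff]
    constructor
    · intro hY s hs
      have h1 : ∀ X, (X * (A s⁻¹ * Y * A s)).trace = (X * Y).trace := by
        intro X
        have h2 := hY (cjA A s X - X) (Submodule.subset_span ⟨s, hs, X, rfl⟩)
        rw [tf_apply, sub_mul, Matrix.trace_sub, cjA_apply, sub_eq_zero] at h2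
        rw [← h2]
        rw [← mul_assoc, Matrix.trace_mul_comm]
        congr 1
        simp only [mul_assoc]
      have h2 : A s⁻¹ * Y * A s = Y := by
        rw [Matrix.ext_iff_trace_mul_left]
        exact h1
      rw [cjA_apply]
      conv_lhs => rw [← h2]
      rw [mul_assoc, mul_assoc, mul_assoc, A_mul_inv, mul_one, ← mul_assoc, A_mul_inv, one_mul]
    · intro hY Z hZ
      induction hZ using Submodule.span_induction with
      | mem Z hZ =>
        obtain ⟨s, hs, X, rfl⟩ := hZ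
        have h1 : Commute (A s) Y := (cjA_eq_iff A s Y).1 (hY s hs)
        rw [tf_apply, sub_mul, Matrix.trace_sub, cjA_apply, sub_eq_zero, mul_assoc (A s * X),
          mul_assoc (A s), Matrix.trace_mul_comm]
        congr 1
        have h2 : Commute (A s⁻¹) Y := (cjA_eq_iff A s⁻¹ Y).1 (hY s⁻¹ (H.inv_mem hs))
        rw [h2.eq, mul_assoc, mul_assoc, A_inv_mul, mul_one]
      | zero => rw [map_zero]; rfl
      | add a b _ _ ha hb =>
        rw [map_add, LinearMap.add_apply, ha, hb, add_zero]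
      | smul c a _ ha =>
        rw [map_smul, LinearMap.smul_apply, ha, smul_zero]
  have horth2 : (tf m p).orthogonal (Fix (cjA A) (H : Set Γ)) =
      Mov (cjA A) (H : Set Γ) := by
    rw [← horth]
    exact LinearMap.BilinForm.orthogonal_orthogonal tf_nondeg tf_refl _
  have hdis : Disjoint (Fix (cjA A) (H : Set Γ))
      ((tf m p).orthogonal (Fix (cjA A) (H : Set Γ))) := by
    rw [Submodule.disjoint_def]
    intro X hX hX'
    apply nondeg_Cm hCR X ((mem_Fix_cjA A).1 hX)
    intro Y hY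
    rw [LinearMap.BilinForm.mem_orthogonal_iff] at hX'
    have h1 := hX' Y ((mem_Fix_cjA A).2 hY)
    rw [tf_apply] at h1
    rw [Matrix.trace_mul_comm]
    exact h1
  have h1 := LinearMap.BilinForm.isCompl_orthogonal_of_restrict_nondegenerate tf_refl
    (LinearMap.BilinForm.nondegenerate_restrict_of_disjoint_orthogonal (tf m p) tf_refl hdis)
  rwa [horth2] at h1

end Mat

section End

variable {N : ℕ} {p : ℕ} [Fact p.Prime] {Γ : Type} [Group Γ]
variable {X : Type} [AddCommGroup X] [Module ℚ_[p] X]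

/-- the conjugation representation on endomorphisms -/
noncomputable def cjr (r : Γ →* Module.End ℚ_[p] X) :
    Γ →* Module.End ℚ_[p] (Module.End ℚ_[p] X) where
  toFun σ := LinearMap.mulLeft ℚ_[p] (r σ) ∘ₗ LinearMap.mulRight ℚ_[p] (r σ⁻¹)
  map_one' := by
    apply LinearMap.ext
    intro Z
    simp
  map_mul' := by
    intro σ τ
    apply LinearMap.ext
    intro Z
    simp [mul_assoc]

variable (r : Γ →* Module.End ℚ_[p] X)

theorem cjr_apply (σ : Γ) (Z : Module.End ℚ_[p] X) : cjr r σ Z = r σ * Z * r σ⁻¹ := by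
  simp [cjr, mul_assoc]

theorem r_mul_inv (σ : Γ) : r σ * r σ⁻¹ = 1 := by
  rw [← map_mul, mul_inv_cancel, map_one]

theorem r_inv_mul (σ : Γ) : r σ⁻¹ * r σ = 1 := by
  rw [← map_mul, inv_mul_cancel, map_one]

theorem cjr_eq_iff (σ : Γ) (Z : Module.End ℚ_[p] X) : cjr r σ Z = Z ↔ Commute (r σ) Z := by
  rw [cjr_apply]
  constructor
  · intro h
    have h1 := congrArg (· * r σ) h
    simp only [mul_assoc, r_inv_mul, mul_one] at h1
    exact h1
  · intro h
    rw [h.eq, mul_assoc, r_mul_inv, mul_one]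

variable [FiniteDimensional ℚ_[p] X]

theorem rep_cjr {ρ : Γ →* GL (Fin N) ℤ_[p]} (hr : MC ρ fun σ => r σ) (h : SS r Set.univ) :
    Rep ρ (cjr r) := by
  classical
  let e := crd ℚ_[p] X
  have hA : ∀ i j, (fun σ => mat e r σ i j) ∈ Pol ρ := by
    intro i j
    have h1 : (fun σ => mat e r σ i j) =
        fun σ => (LinearMap.proj i ∘ₗ e.toLinearMap) (r σ (e.symm (Pi.single j 1))) := by
      funext σ
      change LinearMap.toMatrix' (e.toLinearMap ∘ₗ r σ ∘ₗ e.symm.toLinearMap) i j = _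
      rw [LinearMap.toMatrix'_apply]
      rfl
    rw [h1]
    exact hr _ _
  have hCR : CR (Set.range (mat e r)) := by
    rw [← Set.image_univ, CR_mat]
    exact h
  have hmat := rep_cjA (mat e r) hA hCR
  let f : Module.End ℚ_[p] X ≃ₗ[ℚ_[p]]
      Matrix (Fin (Module.finrank ℚ_[p] X)) (Fin (Module.finrank ℚ_[p] X)) ℚ_[p] :=
    (LinearEquiv.conj e).trans LinearMap.toMatrix'
  refine Rep.transport f ?_ hmat
  intro σ Z
  rw [cjr_apply, cjA_apply]
  change LinearMap.toMatrix' (e.conj (r σ * Z * r σ⁻¹)) =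
    LinearMap.toMatrix' (e.toLinearMap ∘ₗ r σ ∘ₗ e.symm.toLinearMap) *
      LinearMap.toMatrix' (e.conj Z) *
      LinearMap.toMatrix' (e.toLinearMap ∘ₗ r σ⁻¹ ∘ₗ e.symm.toLinearMap)
  rw [← LinearMap.toMatrix'_comp, ← LinearMap.toMatrix'_comp]
  congr 1
  apply LinearMap.ext
  intro x
  simp [LinearEquiv.conj_apply]

end End

end Pool.Agent.H850.RG
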