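import Pool.Agent.H850.RG.Lat
import Pool.Agent.H850.RG.Aug

/-!
# Three random elements detect semisimplicity
-/

set_option autoImplicit false
set_option linter.unusedSectionVars false

namespace Pool.Agent.H850.RG

open Pool.Agent.H850.TF MeasureTheory Topology Module

section Lattice

variable {N : ℕ} {p : ℕ} [Fact p.Prime] {Γ : Type} [Group Γ] [TopologicalSpace Γ]
variable {E : Type} [AddCommGroup E] [Module ℚ_[p] E] [FiniteDimensional ℚ_[p] E]

theorem exists_lattice_MC [IsTopologicalGroup Γ] [CompactSpace Γ]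
    {ρ : Γ →* GL (Fin N) ℤ_[p]}
    (hρ : Continuous fun σ => (ρ σ : Matrix (Fin N) (Fin N) ℤ_[p]))
    {A : Γ →* Module.End ℚ_[p] E} (hA : MC ρ fun σ => A σ) :
    ∃ (r : ℕ) (e : E ≃ₗ[ℚ_[p]] (Fin r → ℚ_[p])) (ρ' : Γ →* GL (Fin r) ℤ_[p]),
      (Continuous fun σ => (ρ' σ : Matrix (Fin r) (Fin r) ℤ_[p])) ∧
      (∀ σ x, e (A σ x) = (rat ρ' σ).mulVec (e x)) ∧
      (∀ D ∈ Pol ρ', D ∈ Pol ρ) := by
  classical
  set B := mat (crd ℚ_[p] E) A with hB
  have hent : ∀ i j, (fun σ => B σ i j) ∈ Pol ρ := by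
    intro i j
    have h1 : (fun σ => B σ i j) = fun σ =>
        ((LinearMap.proj i : (Fin _ → ℚ_[p]) →ₗ[ℚ_[p]] ℚ_[p]) ∘ₗ
          (crd ℚ_[p] E).toLinearMap) (A σ ((crd ℚ_[p] E).symm (Pi.single j 1))) := by
      funext σ
      have h2 : B σ i j = (B σ).mulVec (Pi.single j 1) i := by
        rw [Matrix.mulVec_single_one, Matrix.col_apply]
      have h3 : (Pi.single j 1 : Fin _ → ℚ_[p]) =
          crd ℚ_[p] E ((crd ℚ_[p] E).symm (Pi.single j 1)) := by simp
      rw [h2]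
      conv_lhs => rw [h3]
      rw [hB, mat_mulVec]
      rfl
    rw [h1]
    exact hA _ _
  obtain ⟨r, e, ρ', he⟩ := exists_lattice B fun i j => continuous_of_mem ρ hρ (hent i j)
  have he' : ∀ σ x, (e ((crd ℚ_[p] E) (A σ x))) = (rat ρ' σ).mulVec (e (crd ℚ_[p] E x)) := by
    intro σ x
    rw [← he, hB, mat_mulVec]
  have hrat : ∀ i j, (fun σ => rat ρ' σ i j) ∈ Pol ρ := by
    intro i j
    have h1 : (fun σ => rat ρ' σ i j) = fun σ =>
        ((LinearMap.proj i : (Fin r → ℚ_[p]) →ₗ[ℚ_[p]] ℚ_[p]) ∘ₗ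
          ((crd ℚ_[p] E).trans e).toLinearMap)
            (A σ (((crd ℚ_[p] E).trans e).symm (Pi.single j 1))) := by
      funext σ
      have h2 : rat ρ' σ i j = (rat ρ' σ).mulVec (Pi.single j 1) i := by
        rw [Matrix.mulVec_single_one, Matrix.col_apply]
      have h3 : (Pi.single j 1 : Fin r → ℚ_[p]) =
          e (crd ℚ_[p] E (((crd ℚ_[p] E).trans e).symm (Pi.single j 1))) := by
        have := ((crd ℚ_[p] E).trans e).apply_symm_apply (Pi.single j 1)
        exact this.symm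
      rw [h2]
      conv_lhs => rw [h3]
      rw [← he']
      rfl
    rw [h1]
    exact hA _ _
  refine ⟨r, (crd ℚ_[p] E).trans e, ρ', ?_, he', ?_⟩
  · refine continuous_matrix fun i j => ?_
    have h1 := continuous_of_mem ρ hρ (hrat i j)
    exact Continuous.subtype_mk h1 fun σ => (ρ' σ i j).2
  · intro D hD
    unfold Pol at hD
    refine (Algebra.adjoin_le ?_ : Algebra.adjoin _ _ ≤ Pol ρ) hD
    rintro f (⟨i, j, rfl⟩ | ⟨i, j, rfl⟩)
    · exact hrat i j
    · exact inv_mem ρ (hrat i j)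

end Lattice


section Adj

variable {N : ℕ} {p : ℕ} [Fact p.Prime] {Γ : Type} [Group Γ]
variable {E : Type} [AddCommGroup E] [Module ℚ_[p] E] [FiniteDimensional ℚ_[p] E]

/-- transport of membership in the generated algebra -/
theorem adjoin_transport {r : ℕ} (e : E ≃ₗ[ℚ_[p]] (Fin r → ℚ_[p]))
    {A : Γ →* Module.End ℚ_[p] E} {ρ' : Γ →* GL (Fin r) ℤ_[p]}
    (he : ∀ σ x, e (A σ x) = (rat ρ' σ).mulVec (e x)) {T : Set Γ} {u : Γ}
    (h : rat ρ' u ∈ Algebra.adjoin ℚ_[p] (rat ρ' '' T)) :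
    A u ∈ Algebra.adjoin ℚ_[p] (A '' T) := by
  have key : ∀ X ∈ Algebra.adjoin ℚ_[p] (rat ρ' '' T),
      (e.symm.toLinearMap ∘ₗ Matrix.toLin' X ∘ₗ e.toLinearMap : Module.End ℚ_[p] E) ∈
        Algebra.adjoin ℚ_[p] (A '' T) := by
    intro X hX
    induction hX using Algebra.adjoin_induction with
    | mem X hX =>
      obtain ⟨σ, hσ, rfl⟩ := hX
      have h1 : (e.symm.toLinearMap ∘ₗ Matrix.toLin' (rat ρ' σ) ∘ₗ e.toLinearMap :
          Module.End ℚ_[p] E) = A σ := by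
        apply LinearMap.ext
        intro x
        change e.symm ((rat ρ' σ).mulVec (e x)) = A σ x
        rw [← he, e.symm_apply_apply]
      rw [h1]
      exact Algebra.subset_adjoin ⟨σ, hσ, rfl⟩
    | algebraMap c =>
      have h1 : (e.symm.toLinearMap ∘ₗ Matrix.toLin' (algebraMap ℚ_[p] _ c) ∘ₗ e.toLinearMap :
          Module.End ℚ_[p] E) = algebraMap ℚ_[p] _ c := by
        apply LinearMap.ext
        intro x
        change e.symm ((algebraMap ℚ_[p] (Matrix (Fin r) (Fin r) ℚ_[p]) c).mulVec (e x)) = c • x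
        rw [Algebra.algebraMap_eq_smul_one, Matrix.smul_mulVec, Matrix.one_mulVec, map_smul,
          e.symm_apply_apply]
      rw [h1]
      exact Subalgebra.algebraMap_mem _ c
    | add X Y _ _ hX hY =>
      have h1 : (e.symm.toLinearMap ∘ₗ Matrix.toLin' (X + Y) ∘ₗ e.toLinearMap :
          Module.End ℚ_[p] E) = (e.symm.toLinearMap ∘ₗ Matrix.toLin' X ∘ₗ e.toLinearMap) +
            (e.symm.toLinearMap ∘ₗ Matrix.toLin' Y ∘ₗ e.toLinearMap) := by
        rw [map_add, LinearMap.add_comp, LinearMap.comp_add]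
      rw [h1]
      exact Subalgebra.add_mem _ hX hY
    | mul X Y _ _ hX hY =>
      have h1 : (e.symm.toLinearMap ∘ₗ Matrix.toLin' (X * Y) ∘ₗ e.toLinearMap :
          Module.End ℚ_[p] E) = (e.symm.toLinearMap ∘ₗ Matrix.toLin' X ∘ₗ e.toLinearMap) *
            (e.symm.toLinearMap ∘ₗ Matrix.toLin' Y ∘ₗ e.toLinearMap) := by
        apply LinearMap.ext
        intro x
        rw [Matrix.toLin'_mul]
        simp
      rw [h1]
      exact Subalgebra.mul_mem _ hX hY
  have h2 : (e.symm.toLinearMap ∘ₗ Matrix.toLin' (rat ρ' u) ∘ₗ e.toLinearMap :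
      Module.End ℚ_[p] E) = A u := by
    apply LinearMap.ext
    intro x
    change e.symm ((rat ρ' u).mulVec (e x)) = A u x
    rw [← he, e.symm_apply_apply]
  rw [← h2]
  exact key _ h

theorem functional_MC {ρ : Γ →* GL (Fin N) ℤ_[p]} {B : Γ → Module.End ℚ_[p] E}
    (hB : MC ρ B) (f : Module.End ℚ_[p] E →ₗ[ℚ_[p]] ℚ_[p]) : (fun σ => f (B σ)) ∈ Pol ρ := by
  classical
  let b := Module.finBasis ℚ_[p] E
  have h1 : (fun σ => f (B σ)) = ∑ i, ∑ j, (fun σ => b.coord i (B σ (b j))) *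
      fun _ => f ((b.coord j).smulRight (b i)) := by
    funext σ
    have h2 : B σ = ∑ i, ∑ j, (b.coord i (B σ (b j))) • ((b.coord j).smulRight (b i) :
        Module.End ℚ_[p] E) := by
      apply b.ext
      intro l
      rw [LinearMap.sum_apply]
      have h3 : ∀ i, (∑ j, (b.coord i (B σ (b j))) • ((b.coord j).smulRight (b i) :
          Module.End ℚ_[p] E)) (b l) = (b.coord i (B σ (b l))) • b i := by
        intro i
        rw [LinearMap.sum_apply, Finset.sum_eq_single l]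
        · rw [LinearMap.smul_apply, LinearMap.smulRight_apply, Basis.coord_apply b l,
            Basis.repr_self, Finsupp.single_eq_same, one_smul]
        · intro j _ hj
          rw [LinearMap.smul_apply, LinearMap.smulRight_apply, Basis.coord_apply b j,
            Basis.repr_self, Finsupp.single_eq_of_ne hj, zero_smul, smul_zero]
        · intro h
          exact absurd (Finset.mem_univ _) h
      simp only [h3]
      exact (b.sum_repr _).symm
    conv_lhs => rw [h2]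
    rw [map_sum, Finset.sum_apply]
    refine Finset.sum_congr rfl fun i _ => ?_
    rw [map_sum, Finset.sum_apply]
    refine Finset.sum_congr rfl fun j _ => ?_
    rw [map_smul]
    rfl
  rw [h1]
  exact Subalgebra.sum_mem _ fun i _ => Subalgebra.sum_mem _ fun j _ =>
    (Pol ρ).mul_mem (hB _ _) (const_mem ρ _)

end Adj

section Pairs

variable {N : ℕ} {p : ℕ} [Fact p.Prime] {Γ : Type} [Group Γ] [TopologicalSpace Γ]
  [IsTopologicalGroup Γ] [CompactSpace Γ] [TotallyDisconnectedSpace Γ] [MeasurableSpace Γ]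
  [BorelSpace Γ]
variable {E : Type} [AddCommGroup E] [Module ℚ_[p] E] [FiniteDimensional ℚ_[p] E]

theorem ae_pair_MC (μ : Measure Γ) [μ.IsHaarMeasure] {ρ : Γ →* GL (Fin N) ℤ_[p]}
    (hρ : Continuous fun σ => (ρ σ : Matrix (Fin N) (Fin N) ℤ_[p]))
    {A : Γ →* Module.End ℚ_[p] E} (hA : MC ρ fun σ => A σ) (hss : SS A Set.univ) {k : ℕ}
    (hk : k ≠ 0) : ∀ᵐ σ ∂μ, ∀ᵐ τ ∂μ, σ ∈ conn ρ → τ ∈ conn ρ → ∀ u ∈ conn ρ,
      A u ∈ Algebra.adjoin ℚ_[p] {A (σ ^ k), A (τ ^ k)} := by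
  obtain ⟨r, e, ρ', hρ', he, hPol⟩ := exists_lattice_MC hρ hA
  have hconn : ConnOn ρ' (conn ρ) := fun D hD V hV hDV u hu =>
    connOn_conn ρ D (hPol D hD) V hV hDV u hu
  have hCR : CR (Set.range (rat ρ')) := by
    intro W hW
    obtain ⟨W', hW', hc⟩ := hss (W.comap e.toLinearMap) (by
      intro s _ x hx
      change e (A s x) ∈ W
      rw [he]
      exact hW _ ⟨s, rfl⟩ _ hx)
    refine ⟨W'.map e.toLinearMap, ?_, ?_⟩
    · rintro _ ⟨s, rfl⟩ _ ⟨x, hx, rfl⟩
      refine ⟨A s x, hW' s trivial x hx, ?_⟩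
      exact he s x
    · have h1 : W = (W.comap e.toLinearMap).map e.toLinearMap :=
        (Submodule.map_comap_eq_of_surjective e.surjective W).symm
      rw [h1]
      exact (OrderIso.isCompl_iff (Submodule.orderIsoMapComap e)).1 hc
  filter_upwards [hconn.pair μ hρ' (isOpen_conn ρ) hCR hk] with σ hσ
  filter_upwards [hσ] with τ hτ hσU hτU u hu
  have h1 := hτ hσU hτU u hu
  have h2 : ({rat ρ' (σ ^ k), rat ρ' (τ ^ k)} : Set (Matrix (Fin r) (Fin r) ℚ_[p])) =
      rat ρ' '' {σ ^ k, τ ^ k} := by rw [Set.image_pair]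
  rw [h2] at h1
  have h3 := adjoin_transport e he h1
  rwa [Set.image_pair] at h3

/-- if all `k`-th powers lie in an algebra, so does the group -/
theorem mem_of_pow {ρ : Γ →* GL (Fin N) ℤ_[p]}
    (hρ : Continuous fun σ => (ρ σ : Matrix (Fin N) (Fin N) ℤ_[p]))
    {A : Γ →* Module.End ℚ_[p] E} (hA : MC ρ fun σ => A σ) {k : ℕ} (hk : k ≠ 0)
    (B : Subalgebra ℚ_[p] (Module.End ℚ_[p] E)) (hB : ∀ u ∈ conn ρ, A (u ^ k) ∈ B) :
    ∀ u ∈ conn ρ, A u ∈ B := by
  obtain ⟨r, e, ρ', hρ', he, hPol⟩ := exists_lattice_MC hρ hA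
  intro u hu
  by_contra hne
  have h1 : A u ∉ Subalgebra.toSubmodule B := hne
  obtain ⟨f, hf, hf0⟩ := Submodule.exists_le_ker_of_notMem h1
  refine hf (connOn_conn ρ _ (functional_MC hA f) (conn ρ ⊓ U1 ρ') ?_ ?_ u hu)
  · rw [Subgroup.coe_inf]
    exact (isOpen_conn ρ).inter (isOpen_U1 ρ' hρ')
  · intro v hv
    have h2 := mem_adjoin_pow ρ' hv.2 hk
    have h3 : ({rat ρ' (v ^ k)} : Set (Matrix (Fin r) (Fin r) ℚ_[p])) =
        rat ρ' '' {v ^ k} := by rw [Set.image_singleton]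
    rw [h3] at h2
    have h4 := adjoin_transport e he h2
    rw [Set.image_singleton] at h4
    have h5 : A v ∈ B := by
      refine (Algebra.adjoin_le ?_ : Algebra.adjoin ℚ_[p] {A (v ^ k)} ≤ B) h4
      rw [Set.singleton_subset_iff]
      exact hB v hv.1
    exact hf0 h5

/-- almost every `k`-th power avoids a proper subalgebra -/
theorem ae_not_mem (μ : Measure Γ) [μ.IsHaarMeasure] {ρ : Γ →* GL (Fin N) ℤ_[p]}
    (hρ : Continuous fun σ => (ρ σ : Matrix (Fin N) (Fin N) ℤ_[p]))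
    {A : Γ →* Module.End ℚ_[p] E} (hA : MC ρ fun σ => A σ) {k : ℕ}
    (B : Subalgebra ℚ_[p] (Module.End ℚ_[p] E)) {u₀ : Γ} (hu₀ : u₀ ∈ conn ρ)
    (h0 : A (u₀ ^ k) ∉ B) : ∀ᵐ υ ∂μ, υ ∈ conn ρ → A (υ ^ k) ∉ B := by
  have h1 : A (u₀ ^ k) ∉ Subalgebra.toSubmodule B := h0
  obtain ⟨f, hf, hf0⟩ := Submodule.exists_le_ker_of_notMem h1
  have h2 : MC ρ fun σ => A (σ ^ k) := by
    have h3 := MC.pow hA k
    have h4 : (fun σ => A (σ ^ k)) = fun σ => A σ ^ k := by
      funext σ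
      rw [map_pow]
    rw [h4]
    exact h3
  have h3 := (connOn_conn ρ).ae_ne μ hρ (isOpen_conn ρ) (functional_MC h2 f) hu₀ hf
  filter_upwards [h3] with υ hυ hυU hmem
  exact hυ hυU (hf0 hmem)

end Pairs

section Sub

variable {K : Type} [Field K] {Γ : Type} [Group Γ]
variable {X : Type} [AddCommGroup X] [Module K X]
variable {Y : Type} [AddCommGroup Y] [Module K Y]

/-- the action on a stable subspace -/
noncomputable def dsub (r : Γ →* Module.End K X) (W : Submodule K X)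
    (hW : ∀ s, ∀ x ∈ W, r s x ∈ W) : Γ →* Module.End K W where
  toFun s := (r s).restrict (hW s)
  map_one' := by
    apply LinearMap.ext
    intro x
    apply Subtype.ext
    change r 1 (x : X) = x
    rw [map_one]
    rfl
  map_mul' := by
    intro s t
    apply LinearMap.ext
    intro x
    apply Subtype.ext
    change r (s * t) (x : X) = r s (r t x)
    rw [map_mul]
    rfl

/-- the action on the quotient by a stable subspace -/
noncomputable def dquo (r : Γ →* Module.End K X) (W : Submodule K X)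
    (hW : ∀ s, ∀ x ∈ W, r s x ∈ W) : Γ →* Module.End K (X ⧸ W) where
  toFun s := W.mapQ W (r s) (hW s)
  map_one' := by
    apply LinearMap.ext
    intro x
    obtain ⟨x, rfl⟩ := W.mkQ_surjective x
    change W.mkQ (r 1 x) = W.mkQ x
    rw [map_one]
    rfl
  map_mul' := by
    intro s t
    apply LinearMap.ext
    intro x
    obtain ⟨x, rfl⟩ := W.mkQ_surjective x
    change W.mkQ (r (s * t) x) = W.mkQ (r s (r t x))
    rw [map_mul]
    rfl

/-- the action on a product -/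
noncomputable def dprod (r : Γ →* Module.End K X) (r' : Γ →* Module.End K Y) :
    Γ →* Module.End K (X × Y) where
  toFun s := LinearMap.prodMap (r s) (r' s)
  map_one' := by
    rw [map_one, map_one]
    rfl
  map_mul' := by
    intro s t
    rw [map_mul, map_mul]
    rfl

theorem SS.sub {r : Γ →* Module.End K X} {S : Set Γ} (h : SS r S) (W : Submodule K X)
    (hW : ∀ s, ∀ x ∈ W, r s x ∈ W) : SS (dsub r W hW) S := by
  intro Z hZ
  obtain ⟨C, hC, hc⟩ := h (Z.map W.subtype) (by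
    rintro s hs _ ⟨x, hx, rfl⟩
    exact ⟨dsub r W hW s x, hZ s hs x hx, rfl⟩)
  refine ⟨C.comap W.subtype, fun s hs x hx => hC s hs x hx, ?_⟩
  constructor
  · rw [Submodule.disjoint_def]
    intro x hx hx'
    apply Subtype.ext
    exact (Submodule.disjoint_def.1 hc.disjoint) _ ⟨x, hx, rfl⟩ hx'
  · rw [codisjoint_iff, eq_top_iff]
    intro x _
    have h1 : (x : X) ∈ Z.map W.subtype ⊔ C := by rw [hc.sup_eq_top]; trivial
    obtain ⟨_, ⟨z, hz, rfl⟩, c, hc', hzc⟩ := Submodule.mem_sup.1 h1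
    have h2 : c = ((x - z : W) : X) := by
      rw [Submodule.coe_sub, ← hzc]
      simp
    have h3 : x = z + (x - z) := by abel
    rw [h3]
    refine Submodule.add_mem_sup hz ?_
    change ((x - z : W) : X) ∈ C
    rw [← h2]
    exact hc'

theorem SS.quo {r : Γ →* Module.End K X} {S : Set Γ} (h : SS r S) (W : Submodule K X)
    (hW : ∀ s, ∀ x ∈ W, r s x ∈ W) : SS (dquo r W hW) S := by
  intro Z hZ
  obtain ⟨C, hC, hc⟩ := h (Z.comap W.mkQ) (fun s hs x hx => hZ s hs (W.mkQ x) hx)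
  refine ⟨C.map W.mkQ, ?_, ?_⟩
  · rintro s hs _ ⟨x, hx, rfl⟩
    exact ⟨r s x, hC s hs x hx, rfl⟩
  constructor
  · rw [Submodule.disjoint_def]
    rintro _ hx ⟨c, hc', rfl⟩
    have h1 := (Submodule.disjoint_def.1 hc.disjoint) c hx hc'
    rw [h1, map_zero]
  · rw [codisjoint_iff, eq_top_iff]
    intro x _
    obtain ⟨x, rfl⟩ := W.mkQ_surjective x
    have h1 : x ∈ Z.comap W.mkQ ⊔ C := by rw [hc.sup_eq_top]; trivial
    obtain ⟨z, hz, c, hc', rfl⟩ := Submodule.mem_sup.1 h1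
    rw [map_add]
    exact Submodule.add_mem_sup hz ⟨c, hc', rfl⟩

theorem SS.prod {r : Γ →* Module.End K X} {r' : Γ →* Module.End K Y} {S : Set Γ} (h : SS r S)
    (h' : SS r' S) : SS (dprod r r') S := by
  intro Z hZ
  obtain ⟨C, hC, hc⟩ := h (Z.comap (LinearMap.inl K X Y)) (by
    intro s hs x hx
    have h1 := hZ s hs _ hx
    change ((r s) x, (r' s) 0) ∈ Z at h1
    rw [map_zero] at h1
    exact h1)
  obtain ⟨D, hD, hd⟩ := h' (Z.map (LinearMap.snd K X Y)) (by
    rintro s hs _ ⟨x, hx, rfl⟩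
    exact ⟨_, hZ s hs _ hx, rfl⟩)
  refine ⟨C.prod D, ?_, ?_⟩
  · rintro s hs ⟨x, y⟩ ⟨hx, hy⟩
    exact ⟨hC s hs x hx, hD s hs y hy⟩
  constructor
  · rw [Submodule.disjoint_def]
    rintro ⟨x, y⟩ hz ⟨hx, hy⟩
    have hx' : x ∈ C := hx
    have hy' : y ∈ D := hy
    have h1 : y = 0 := (Submodule.disjoint_def.1 hd.disjoint) y ⟨_, hz, rfl⟩ hy'
    subst h1
    have h2 : x = 0 := (Submodule.disjoint_def.1 hc.disjoint) x hz hx'
    rw [h2]
    rfl
  · rw [codisjoint_iff, eq_top_iff]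
    rintro ⟨x, y⟩ _
    have h1 : y ∈ Z.map (LinearMap.snd K X Y) ⊔ D := by rw [hd.sup_eq_top]; trivial
    obtain ⟨_, ⟨⟨w, z⟩, hz, rfl⟩, d, hd', rfl⟩ := Submodule.mem_sup.1 h1
    have h2 : x - w ∈ Z.comap (LinearMap.inl K X Y) ⊔ C := by rw [hc.sup_eq_top]; trivial
    obtain ⟨a, ha, c, hc', hac⟩ := Submodule.mem_sup.1 h2
    have h3 : (x, (LinearMap.snd K X Y) (w, z) + d) = ((w, z) + (a, 0)) + (c, d) := by
      ext
      · change x = w + a + c
        rw [add_assoc, hac]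
        abel
      · change z + d = z + 0 + d
        rw [add_zero]
    rw [h3]
    exact Submodule.add_mem_sup (Z.add_mem hz ha) ⟨hc', hd'⟩

/-- lifting from the algebra generated on the graded space -/
theorem lift_adjoin {r : Γ →* Module.End K X} {W : Submodule K X}
    (hW : ∀ s, ∀ x ∈ W, r s x ∈ W) {T : Set Γ} {y : Module.End K (W × (X ⧸ W))}
    (hy : y ∈ Algebra.adjoin K (dprod (dsub r W hW) (dquo r W hW) '' T)) :
    ∃ b ∈ Algebra.adjoin K (r '' T),
      (∀ w : W, (∃ h : b w ∈ W, y (w, 0) = (⟨b w, h⟩, 0))) ∧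
      ∀ x, y (0, W.mkQ x) = (0, W.mkQ (b x)) := by
  induction hy using Algebra.adjoin_induction with
  | mem y hy =>
    obtain ⟨s, hs, rfl⟩ := hy
    refine ⟨r s, Algebra.subset_adjoin ⟨s, hs, rfl⟩, fun w => ⟨hW s w w.2, ?_⟩, fun x => ?_⟩
    · change (dsub r W hW s w, dquo r W hW s 0) = _
      rw [map_zero]
      rfl
    · change (dsub r W hW s 0, dquo r W hW s (W.mkQ x)) = _
      rw [map_zero]
      rfl
  | algebraMap c =>
    refine ⟨algebraMap K _ c, Subalgebra.algebraMap_mem _ c,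
      fun w => ⟨W.smul_mem c w.2, ?_⟩, fun x => ?_⟩
    · change (c • w, c • (0 : X ⧸ W)) = _
      rw [smul_zero]
      rfl
    · change (c • (0 : W), c • W.mkQ x) = _
      rw [smul_zero, ← map_smul]
      rfl
  | add y y' _ _ h h' =>
    obtain ⟨b, hb, h1, h2⟩ := h
    obtain ⟨b', hb', h1', h2'⟩ := h'
    refine ⟨b + b', Subalgebra.add_mem _ hb hb', fun w => ?_, fun x => ?_⟩
    · obtain ⟨m, hm⟩ := h1 w
      obtain ⟨m', hm'⟩ := h1' w
      refine ⟨W.add_mem m m', ?_⟩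
      rw [LinearMap.add_apply, hm, hm']
      ext
      · rfl
      · exact add_zero _
    · rw [LinearMap.add_apply, h2, h2', LinearMap.add_apply, map_add]
      ext
      · exact congrArg Subtype.val (add_zero (0 : W))
      · rfl
  | mul y y' _ _ h h' =>
    obtain ⟨b, hb, h1, h2⟩ := h
    obtain ⟨b', hb', h1', h2'⟩ := h'
    refine ⟨b * b', Subalgebra.mul_mem _ hb hb', fun w => ?_, fun x => ?_⟩
    · obtain ⟨m', hm'⟩ := h1' w
      obtain ⟨m, hm⟩ := h1 ⟨b' w, m'⟩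
      refine ⟨m, ?_⟩
      rw [Module.End.mul_apply, hm', hm]
      rfl
    · rw [Module.End.mul_apply, h2', h2]
      rfl

theorem stable_adjoin_end {S : Set (Module.End K X)} {W : Submodule K X}
    (h : ∀ a ∈ S, ∀ x ∈ W, a x ∈ W) : ∀ a ∈ Algebra.adjoin K S, ∀ x ∈ W, a x ∈ W := by
  intro a ha
  induction ha using Algebra.adjoin_induction with
  | mem a ha => exact h a ha
  | algebraMap c => exact fun x hx => W.smul_mem c hx
  | add a b _ _ ha hb => exact fun x hx => W.add_mem (ha x hx) (hb x hx)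
  | mul a b _ _ ha hb => exact fun x hx => ha _ (hb x hx)

end Sub

section Detect

variable {N : ℕ} {p : ℕ} [Fact p.Prime] {Γ : Type} [Group Γ] [TopologicalSpace Γ]
  [IsTopologicalGroup Γ] [CompactSpace Γ] [TotallyDisconnectedSpace Γ] [MeasurableSpace Γ]
  [BorelSpace Γ]

theorem MC.dsub {E : Type} [AddCommGroup E] [Module ℚ_[p] E]
    {ρ : Γ →* GL (Fin N) ℤ_[p]} {A : Γ →* Module.End ℚ_[p] E}
    (hA : MC ρ fun σ => A σ) (W : Submodule ℚ_[p] E) (hW : ∀ s, ∀ x ∈ W, A s x ∈ W) :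
    MC ρ fun σ => Pool.Agent.H850.RG.dsub A W hW σ := by
  intro l x
  obtain ⟨l', hl'⟩ := LinearMap.exists_extend l
  have h1 : (fun σ => l (Pool.Agent.H850.RG.dsub A W hW σ x)) =
      fun σ => l' (A σ (x : E)) := by
    funext σ
    rw [← hl']
    rfl
  rw [h1]
  exact hA _ _

theorem MC.dquo {E : Type} [AddCommGroup E] [Module ℚ_[p] E]
    {ρ : Γ →* GL (Fin N) ℤ_[p]} {A : Γ →* Module.End ℚ_[p] E}
    (hA : MC ρ fun σ => A σ) (W : Submodule ℚ_[p] E) (hW : ∀ s, ∀ x ∈ W, A s x ∈ W) :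
    MC ρ fun σ => Pool.Agent.H850.RG.dquo A W hW σ := by
  intro l x
  obtain ⟨x, rfl⟩ := W.mkQ_surjective x
  exact hA (l ∘ₗ W.mkQ) x

theorem MC.dprod {E E' : Type} [AddCommGroup E] [Module ℚ_[p] E] [AddCommGroup E']
    [Module ℚ_[p] E'] {ρ : Γ →* GL (Fin N) ℤ_[p]} {A : Γ →* Module.End ℚ_[p] E}
    {A' : Γ →* Module.End ℚ_[p] E'}
    (hA : MC ρ fun σ => A σ) (hA' : MC ρ fun σ => A' σ) :
    MC ρ fun σ => Pool.Agent.H850.RG.dprod A A' σ := by
  rintro l ⟨x, y⟩
  have h1 : (fun σ => l (Pool.Agent.H850.RG.dprod A A' σ (x, y))) =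
      (fun σ => (l ∘ₗ LinearMap.inl _ _ _) (A σ x)) +
        fun σ => (l ∘ₗ LinearMap.inr _ _ _) (A' σ y) := by
    funext σ
    change l (A σ x, A' σ y) = l (A σ x, 0) + l (0, A' σ y)
    rw [← map_add]
    congr 1
    ext
    · exact (add_zero _).symm
    · exact (zero_add _).symm
  rw [h1]
  exact (Pol ρ).add_mem (hA _ _) (hA' _ _)

/-- **Three random elements detect semisimplicity.** -/
theorem detect (μ : Measure Γ) [μ.IsHaarMeasure] {ρ : Γ →* GL (Fin N) ℤ_[p]}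
    (hρ : Continuous fun σ => (ρ σ : Matrix (Fin N) (Fin N) ℤ_[p])) {k : ℕ} (hk : k ≠ 0) :
    ∀ (n : ℕ) (E : Type) [AddCommGroup E] [Module ℚ_[p] E] [FiniteDimensional ℚ_[p] E]
      (A : Γ →* Module.End ℚ_[p] E), (MC ρ fun σ => A σ) → Module.finrank ℚ_[p] E ≤ n →
      ∀ᵐ σ ∂μ, ∀ᵐ τ ∂μ, ∀ᵐ υ ∂μ, σ ∈ conn ρ → τ ∈ conn ρ → υ ∈ conn ρ →
        ∀ S : Set Γ, S ⊆ conn ρ → σ ^ k ∈ S → τ ^ k ∈ S → υ ^ k ∈ S → SS A S →
          SS A Set.univ := by
  intro n
  induction n with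
  | zero =>
    intro E _ _ _ A hA hn
    have h0 : Subsingleton E := by
      have h1 : Module.finrank ℚ_[p] E = 0 := by omega
      exact Module.finrank_zero_iff.1 h1
    refine Filter.Eventually.of_forall fun σ => Filter.Eventually.of_forall fun τ =>
      Filter.Eventually.of_forall fun υ _ _ _ S _ _ _ _ _ => ?_
    intro W _
    refine ⟨⊥, ?_, ?_⟩
    · intro s _ x hx
      rw [Subsingleton.elim (A s x) 0]
      exact Submodule.zero_mem _
    · have : W = ⊤ := by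
        rw [eq_top_iff]
        intro x _
        rw [Subsingleton.elim x 0]
        exact W.zero_mem
      rw [this]
      exact isCompl_top_bot
  | succ n ih =>
    intro E _ _ _ A hA hn
    by_cases hW : ∃ W : Submodule ℚ_[p] E, (∀ s, ∀ x ∈ W, A s x ∈ W) ∧ W ≠ ⊥ ∧ W ≠ ⊤
    swap
    · refine Filter.Eventually.of_forall fun σ => Filter.Eventually.of_forall fun τ =>
        Filter.Eventually.of_forall fun υ _ _ _ S _ _ _ _ _ => ?_
      intro W hWs
      by_cases hb : W = ⊥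
      · refine ⟨⊤, fun _ _ _ _ => trivial, ?_⟩
        rw [hb]
        exact isCompl_bot_top
      by_cases ht : W = ⊤
      · refine ⟨⊥, ?_, ?_⟩
        · intro s _ x hx
          rw [Submodule.mem_bot] at hx ⊢
          rw [hx, map_zero]
        · rw [ht]
          exact isCompl_top_bot
      exact absurd ⟨W, fun s x hx => hWs s trivial x hx, hb, ht⟩ hW
    obtain ⟨W, hW, hb, ht⟩ := hW
    have hd1 : Module.finrank ℚ_[p] W ≤ n := by
      have := Submodule.finrank_lt ht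
      omega
    have hd2 : Module.finrank ℚ_[p] (E ⧸ W) ≤ n := by
      have h1 := Submodule.finrank_quotient_add_finrank W
      have h2 : 0 < Module.finrank ℚ_[p] W := by
        rw [Module.finrank_pos_iff]
        exact Submodule.nontrivial_iff_ne_bot.2 hb
      omega
    have ih1 := ih W (dsub A W hW) (hA.dsub W hW) hd1
    have ih2 := ih (E ⧸ W) (dquo A W hW) (hA.dquo W hW) hd2
    by_cases hs1 : SS (dsub A W hW) Set.univ
    swap
    · filter_upwards [ih1] with σ h1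
      filter_upwards [h1] with τ h2
      filter_upwards [h2] with υ h3 hσ hτ hυ S hS s1 s2 s3 hSS
      exact absurd (h3 hσ hτ hυ S hS s1 s2 s3 (hSS.sub W hW)) hs1
    by_cases hs2 : SS (dquo A W hW) Set.univ
    swap
    · filter_upwards [ih2] with σ h1
      filter_upwards [h1] with τ h2
      filter_upwards [h2] with υ h3 hσ hτ hυ S hS s1 s2 s3 hSS
      exact absurd (h3 hσ hτ hυ S hS s1 s2 s3 (hSS.quo W hW)) hs2
    have hmc := (hA.dsub W hW).dprod (hA.dquo W hW)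
    have hfin : Finite (Γ ⧸ conn ρ) := Subgroup.quotient_finite_of_isOpen _ (isOpen_conn ρ)
    have hfi : (conn ρ).FiniteIndex := Subgroup.finiteIndex_of_finite_quotient
    filter_upwards [ae_pair_MC μ hρ hmc (hs1.prod hs2) hk] with σ h1
    filter_upwards [h1] with τ h2
    by_cases hστ : σ ∈ conn ρ ∧ τ ∈ conn ρ
    swap
    · exact Filter.Eventually.of_forall fun υ hσ hτ => absurd ⟨hσ, hτ⟩ hστ
    obtain ⟨hσ, hτ⟩ := hστ
    have h3 := h2 hσ hτ
    set B := Algebra.adjoin ℚ_[p] {A (σ ^ k), A (τ ^ k)} with hBdef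
    by_cases hB : ∀ u ∈ conn ρ, A (u ^ k) ∈ B
    · have hU := mem_of_pow hρ hA hk B hB
      refine Filter.Eventually.of_forall fun υ _ _ _ S hS s1 s2 _ hSS => ?_
      have h4 : SS A (conn ρ : Set Γ) := by
        intro W₁ hW₁
        obtain ⟨W₂, hW₂, hc⟩ := hSS W₁ fun s hs x hx => hW₁ s (hS hs) x hx
        refine ⟨W₂, fun s hs x hx => ?_, hc⟩
        refine stable_adjoin_end (S := {A (σ ^ k), A (τ ^ k)}) ?_ _ (hU s hs) x hx
        rintro a (rfl | ha) y hy
        · exact hW₂ _ s1 y hy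
        · rw [Set.mem_singleton_iff] at ha
          rw [ha]
          exact hW₂ _ s2 y hy
      exact h4.of_finiteIndex
    · push Not at hB
      obtain ⟨u₀, hu₀, h0⟩ := hB
      filter_upwards [ae_not_mem μ hρ hA B hu₀ h0] with υ hυ _ _ hυU S hS s1 s2 s3 hSS
      exfalso
      apply hυ hυU
      have h4 := h3 (υ ^ k) ((conn ρ).pow_mem hυU k)
      rw [← Set.image_pair] at h4
      obtain ⟨b, hbB, hb1, hb2⟩ := lift_adjoin hW h4
      rw [Set.image_pair] at hbB
      obtain ⟨W', hW', hc⟩ := hSS W fun s _ x hx => hW s x hx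
      have hbW' : ∀ x ∈ W', b x ∈ W' := by
        refine stable_adjoin_end (S := {A (σ ^ k), A (τ ^ k)}) ?_ _ hbB
        rintro a (rfl | ha) y hy
        · exact hW' _ s1 y hy
        · rw [Set.mem_singleton_iff] at ha
          rw [ha]
          exact hW' _ s2 y hy
      have hAb : A (υ ^ k) = b := by
        apply LinearMap.ext
        intro x
        have h5 : x ∈ W ⊔ W' := by rw [hc.sup_eq_top]; trivial
        obtain ⟨w, hw, w', hw', rfl⟩ := Submodule.mem_sup.1 h5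
        rw [map_add, map_add]
        congr 1
        · obtain ⟨hm, he⟩ := hb1 ⟨w, hw⟩
          have h6 := congrArg (fun z : W × (E ⧸ W) => ((z.1 : W) : E)) he
          exact h6
        · have h6 := congrArg Prod.snd (hb2 w')
          have h7 : W.mkQ (A (υ ^ k) w') = W.mkQ (b w') := h6
          have h8 : A (υ ^ k) w' - b w' ∈ W := by
            rw [← Submodule.ker_mkQ W, LinearMap.mem_ker, map_sub, h7, sub_self]
          have h9 : A (υ ^ k) w' - b w' ∈ W' :=
            W'.sub_mem (hW' _ s3 w' hw') (hbW' w' hw')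
          exact sub_eq_zero.1 ((Submodule.disjoint_def.1 hc.disjoint) _ h8 h9)
      rw [hAb]
      exact hbB

theorem detect_all (μ : Measure Γ) [μ.IsHaarMeasure] {ρ : Γ →* GL (Fin N) ℤ_[p]}
    (hρ : Continuous fun σ => (ρ σ : Matrix (Fin N) (Fin N) ℤ_[p])) :
    ∀ᵐ σ ∂μ, ∀ᵐ τ ∂μ, ∀ᵐ υ ∂μ, σ ∈ conn ρ → τ ∈ conn ρ → υ ∈ conn ρ → ∀ k : ℕ, k ≠ 0 →
      ∀ S : Set Γ, S ⊆ conn ρ → σ ^ k ∈ S → τ ^ k ∈ S → υ ^ k ∈ S → SS (stdr ρ) S →
        SS (stdr ρ) Set.univ := by
  have h1 : ∀ᵐ σ ∂μ, ∀ k : ℕ, k ≠ 0 → ∀ᵐ τ ∂μ, ∀ᵐ υ ∂μ, σ ∈ conn ρ → τ ∈ conn ρ →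
      υ ∈ conn ρ → ∀ S : Set Γ, S ⊆ conn ρ → σ ^ k ∈ S → τ ^ k ∈ S → υ ^ k ∈ S →
        SS (stdr ρ) S → SS (stdr ρ) Set.univ := by
    rw [ae_all_iff]
    intro k
    by_cases hk : k = 0
    · exact Filter.Eventually.of_forall fun σ h => absurd hk h
    filter_upwards [detect μ hρ hk _ (Fin N → ℚ_[p]) (stdr ρ) (stdr_MC ρ) le_rfl] with σ hσ _
    exact hσ
  filter_upwards [h1] with σ h2
  have h3 : ∀ᵐ τ ∂μ, ∀ k : ℕ, k ≠ 0 → ∀ᵐ υ ∂μ, σ ∈ conn ρ → τ ∈ conn ρ →
      υ ∈ conn ρ → ∀ S : Set Γ, S ⊆ conn ρ → σ ^ k ∈ S → τ ^ k ∈ S → υ ^ k ∈ S →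
        SS (stdr ρ) S → SS (stdr ρ) Set.univ := by
    rw [ae_all_iff]
    intro k
    by_cases hk : k = 0
    · exact Filter.Eventually.of_forall fun σ h => absurd hk h
    filter_upwards [h2 k hk] with τ hτ _
    exact hτ
  filter_upwards [h3] with τ h4
  have h5 : ∀ᵐ υ ∂μ, ∀ k : ℕ, k ≠ 0 → σ ∈ conn ρ → τ ∈ conn ρ →
      υ ∈ conn ρ → ∀ S : Set Γ, S ⊆ conn ρ → σ ^ k ∈ S → τ ^ k ∈ S → υ ^ k ∈ S →
        SS (stdr ρ) S → SS (stdr ρ) Set.univ := by
    rw [ae_all_iff]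
    intro k
    by_cases hk : k = 0
    · exact Filter.Eventually.of_forall fun σ h => absurd hk h
    filter_upwards [h4 k hk] with υ hυ _
    exact hυ
  filter_upwards [h5] with υ h6 a b c k hk S hS s1 s2 s3
  exact h6 k hk a b c S hS s1 s2 s3

end Detect

end Pool.Agent.H850.RG
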