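import Pool.Agent.H850.RG.ChebNull

/-!
# One exceptional set of density zero for countably many
-/

set_option autoImplicit false

namespace Pool.Agent.H850.RG

open NumberField Filter Topology IsDedekindDomain MeasureTheory
open Pool.Agent.W401.Cheb Pool.Agent.W352.ChAbs

variable {K : Type} [Field K] [NumberField K]

theorem dens_or (P Q : HeightOneSpectrum (𝓞 K) → Prop) (N : ℕ) :
    dens (fun v => P v ∨ Q v) N ≤ dens P N + dens Q N := by
  classical
  unfold dens
  rw [← add_div]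
  have hfin : {v : HeightOneSpectrum (𝓞 K) | Ideal.absNorm v.asIdeal ≤ N}.Finite := finite_le N
  have e : ∀ R : HeightOneSpectrum (𝓞 K) → Prop,
      Nat.card {v : HeightOneSpectrum (𝓞 K) // Ideal.absNorm v.asIdeal ≤ N ∧ R v} =
        {v : HeightOneSpectrum (𝓞 K) | Ideal.absNorm v.asIdeal ≤ N ∧ R v}.ncard := fun R => rfl
  have h1 : {v : HeightOneSpectrum (𝓞 K) | Ideal.absNorm v.asIdeal ≤ N ∧ (P v ∨ Q v)} =
      {v | Ideal.absNorm v.asIdeal ≤ N ∧ P v} ∪ {v | Ideal.absNorm v.asIdeal ≤ N ∧ Q v} := by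
    ext v
    simp only [Set.mem_ofPred_eq, Set.mem_union]
    tauto
  have h2 : {v : HeightOneSpectrum (𝓞 K) | Ideal.absNorm v.asIdeal ≤ N ∧ (P v ∨ Q v)}.ncard ≤
      {v : HeightOneSpectrum (𝓞 K) | Ideal.absNorm v.asIdeal ≤ N ∧ P v}.ncard +
        {v : HeightOneSpectrum (𝓞 K) | Ideal.absNorm v.asIdeal ≤ N ∧ Q v}.ncard := by
    rw [h1]
    exact Set.ncard_union_le _ _
  rw [e, e, e]
  have h3 : ({v : HeightOneSpectrum (𝓞 K) | Ideal.absNorm v.asIdeal ≤ N ∧ (P v ∨ Q v)}.ncard : ℝ) ≤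
      {v : HeightOneSpectrum (𝓞 K) | Ideal.absNorm v.asIdeal ≤ N ∧ P v}.ncard +
        {v : HeightOneSpectrum (𝓞 K) | Ideal.absNorm v.asIdeal ≤ N ∧ Q v}.ncard := by
    exact_mod_cast h2
  gcongr

theorem dens_finset {ι : Type} (P : ι → HeightOneSpectrum (𝓞 K) → Prop)
    (h : ∀ i, Tendsto (dens (P i)) atTop (𝓝 0)) (s : Finset ι) :
    Tendsto (dens fun v => ∃ i ∈ s, P i v) atTop (𝓝 0) := by
  classical
  induction s using Finset.induction_on with
  | empty =>
    have h1 : (dens fun v : HeightOneSpectrum (𝓞 K) => ∃ i ∈ (∅ : Finset ι), P i v) =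
        fun _ => 0 := by
      funext N
      unfold dens
      have : IsEmpty {v : HeightOneSpectrum (𝓞 K) // Ideal.absNorm v.asIdeal ≤ N ∧
          ∃ i ∈ (∅ : Finset ι), P i v} := by
        refine ⟨fun v => ?_⟩
        obtain ⟨i, hi, -⟩ := v.2.2
        exact absurd hi (Finset.notMem_empty i)
      rw [Nat.card_of_isEmpty]
      simp
    rw [h1]
    exact tendsto_const_nhds
  | insert a s ha ih =>
    have h1 : Tendsto (fun N => dens (P a) N + dens (fun v => ∃ i ∈ s, P i v) N) atTop (𝓝 0) := by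
      simpa using (h a).add ih
    refine squeeze_zero (fun N => dens_nonneg _ N) (fun N => ?_) h1
    refine le_trans (dens_mono (fun v hv => ?_) N) (dens_or _ _ N)
    obtain ⟨i, hi, hv⟩ := hv
    rcases Finset.mem_insert.1 hi with rfl | hi
    · exact Or.inl hv
    · exact Or.inr ⟨i, hi, hv⟩

/-- **Diagonal argument.** -/
theorem exists_diag {ι : Type} [Countable ι] (P : ι → HeightOneSpectrum (𝓞 K) → Prop)
    (h : ∀ i, Tendsto (dens (P i)) atTop (𝓝 0)) :
    ∃ E : HeightOneSpectrum (𝓞 K) → Prop, Tendsto (dens E) atTop (𝓝 0) ∧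
      ∀ i, {v | P i v ∧ ¬ E v}.Finite := by
  classical
  obtain ⟨f, hf⟩ := exists_injective_nat ι
  let E' : ℕ → HeightOneSpectrum (𝓞 K) → Prop := fun n v => ∃ i, f i ≤ n ∧ P i v
  have hE' : ∀ n, Tendsto (dens (E' n)) atTop (𝓝 0) := by
    intro n
    have hfin : {i | f i ≤ n}.Finite :=
      Set.Finite.preimage hf.injOn (Set.finite_Iic n)
    have h1 := dens_finset P h hfin.toFinset
    have h2 : (fun v => ∃ i ∈ hfin.toFinset, P i v) = E' n := by
      funext v
      simp [E']
    rwa [h2] at h1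
  have hN : ∀ n : ℕ, ∃ N₀ : ℕ, ∀ N ≥ N₀, dens (E' n) N < 1 / ((n : ℝ) + 1) := by
    intro n
    have h1 := (tendsto_order.1 (hE' n)).2 (1 / ((n : ℝ) + 1)) (by positivity)
    exact eventually_atTop.1 h1
  choose N₀ hN₀ using hN
  let M : ℕ → ℕ := fun n => (∑ m ∈ Finset.range (n + 1), N₀ m) + n
  have hMN : ∀ n, N₀ n ≤ M n := by
    intro n
    have : N₀ n ≤ ∑ m ∈ Finset.range (n + 1), N₀ m :=
      Finset.single_le_sum (f := N₀) (fun _ _ => Nat.zero_le _) (Finset.self_mem_range_succ n)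
    exact this.trans (Nat.le_add_right _ _)
  have hMn : ∀ n, n ≤ M n := fun n => Nat.le_add_left _ _
  have hMs : StrictMono M := by
    apply strictMono_nat_of_lt_succ
    intro n
    simp only [M]
    rw [Finset.sum_range_succ _ (n + 1)]
    omega
  have hex : ∀ x : ℕ, M 0 ≤ x → ∃ n, M n ≤ x ∧ x < M (n + 1) := by
    intro x hx
    have hub : ∀ n, M n ≤ x → n ≤ x := fun n hn => (hMn n).trans hn
    set n := Nat.findGreatest (fun n => M n ≤ x) x with hn
    refine ⟨n, ?_, ?_⟩
    · exact Nat.findGreatest_spec (P := fun n => M n ≤ x) (Nat.zero_le x) hx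
    · by_contra hlt
      have h1 : M (n + 1) ≤ x := by omega
      have h2 := Nat.le_findGreatest (P := fun n => M n ≤ x) (hub _ h1) h1
      omega
  let E : HeightOneSpectrum (𝓞 K) → Prop := fun v =>
    ∃ n, M n ≤ Ideal.absNorm v.asIdeal ∧ Ideal.absNorm v.asIdeal < M (n + 1) ∧ E' n v
  refine ⟨E, ?_, ?_⟩
  · rw [Metric.tendsto_atTop]
    intro ε hε
    obtain ⟨k, hk⟩ := exists_nat_one_div_lt hε
    refine ⟨M k, fun N hNk => ?_⟩
    rw [Real.dist_eq, sub_zero, abs_of_nonneg (dens_nonneg _ N)]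
    obtain ⟨n, hn1, hn2⟩ := hex N ((hMs.monotone (Nat.zero_le k)).trans hNk)
    have hkn : k ≤ n := by
      by_contra hlt
      have h1 : M (n + 1) ≤ M k := hMs.monotone (by omega)
      omega
    have h1 : dens E N ≤ dens (E' n) N := by
      have h2 : dens E N ≤ dens (fun v => Ideal.absNorm v.asIdeal ≤ N ∧ E v) N := by
        unfold dens
        have h3 : Nat.card {v : HeightOneSpectrum (𝓞 K) // Ideal.absNorm v.asIdeal ≤ N ∧ E v} =
            Nat.card {v : HeightOneSpectrum (𝓞 K) // Ideal.absNorm v.asIdeal ≤ N ∧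
              (Ideal.absNorm v.asIdeal ≤ N ∧ E v)} := by
          congr 1
          congr 1
          funext v
          apply propext
          tauto
        rw [h3]
      refine h2.trans (dens_mono (fun v hv => ?_) N)
      obtain ⟨hvN, m, hm1, hm2, i, hi, hPi⟩ := hv
      have hmn : m ≤ n := by
        by_contra hlt
        have h1 : M (n + 1) ≤ M m := hMs.monotone (by omega)
        omega
      exact ⟨i, hi.trans hmn, hPi⟩
    have h2 := hN₀ n N ((hMN n).trans hn1)
    have h3 : (1 : ℝ) / ((n : ℝ) + 1) ≤ 1 / ((k : ℝ) + 1) := by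
      have : (k : ℝ) ≤ n := by exact_mod_cast hkn
      gcongr
    linarith
  · intro i
    refine (finite_le (K := K) (M (f i))).subset ?_
    rintro v ⟨hv, hE⟩
    by_contra hlt
    simp only [Set.mem_ofPred_eq, not_le] at hlt
    obtain ⟨n, hn1, hn2⟩ := hex (Ideal.absNorm v.asIdeal)
      ((hMs.monotone (Nat.zero_le (f i))).trans hlt.le)
    have hin : f i ≤ n := by
      by_contra hlt'
      have h1 : M (n + 1) ≤ M (f i) := hMs.monotone (by omega)
      omega
    exact hE ⟨n, hn1, hn2, i, hin, hv⟩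

end Pool.Agent.H850.RG
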