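import Mathlib

/-!
# A zero-one law for compact groups
-/

set_option autoImplicit false

namespace Pool.Agent.H850.RG

open MeasureTheory Topology Set

variable {Γ : Type*} [Group Γ] [TopologicalSpace Γ] [IsTopologicalGroup Γ] [CompactSpace Γ]
  [MeasurableSpace Γ] [BorelSpace Γ]

theorem shift_null (μ : Measure Γ) [μ.IsHaarMeasure] {B : Set Γ} (hB : IsClosed B) (g : Γ)
    (h1 : ∀ σ, {k : ℕ | g ^ k * σ ∈ B}.Finite ∨ ∀ k, g ^ k * σ ∈ B) :
    μ ({b | g * b ∈ B} \ B) = 0 := by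
  set S : ℕ → Set Γ := fun k => {b | g ^ k * b ∈ B} with hS
  have hclosed : ∀ k, IsClosed (S k) := fun k => hB.preimage (continuous_const.mul continuous_id)
  have hmeas : ∀ k, MeasurableSet (S k) := fun k => (hclosed k).measurableSet
  have hμ : ∀ k, μ (S k) = μ B := fun k => measure_preimage_mul μ (g ^ k) B
  set T : ℕ → Set Γ := fun n => ⋃ k ∈ Set.Ici n, S k with hT
  have hTm : ∀ n, MeasurableSet (T n) := fun n =>
    MeasurableSet.biUnion (Set.to_countable _) fun k _ => hmeas k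
  have hTanti : Antitone T := by
    intro m n hmn
    apply Set.biUnion_subset_biUnion_left
    exact Set.Ici_subset_Ici.2 hmn
  have hTμ : ∀ n, μ B ≤ μ (T n) := by
    intro n
    rw [← hμ n]
    exact measure_mono (Set.subset_biUnion_of_mem (u := S) (Set.mem_Ici.2 le_rfl))
  have hI : ⋂ n, T n ⊆ ⋂ k, S k := by
    intro b hb
    have h2 : ¬ {k : ℕ | g ^ k * b ∈ B}.Finite := by
      intro hfin
      obtain ⟨n, hn⟩ := hfin.bddAbove
      have h3 := Set.mem_iInter.1 hb (n + 1)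
      simp only [hT, Set.mem_iUnion, Set.mem_Ici, exists_prop] at h3
      obtain ⟨k, hk, hkb⟩ := h3
      have := hn (show k ∈ {k : ℕ | g ^ k * b ∈ B} from hkb)
      omega
    exact Set.mem_iInter.2 fun k => (h1 b).resolve_left h2 k
  have hlim : μ B ≤ μ (⋂ k, S k) := by
    calc μ B ≤ ⨅ n, μ (T n) := le_iInf hTμ
      _ = μ (⋂ n, T n) := by
        rw [hTanti.measure_iInter (fun n => (hTm n).nullMeasurableSet) ⟨0, measure_ne_top μ _⟩]
      _ ≤ _ := measure_mono hI
  have h3 : (⋂ k, S k) ⊆ B := by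
    intro b hb
    have := Set.mem_iInter.1 hb 0
    simpa [hS] using this
  have h4 : (⋂ k, S k) ⊆ {b | g * b ∈ B} := by
    intro b hb
    have := Set.mem_iInter.1 hb 1
    simpa [hS] using this
  have h5 : μ {b | g * b ∈ B} = μ B := measure_preimage_mul μ g B
  have h6 : μ ({b | g * b ∈ B} \ ⋂ k, S k) = 0 := by
    rw [measure_sdiff h4 (MeasurableSet.iInter hmeas).nullMeasurableSet (measure_ne_top μ _), h5,
      tsub_eq_zero_of_le hlim]
  refine measure_mono_null ?_ h6
  exact Set.diff_subset_diff_right h3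

/-- **Zero-one law.** -/
theorem null_of_dichotomy (μ : Measure Γ) [μ.IsHaarMeasure] {B : Set Γ} (hB : IsClosed B)
    (U : Set Γ) (h1 : ∀ g ∈ U, ∀ σ, {k : ℕ | g ^ k * σ ∈ B}.Finite ∨ ∀ k, g ^ k * σ ∈ B)
    (h2 : ∀ σ, ∃ u, u⁻¹ ∈ U ∧ u * σ ∉ B) : μ B = 0 := by
  apply hB.isCompact.measure_zero_of_nhdsWithin
  intro σ _
  obtain ⟨u, hu, huσ⟩ := h2 σ
  set g := u⁻¹ with hg
  refine ⟨{b | u * b ∉ B} ∩ B, ?_, ?_⟩
  · apply Filter.inter_mem _ self_mem_nhdsWithin
    apply mem_nhdsWithin_of_mem_nhds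
    apply IsOpen.mem_nhds _ huσ
    exact hB.isOpen_compl.preimage (continuous_const.mul continuous_id)
  · have h3 := shift_null μ hB g (h1 g hu)
    have h4 : {b | u * b ∉ B} ∩ B = (fun b => u * b) ⁻¹' ({b | g * b ∈ B} \ B) := by
      ext b
      simp only [Set.mem_inter_iff, Set.mem_ofPred_eq, Set.mem_preimage, Set.mem_diff, hg,
        inv_mul_cancel_left]
      tauto
    rw [h4, measure_preimage_mul]
    exact h3

end Pool.Agent.H850.RG
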