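import Pool.Agent.H850.RG.Alg
import Pool.Agent.H850.RG.ZeroOne

/-!
# The normal closure of a random element of a compact `p`-adic group
-/

set_option autoImplicit false
set_option linter.unusedSectionVars false

namespace Pool.Agent.H850.RG

open Pool.Agent.H850.TF MeasureTheory Topology

variable {N : ℕ} {p : ℕ} [Fact p.Prime] {Γ : Type} [Group Γ]
variable {E : Type} [AddCommGroup E] [Module ℚ_[p] E] [FiniteDimensional ℚ_[p] E]

/-- the vectors fixed by a set of group elements -/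
def Fix (A : Γ →* Module.End ℚ_[p] E) (S : Set Γ) : Submodule ℚ_[p] E where
  carrier := {x | ∀ s ∈ S, A s x = x}
  add_mem' := by
    intro x y hx hy s hs
    rw [map_add, hx s hs, hy s hs]
  zero_mem' := fun s _ => map_zero _
  smul_mem' := by
    intro c x hx s hs
    rw [map_smul, hx s hs]

theorem mem_Fix {A : Γ →* Module.End ℚ_[p] E} {S : Set Γ} {x : E} :
    x ∈ Fix A S ↔ ∀ s ∈ S, A s x = x := Iff.rfl

/-- the span of the differences `A h x - x` -/
noncomputable def Mov (A : Γ →* Module.End ℚ_[p] E) (S : Set Γ) : Submodule ℚ_[p] E :=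
  Submodule.span ℚ_[p] {y | ∃ h ∈ S, ∃ x, y = A h x - x}

/-- the representations to which the method applies -/
structure Rep (ρ : Γ →* GL (Fin N) ℤ_[p]) (A : Γ →* Module.End ℚ_[p] E) : Prop where
  coef : ∀ (l : E →ₗ[ℚ_[p]] ℚ_[p]) (x : E), (fun σ => l (A σ x)) ∈ Pol ρ
  compl : ∀ H : Subgroup Γ, H.Normal → IsCompl (Fix A (H : Set Γ)) (Mov A (H : Set Γ))
  pow : ∀ u ∈ U1 ρ, ∀ n : ℕ, n ≠ 0 → ∀ x, A (u ^ n) x = x → A u x = x

theorem A_mul (A : Γ →* Module.End ℚ_[p] E) (s t : Γ) (x : E) : A (s * t) x = A s (A t x) := by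
  rw [map_mul, Module.End.mul_apply]

theorem A_inv (A : Γ →* Module.End ℚ_[p] E) (s : Γ) (x : E) : A s⁻¹ (A s x) = x := by
  rw [← A_mul, inv_mul_cancel, map_one, Module.End.one_apply]

theorem Fix_stable (A : Γ →* Module.End ℚ_[p] E) (H : Subgroup Γ) [H.Normal] (γ : Γ) {x : E}
    (hx : x ∈ Fix A (H : Set Γ)) : A γ x ∈ Fix A (H : Set Γ) := by
  intro h hh
  have h1 : γ⁻¹ * h * γ ∈ H := by
    have := (inferInstance : H.Normal).conj_mem h hh γ⁻¹
    rwa [inv_inv] at this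
  have h2 : h * γ = γ * (γ⁻¹ * h * γ) := by group
  rw [← A_mul, h2, A_mul, hx _ h1]

theorem Mov_stable (A : Γ →* Module.End ℚ_[p] E) (H : Subgroup Γ) [H.Normal] (γ : Γ) {x : E}
    (hx : x ∈ Mov A (H : Set Γ)) : A γ x ∈ Mov A (H : Set Γ) := by
  induction hx using Submodule.span_induction with
  | mem y hy =>
    obtain ⟨h, hh, x, rfl⟩ := hy
    refine Submodule.subset_span ⟨γ * h * γ⁻¹, (inferInstance : H.Normal).conj_mem h hh γ,
      A γ x, ?_⟩
    rw [map_sub, ← A_mul, ← A_mul]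
    congr 3
    group
  | zero => rw [map_zero]; exact Submodule.zero_mem _
  | add x y _ _ h h' => rw [map_add]; exact Submodule.add_mem _ h h'
  | smul c x _ h => rw [map_smul]; exact Submodule.smul_mem _ c h

/-! ### The patterns -/

/-- the elements `g σ ^ n g⁻¹` and `g [v, σ] g⁻¹` -/
def pat (ρ : Γ →* GL (Fin N) ℤ_[p]) (n : ℕ) : Γ × Option (U1 ρ) → Γ → Γ
  | (g, none), σ => g * σ ^ n * g⁻¹
  | (g, some v), σ => g * (v * σ * (v : Γ)⁻¹ * σ⁻¹) * g⁻¹

/-- the normal subgroup generated by `σ ^ n` and the commutators of `σ` with small elements -/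
def HH (ρ : Γ →* GL (Fin N) ℤ_[p]) (n : ℕ) (σ : Γ) : Subgroup Γ :=
  Subgroup.normalClosure ({σ ^ n} ∪ {t | ∃ v ∈ U1 ρ, t = v * σ * v⁻¹ * σ⁻¹})

instance (ρ : Γ →* GL (Fin N) ℤ_[p]) (n : ℕ) (σ : Γ) : (HH ρ n σ).Normal :=
  Subgroup.normalClosure_normal

theorem pow_mem_HH (ρ : Γ →* GL (Fin N) ℤ_[p]) (n : ℕ) (σ : Γ) : σ ^ n ∈ HH ρ n σ :=
  Subgroup.subset_normalClosure (Or.inl rfl)

theorem comm_mem_HH (ρ : Γ →* GL (Fin N) ℤ_[p]) (n : ℕ) (σ : Γ) {v : Γ} (hv : v ∈ U1 ρ) :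
    v * σ * v⁻¹ * σ⁻¹ ∈ HH ρ n σ := Subgroup.subset_normalClosure (Or.inr ⟨v, hv, rfl⟩)

/-- the stabiliser of a vector -/
def Stab (A : Γ →* Module.End ℚ_[p] E) (x : E) : Subgroup Γ where
  carrier := {t | A t x = x}
  one_mem' := by
    change A 1 x = x
    rw [map_one, Module.End.one_apply]
  mul_mem' := by
    intro s t hs ht
    change A (s * t) x = x
    rw [A_mul, ht, hs]
  inv_mem' := by
    intro s hs
    change A s⁻¹ x = x
    have h1 : A s x = x := hs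
    conv_lhs => rw [← h1]
    exact A_inv A s x

theorem mem_Fix_HH {A : Γ →* Module.End ℚ_[p] E} {ρ : Γ →* GL (Fin N) ℤ_[p]} {n : ℕ} {σ : Γ}
    {x : E} : x ∈ Fix A (HH ρ n σ : Set Γ) ↔ ∀ f, A (pat ρ n f σ) x = x := by
  constructor
  · rintro hx ⟨g, _ | v⟩
    · exact hx _ ((inferInstance : (HH ρ n σ).Normal).conj_mem _ (pow_mem_HH ρ n σ) g)
    · exact hx _ ((inferInstance : (HH ρ n σ).Normal).conj_mem _ (comm_mem_HH ρ n σ v.2) g)
  · intro h
    have h1 : HH ρ n σ ≤ Stab A x := by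
      unfold HH Subgroup.normalClosure
      rw [Subgroup.closure_le]
      intro t ht
      rw [Group.mem_conjugatesOfSet_iff] at ht
      obtain ⟨s, hs, hst⟩ := ht
      rw [isConj_iff] at hst
      obtain ⟨g, rfl⟩ := hst
      rcases hs with hs | ⟨v, hv, rfl⟩
      · rw [Set.mem_singleton_iff] at hs
        rw [hs]
        exact h (g, none)
      · exact h (g, some ⟨v, hv⟩)
    exact fun t ht => h1 ht

/-! ### Matrix coefficients -/

/-- the matrix coefficients of an operator-valued function are polynomial -/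
def MC (ρ : Γ →* GL (Fin N) ℤ_[p]) (B : Γ → Module.End ℚ_[p] E) : Prop :=
  ∀ (l : E →ₗ[ℚ_[p]] ℚ_[p]) (x : E), (fun σ => l (B σ x)) ∈ Pol ρ

theorem MC.mul {ρ : Γ →* GL (Fin N) ℤ_[p]} {B B' : Γ → Module.End ℚ_[p] E} (hB : MC ρ B)
    (hB' : MC ρ B') : MC ρ (fun σ => B σ * B' σ) := by
  intro l x
  let b := Module.finBasis ℚ_[p] E
  have h1 : (fun σ => l ((B σ * B' σ) x)) =
      ∑ i, (fun σ => b.coord i (B' σ x)) * fun σ => l (B σ (b i)) := by
    funext σ
    rw [Finset.sum_apply, Module.End.mul_apply]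
    conv_lhs => rw [← b.sum_repr (B' σ x)]
    rw [map_sum, map_sum]
    refine Finset.sum_congr rfl fun i _ => ?_
    rw [map_smul, map_smul, smul_eq_mul]
    rfl
  rw [h1]
  exact Subalgebra.sum_mem _ fun i _ => (Pol ρ).mul_mem (hB' _ _) (hB _ _)

theorem MC.const (ρ : Γ →* GL (Fin N) ℤ_[p]) (B : Module.End ℚ_[p] E) : MC ρ (fun _ => B) :=
  fun l x => const_mem ρ (l (B x))

theorem MC.inv {ρ : Γ →* GL (Fin N) ℤ_[p]} {B : Γ → Module.End ℚ_[p] E} (hB : MC ρ B) :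
    MC ρ (fun σ => B σ⁻¹) := fun l x => inv_mem ρ (hB l x)

theorem MC.pow {ρ : Γ →* GL (Fin N) ℤ_[p]} {B : Γ → Module.End ℚ_[p] E} (hB : MC ρ B) (n : ℕ) :
    MC ρ (fun σ => B σ ^ n) := by
  induction n with
  | zero =>
    simp only [pow_zero]
    exact MC.const ρ 1
  | succ n ih =>
    simp only [pow_succ]
    exact ih.mul hB

theorem Rep.pat_MC {ρ : Γ →* GL (Fin N) ℤ_[p]} {A : Γ →* Module.End ℚ_[p] E} (hA : Rep ρ A)
    (n : ℕ) (f : Γ × Option (U1 ρ)) : MC ρ (fun σ => A (pat ρ n f σ)) := by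
  have h0 : MC ρ (fun σ => A σ) := hA.coef
  rcases f with ⟨g, _ | v⟩
  · have h1 : (fun σ => A (pat ρ n (g, none) σ)) = fun σ => A g * A σ ^ n * A g⁻¹ := by
      funext σ
      simp only [pat, map_mul, map_pow]
    rw [h1]
    exact ((MC.const ρ _).mul (h0.pow n)).mul (MC.const ρ _)
  · have h1 : (fun σ => A (pat ρ n (g, some v) σ)) =
        fun σ => A g * (A v * A σ * A (v : Γ)⁻¹ * A σ⁻¹) * A g⁻¹ := by
      funext σ
      simp only [pat, map_mul]
    rw [h1]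
    exact ((MC.const ρ _).mul ((((MC.const ρ _).mul h0).mul (MC.const ρ _)).mul h0.inv)).mul
      (MC.const ρ _)

/-! ### Certificates -/

theorem exists_finite {ι : Type*} (K : ι → Submodule ℚ_[p] E) (R : Submodule ℚ_[p] E)
    (h : ∀ x ∈ R, (∀ i, x ∈ K i) → x = 0) :
    ∃ s : Finset ι, ∀ x ∈ R, (∀ i ∈ s, x ∈ K i) → x = 0 := by
  classical
  let W : Finset ι → Submodule ℚ_[p] E := fun s => R ⊓ ⨅ i ∈ s, K i
  obtain ⟨s, -, hs⟩ := WellFounded.has_min
    (measure (fun s : Finset ι => Module.finrank ℚ_[p] (W s))).wf Set.univ ⟨∅, trivial⟩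
  refine ⟨s, fun x hx hxs => ?_⟩
  by_contra hx0
  have h1 : ¬ ∀ i, x ∈ K i := fun hi => hx0 (h x hx hi)
  push Not at h1
  obtain ⟨i, hi⟩ := h1
  have h2 : W (insert i s) < W s := by
    refine lt_of_le_of_ne ?_ ?_
    · exact inf_le_inf_left _ (biInf_mono fun j hj => Finset.mem_insert_of_mem hj)
    · intro heq
      have h3 : x ∈ W s := by
        refine Submodule.mem_inf.2 ⟨hx, ?_⟩
        simp only [Submodule.mem_iInf]
        exact hxs
      rw [← heq] at h3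
      have h4 := (Submodule.mem_inf.1 h3).2
      simp only [Submodule.mem_iInf] at h4
      exact hi (h4 i (Finset.mem_insert_self _ _))
  have h3 := Submodule.finrank_lt_finrank_of_lt h2
  exact hs (insert i s) trivial h3

theorem det_mem {ρ : Γ →* GL (Fin N) ℤ_[p]} {n : Type*} [Fintype n] [DecidableEq n]
    (M : Γ → Matrix n n ℚ_[p]) (h : ∀ i j, (fun σ => M σ i j) ∈ Pol ρ) :
    (fun σ => (M σ).det) ∈ Pol ρ := by
  have h1 : (fun σ => (M σ).det) =
      ∑ τ : Equiv.Perm n, (fun _ => (((Equiv.Perm.sign τ : ℤ) : ℚ_[p]))) *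
        ∏ i, fun σ => M σ (τ i) i := by
    funext σ
    rw [Matrix.det_apply', Finset.sum_apply]
    refine Finset.sum_congr rfl fun τ _ => ?_
    rw [Pi.mul_apply, Finset.prod_apply]
  rw [h1]
  refine Subalgebra.sum_mem _ fun τ _ => (Pol ρ).mul_mem (const_mem ρ _) ?_
  exact Subalgebra.prod_mem _ fun i _ => h _ _

theorem Rep.cert {ρ : Γ →* GL (Fin N) ℤ_[p]} {A : Γ →* Module.End ℚ_[p] E} (hA : Rep ρ A)
    (n : ℕ) (R : Submodule ℚ_[p] E) (σ₁ : Γ)
    (h : Disjoint (Fix A (HH ρ n σ₁ : Set Γ)) R) :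
    ∃ D ∈ Pol ρ, D σ₁ ≠ 0 ∧ ∀ σ, D σ ≠ 0 → Disjoint (Fix A (HH ρ n σ : Set Γ)) R := by
  classical
  obtain ⟨s, hs⟩ := exists_finite (fun f => LinearMap.ker (A (pat ρ n f σ₁) - 1)) R (by
    intro x hx hf
    refine (Submodule.disjoint_def.1 h) x (mem_Fix_HH.2 fun f => ?_) hx
    have := hf f
    rw [LinearMap.mem_ker, LinearMap.sub_apply, Module.End.one_apply, sub_eq_zero] at this
    exact this)
  let L : Γ → R →ₗ[ℚ_[p]] (s → E) := fun σ =>
    LinearMap.pi fun f => (A (pat ρ n f σ) - 1) ∘ₗ R.subtype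
  have hL : ∀ σ x f, L σ x f = A (pat ρ n f σ) x - x := fun σ x f => rfl
  have hinj : LinearMap.ker (L σ₁) = ⊥ := by
    rw [LinearMap.ker_eq_bot']
    intro x hx
    apply Subtype.ext
    refine hs x x.2 fun f hf => ?_
    have := congrFun hx ⟨f, hf⟩
    rw [hL] at this
    rw [LinearMap.mem_ker, LinearMap.sub_apply, Module.End.one_apply]
    exact this
  obtain ⟨Λ, hΛ⟩ := LinearMap.exists_leftInverse_of_injective (L σ₁) hinj
  let b := Module.finBasis ℚ_[p] R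
  refine ⟨fun σ => LinearMap.det (Λ ∘ₗ L σ), ?_, ?_, ?_⟩
  · have h1 : (fun σ => LinearMap.det (Λ ∘ₗ L σ)) =
        fun σ => (LinearMap.toMatrix b b (Λ ∘ₗ L σ)).det := by
      funext σ
      rw [LinearMap.det_toMatrix]
    rw [h1]
    refine det_mem _ fun i j => ?_
    have h2 : (fun σ => LinearMap.toMatrix b b (Λ ∘ₗ L σ) i j) =
        ∑ f : s, ((fun σ => (b.coord i ∘ₗ Λ ∘ₗ LinearMap.single ℚ_[p] (fun _ : s => E) f)
          (A (pat ρ n f σ) (b j : E))) -
          fun _ => (b.coord i ∘ₗ Λ ∘ₗ LinearMap.single ℚ_[p] (fun _ : s => E) f) (b j : E)) := by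
      funext σ
      rw [LinearMap.toMatrix_apply, Finset.sum_apply]
      have h3 : L σ (b j) = ∑ f : s, LinearMap.single ℚ_[p] (fun _ : s => E) f
          (A (pat ρ n f σ) (b j : E) - (b j : E)) := by
        conv_lhs => rw [← LinearMap.sum_single_apply (φ := fun _ : s => E) (v := L σ (b j))]
        rfl
      rw [LinearMap.comp_apply, h3, map_sum, map_sum, Finset.sum_apply']
      refine Finset.sum_congr rfl fun f _ => ?_
      rw [map_sub, map_sub, map_sub]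
      rfl
    rw [h2]
    exact Subalgebra.sum_mem _ fun f _ => (Pol ρ).sub_mem (hA.pat_MC n f _ _) (const_mem ρ _)
  · simp only [hΛ, LinearMap.det_id]
    exact one_ne_zero
  · intro σ hσ
    rw [Submodule.disjoint_def]
    intro x hx hxR
    have h1 : IsUnit (LinearMap.det (Λ ∘ₗ L σ)) := isUnit_iff_ne_zero.2 hσ
    have h2 : Function.Injective (Λ ∘ₗ L σ) := by
      have := LinearMap.isUnit_iff_isUnit_det (Λ ∘ₗ L σ)
      have h3 := this.2 h1
      exact ((Module.End.isUnit_iff _).1 h3).1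
    have h4 : L σ ⟨x, hxR⟩ = 0 := by
      funext f
      rw [hL, (mem_Fix_HH.1 hx) f, sub_self]
      rfl
    have h5 : (Λ ∘ₗ L σ) ⟨x, hxR⟩ = (Λ ∘ₗ L σ) 0 := by
      rw [LinearMap.comp_apply, h4, map_zero, map_zero]
    exact congrArg Subtype.val (h2 h5)

end Pool.Agent.H850.RG
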