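import Pool.Agent.H850.RG.Conj

/-!
# Semisimple representations on vector spaces
-/

set_option autoImplicit false
set_option linter.unusedSectionVars false

namespace Pool.Agent.H850.RG

open Pool.Agent.H850.TF MeasureTheory Topology

section SS

variable {K : Type} [Field K] {Γ : Type} [Group Γ]
variable {X : Type} [AddCommGroup X] [Module K X]

/-- the operators `r s`, `s ∈ S`, act semisimply -/
def SS (r : Γ →* Module.End K X) (S : Set Γ) : Prop :=
  ∀ W : Submodule K X, (∀ s ∈ S, ∀ x ∈ W, r s x ∈ W) →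
    ∃ W' : Submodule K X, (∀ s ∈ S, ∀ x ∈ W', r s x ∈ W') ∧ IsCompl W W'

/-- the matrices of a representation -/
noncomputable def mat {n : ℕ} (e : X ≃ₗ[K] (Fin n → K)) (r : Γ →* Module.End K X) :
    Γ →* Matrix (Fin n) (Fin n) K where
  toFun σ := LinearMap.toMatrix' (e.toLinearMap ∘ₗ r σ ∘ₗ e.symm.toLinearMap)
  map_one' := by
    rw [map_one]
    have h1 : e.toLinearMap ∘ₗ (1 : Module.End K X) ∘ₗ e.symm.toLinearMap = LinearMap.id := by
      apply LinearMap.ext
      intro x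
      simp
    rw [h1, LinearMap.toMatrix'_id]
  map_mul' := by
    intro σ τ
    rw [← LinearMap.toMatrix'_comp]
    congr 1
    apply LinearMap.ext
    intro x
    simp

theorem mat_mulVec {n : ℕ} (e : X ≃ₗ[K] (Fin n → K)) (r : Γ →* Module.End K X) (σ : Γ) (x : X) :
    (mat e r σ).mulVec (e x) = e (r σ x) := by
  have h1 : (mat e r σ).mulVec (e x) = Matrix.toLin' (mat e r σ) (e x) := rfl
  rw [h1]
  have h2 : Matrix.toLin' (mat e r σ) = e.toLinearMap ∘ₗ r σ ∘ₗ e.symm.toLinearMap :=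
    Matrix.toLin'_toMatrix' _
  rw [h2]
  simp

theorem CR_mat {n : ℕ} (e : X ≃ₗ[K] (Fin n → K)) (r : Γ →* Module.End K X) (S : Set Γ) :
    CR (mat e r '' S) ↔ SS r S := by
  constructor
  · intro h W hW
    obtain ⟨W', hW', hc⟩ := h (W.map e.toLinearMap) (by
      rintro _ ⟨s, hs, rfl⟩ _ ⟨x, hx, rfl⟩
      exact ⟨r s x, hW s hs x hx, (mat_mulVec e r s x).symm⟩)
    refine ⟨W'.comap e.toLinearMap, ?_, ?_⟩
    · intro s hs x hx
      change e (r s x) ∈ W'
      rw [← mat_mulVec]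
      exact hW' _ ⟨s, hs, rfl⟩ _ hx
    · have h1 : W = (W.map e.toLinearMap).comap e.toLinearMap :=
        (Submodule.comap_map_eq_of_injective e.injective W).symm
      rw [h1]
      exact (OrderIso.isCompl_iff (Submodule.orderIsoMapComap e).symm).1 hc
  · intro h W hW
    obtain ⟨W', hW', hc⟩ := h (W.comap e.toLinearMap) (by
      intro s hs x hx
      change e (r s x) ∈ W
      rw [← mat_mulVec]
      exact hW _ ⟨s, hs, rfl⟩ _ hx)
    refine ⟨W'.map e.toLinearMap, ?_, ?_⟩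
    · rintro _ ⟨s, hs, rfl⟩ _ ⟨x, hx, rfl⟩
      exact ⟨r s x, hW' s hs x hx, (mat_mulVec e r s x).symm⟩
    · have h1 : W = (W.comap e.toLinearMap).map e.toLinearMap :=
        (Submodule.map_comap_eq_of_surjective e.surjective W).symm
      rw [h1]
      exact (OrderIso.isCompl_iff (Submodule.orderIsoMapComap e)).1 hc

variable [FiniteDimensional K X]

/-- coordinates -/
noncomputable def crd (K X : Type) [Field K] [AddCommGroup X] [Module K X]
    [FiniteDimensional K X] : X ≃ₗ[K] (Fin (Module.finrank K X) → K) :=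
  (Module.finBasis K X).equivFun

theorem SS.clifford {r : Γ →* Module.End K X} (h : SS r Set.univ) (H : Subgroup Γ) [H.Normal] :
    SS r (H : Set Γ) := by
  rw [← CR_mat (crd K X)] at h ⊢
  rw [Set.image_univ] at h
  exact Pool.Agent.H850.TF.clifford _ H h

theorem SS.of_finiteIndex [CharZero K] {r : Γ →* Module.End K X} {H : Subgroup Γ} [H.FiniteIndex]
    (h : SS r (H : Set Γ)) : SS r Set.univ := by
  rw [← CR_mat (crd K X)] at h ⊢
  rw [Set.image_univ]
  exact CR_of_finiteIndex _ H h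

omit [FiniteDimensional K X] in
theorem SS_comp_subtype (r : Γ →* Module.End K X) {H₁ H₂ : Subgroup Γ} (h : H₁ ≤ H₂) :
    SS (r.comp H₂.subtype) (H₁.subgroupOf H₂ : Set H₂) ↔ SS r (H₁ : Set Γ) := by
  have h1 : ∀ W : Submodule K X, (∀ s ∈ (H₁.subgroupOf H₂ : Set H₂), ∀ x ∈ W,
      (r.comp H₂.subtype) s x ∈ W) ↔ ∀ s ∈ (H₁ : Set Γ), ∀ x ∈ W, r s x ∈ W := by
    intro W
    constructor
    · intro hW s hs x hx
      exact hW ⟨s, h hs⟩ hs x hx
    · intro hW s hs x hx
      exact hW s hs x hx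
  unfold SS
  simp only [h1]

omit [FiniteDimensional K X] in
theorem SS_subtype_univ (r : Γ →* Module.End K X) (H : Subgroup Γ) :
    SS (r.comp H.subtype) Set.univ ↔ SS r (H : Set Γ) := by
  have h1 : ∀ W : Submodule K X, (∀ s ∈ (Set.univ : Set H), ∀ x ∈ W,
      (r.comp H.subtype) s x ∈ W) ↔ ∀ s ∈ (H : Set Γ), ∀ x ∈ W, r s x ∈ W := by
    intro W
    constructor
    · intro hW s hs x hx
      exact hW ⟨s, hs⟩ trivial x hx
    · intro hW s _ x hx
      exact hW s s.2 x hx
  unfold SS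
  simp only [h1]

theorem SS.clifford' {r : Γ →* Module.End K X} {H₁ H₂ : Subgroup Γ} (h : SS r (H₂ : Set Γ))
    (hle : H₁ ≤ H₂) [H₁.Normal] : SS r (H₁ : Set Γ) := by
  rw [← SS_comp_subtype r hle]
  rw [← SS_subtype_univ] at h
  have : (H₁.subgroupOf H₂).Normal := inferInstance
  exact SS.clifford h _

theorem SS.of_finite_relindex [CharZero K] {r : Γ →* Module.End K X} {H₁ H₂ : Subgroup Γ}
    (h : SS r (H₁ : Set Γ)) (hle : H₁ ≤ H₂) (hfin : (H₁.subgroupOf H₂).FiniteIndex) :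
    SS r (H₂ : Set Γ) := by
  rw [← SS_comp_subtype r hle] at h
  rw [← SS_subtype_univ]
  exact h.of_finiteIndex

end SS

section Rep

variable {N : ℕ} {p : ℕ} [Fact p.Prime] {Γ : Type} [Group Γ]
variable {E : Type} [AddCommGroup E] [Module ℚ_[p] E] [FiniteDimensional ℚ_[p] E]
variable {E' : Type} [AddCommGroup E'] [Module ℚ_[p] E'] [FiniteDimensional ℚ_[p] E']

/-- powers of small elements have no more fixed vectors -/
theorem pow_of_MC {ρ : Γ →* GL (Fin N) ℤ_[p]} {A : Γ →* Module.End ℚ_[p] E}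
    (hA : MC ρ fun σ => A σ) {u : Γ} (hu : u ∈ U1 ρ) {n : ℕ} (hn : n ≠ 0) {x : E}
    (hx : A (u ^ n) x = x) : A u x = x := by
  have hxk : ∀ k : ℕ, A ((u ^ n) ^ k) x = x := by
    intro k
    induction k with
    | zero => rw [pow_zero, map_one, Module.End.one_apply]
    | succ k ih => rw [pow_succ, A_mul, hx, ih]
  let b := Module.finBasis ℚ_[p] E
  apply b.repr.injective
  ext i
  have h1 : (fun σ => b.coord i (A σ x) - b.coord i x) ∈ Pol ρ :=
    (Pol ρ).sub_mem (hA _ _) (const_mem ρ _)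
  have h2 := (an_of_mem ρ h1 hu 1).zero_of_infinite (by
    refine Set.infinite_of_injective_forall_mem (f := fun k : ℕ => n * k) ?_ ?_
    · intro a b hab
      exact Nat.eq_of_mul_eq_mul_left (Nat.pos_of_ne_zero hn) hab
    · intro k
      simp only [Set.mem_ofPred_eq, mul_one]
      rw [pow_mul, hxk, sub_self]) 1
  rw [pow_one, mul_one] at h2
  exact sub_eq_zero.1 h2

theorem SS_compl {A : Γ →* Module.End ℚ_[p] E} (H : Subgroup Γ) (h : SS A (H : Set Γ)) :
    IsCompl (Fix A (H : Set Γ)) (Mov A (H : Set Γ)) := by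
  have hFst : ∀ s ∈ (H : Set Γ), ∀ x ∈ Fix A (H : Set Γ), A s x ∈ Fix A (H : Set Γ) := by
    intro s hs x hx
    rw [hx s hs]
    exact hx
  have hMst : ∀ s ∈ (H : Set Γ), ∀ x ∈ Mov A (H : Set Γ), A s x ∈ Mov A (H : Set Γ) := by
    intro s hs x hx
    have h1 : A s x = (A s x - x) + x := by abel
    rw [h1]
    exact Submodule.add_mem _ (Submodule.subset_span ⟨s, hs, x, rfl⟩) hx
  obtain ⟨C, hC, hc⟩ := h _ hFst
  have hMC : Mov A (H : Set Γ) ≤ C := by
    unfold Mov
    rw [Submodule.span_le]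
    rintro _ ⟨s, hs, x, rfl⟩
    have hx : x ∈ Fix A (H : Set Γ) ⊔ C := by rw [hc.sup_eq_top]; trivial
    obtain ⟨f, hf, c, hc', rfl⟩ := Submodule.mem_sup.1 hx
    have h2 : A s (f + c) - (f + c) = A s c - c := by
      rw [map_add, hf s hs]
      abel
    rw [h2]
    exact C.sub_mem (hC s hs c hc') hc'
  refine ⟨hc.disjoint.mono_right hMC, ?_⟩
  rw [codisjoint_iff]
  obtain ⟨D, hD, hd⟩ := h (Fix A (H : Set Γ) ⊔ Mov A (H : Set Γ)) (by
    intro s hs x hx
    obtain ⟨f, hf, c, hc', rfl⟩ := Submodule.mem_sup.1 hx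
    rw [map_add]
    exact Submodule.add_mem_sup (hFst s hs f hf) (hMst s hs c hc'))
  have hD0 : D = ⊥ := by
    rw [eq_bot_iff]
    intro x hx
    have h3 : x ∈ Fix A (H : Set Γ) := by
      intro s hs
      have h4 : A s x - x ∈ Mov A (H : Set Γ) := Submodule.subset_span ⟨s, hs, x, rfl⟩
      have h5 : A s x - x ∈ D := D.sub_mem (hD s hs x hx) hx
      have h6 := (Submodule.disjoint_def.1 hd.disjoint) _ (Submodule.mem_sup_right h4) h5
      exact sub_eq_zero.1 h6
    exact (Submodule.disjoint_def.1 hd.disjoint) _ (Submodule.mem_sup_left h3) hx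
  have h7 := hd.sup_eq_top
  rwa [hD0, sup_bot_eq] at h7

/-- a semisimple representation -/
theorem Rep.std {ρ : Γ →* GL (Fin N) ℤ_[p]} {A : Γ →* Module.End ℚ_[p] E}
    (hA : MC ρ fun σ => A σ) (h : SS A Set.univ) : Rep ρ A :=
  ⟨hA, fun H _ => SS_compl H (h.clifford H), fun _ hu _ hn _ hx => pow_of_MC hA hu hn hx⟩

/-- transport along an equivariant isomorphism -/
theorem Rep.transport {ρ : Γ →* GL (Fin N) ℤ_[p]} {A : Γ →* Module.End ℚ_[p] E}
    {A' : Γ →* Module.End ℚ_[p] E'} (f : E ≃ₗ[ℚ_[p]] E') (hf : ∀ σ x, f (A σ x) = A' σ (f x))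
    (h : Rep ρ A') : Rep ρ A := by
  refine ⟨?_, ?_, ?_⟩
  · intro l x
    have h1 : (fun σ => l (A σ x)) = fun σ => (l ∘ₗ f.symm.toLinearMap) (A' σ (f x)) := by
      funext σ
      rw [← hf]
      simp
    rw [h1]
    exact h.coef _ _
  · intro H hH
    have h1 := h.compl H hH
    have h2 : Fix A' (H : Set Γ) = (Fix A (H : Set Γ)).map f.toLinearMap := by
      ext y
      constructor
      · intro hy
        refine ⟨f.symm y, ?_, by simp⟩
        intro s hs
        apply f.injective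
        rw [hf]
        simpa using hy s hs
      · rintro ⟨x, hx, rfl⟩ s hs
        change A' s (f x) = f x
        rw [← hf, hx s hs]
    have h3 : Mov A' (H : Set Γ) = (Mov A (H : Set Γ)).map f.toLinearMap := by
      unfold Mov
      rw [Submodule.map_span]
      congr 1
      ext y
      constructor
      · rintro ⟨s, hs, x, rfl⟩
        refine ⟨A s (f.symm x) - f.symm x, ⟨s, hs, _, rfl⟩, ?_⟩
        simp [hf]
      · rintro ⟨_, ⟨s, hs, x, rfl⟩, rfl⟩
        refine ⟨s, hs, f x, ?_⟩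
        simp [hf]
    rw [h2, h3] at h1
    exact (OrderIso.isCompl_iff (Submodule.orderIsoMapComap f)).2 h1
  · intro u hu n hn x hx
    apply f.injective
    rw [hf]
    apply h.pow u hu n hn
    rw [← hf, hx]

theorem MC.add {ρ : Γ →* GL (Fin N) ℤ_[p]} {B B' : Γ → Module.End ℚ_[p] E} (hB : MC ρ B)
    (hB' : MC ρ B') : MC ρ (fun σ => B σ + B' σ) := by
  intro l x
  have h1 : (fun σ => l ((B σ + B' σ) x)) = (fun σ => l (B σ x)) + fun σ => l (B' σ x) := by
    funext σ
    simp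
  rw [h1]
  exact (Pol ρ).add_mem (hB l x) (hB' l x)

end Rep

end Pool.Agent.H850.RG
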