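import Pool.Agent.H850.RG.Pair

/-!
# Stable lattices
-/

set_option autoImplicit false
set_option linter.unusedSectionVars false

namespace Pool.Agent.H850.RG

open Pool.Agent.H850.TF MeasureTheory Topology Module

variable {m : ℕ} {p : ℕ} [Fact p.Prime] {Γ : Type} [Group Γ]

/-- the vectors all of whose translates are integral -/
def lat (B : Γ →* Matrix (Fin m) (Fin m) ℚ_[p]) : Submodule ℤ_[p] (Fin m → ℚ_[p]) where
  carrier := {x | ∀ σ i, ‖(B σ).mulVec x i‖ ≤ 1}
  add_mem' := by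
    intro x y hx hy σ i
    rw [Matrix.mulVec_add, Pi.add_apply]
    exact (Padic.nonarchimedean _ _).trans (max_le (hx σ i) (hy σ i))
  zero_mem' := by
    intro σ i
    rw [Matrix.mulVec_zero, Pi.zero_apply, norm_zero]
    exact zero_le_one
  smul_mem' := by
    intro c x hx σ i
    have h1 : c • x = (c : ℚ_[p]) • x := rfl
    rw [h1, Matrix.mulVec_smul, Pi.smul_apply, smul_eq_mul, norm_mul]
    exact mul_le_one₀ c.2 (norm_nonneg _) (hx σ i)

theorem mem_lat {B : Γ →* Matrix (Fin m) (Fin m) ℚ_[p]} {x : Fin m → ℚ_[p]} :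
    x ∈ lat B ↔ ∀ σ i, ‖(B σ).mulVec x i‖ ≤ 1 := Iff.rfl

theorem lat_stable (B : Γ →* Matrix (Fin m) (Fin m) ℚ_[p]) (τ : Γ) {x : Fin m → ℚ_[p]}
    (hx : x ∈ lat B) : (B τ).mulVec x ∈ lat B := by
  intro σ i
  rw [Matrix.mulVec_mulVec, ← map_mul]
  exact hx _ i

theorem lat_fg (B : Γ →* Matrix (Fin m) (Fin m) ℚ_[p]) : (lat B).FG := by
  have h1 : (Submodule.span ℤ_[p] (Set.range fun i : Fin m =>
      (Pi.single i 1 : Fin m → ℚ_[p]))).FG := Submodule.fg_span (Set.finite_range _)
  refine h1.of_le fun x hx => ?_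
  have h3 : ∀ i, ‖x i‖ ≤ 1 := by
    intro i
    have := hx 1 i
    rwa [map_one, Matrix.one_mulVec] at this
  let c : Fin m → ℤ_[p] := fun i => ⟨x i, h3 i⟩
  have h2 : x = ∑ i, c i • (Pi.single i 1 : Fin m → ℚ_[p]) := by
    funext j
    rw [Finset.sum_apply, Finset.sum_eq_single j]
    · simp only [Pi.smul_apply, Pi.single_eq_same]
      change x j = x j * 1
      rw [mul_one]
    · intro i _ hij
      simp only [Pi.smul_apply]
      rw [Pi.single_eq_of_ne (Ne.symm hij), smul_zero]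
    · intro h
      exact absurd (Finset.mem_univ _) h
  rw [h2]
  exact Submodule.sum_mem _ fun i _ => Submodule.smul_mem _ _ (Submodule.subset_span ⟨i, rfl⟩)

theorem lat_span [TopologicalSpace Γ] [CompactSpace Γ] (B : Γ →* Matrix (Fin m) (Fin m) ℚ_[p])
    (hB : ∀ i j, Continuous fun σ => B σ i j) :
    Submodule.span ℚ_[p] (lat B : Set (Fin m → ℚ_[p])) = ⊤ := by
  classical
  -- a common bound
  have h1 : ∃ k : ℕ, ∀ σ i j, ‖B σ i j‖ ≤ (p : ℝ) ^ k := by
    have h2 : ∀ i j, ∃ C : ℝ, ∀ σ, ‖B σ i j‖ ≤ C := by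
      intro i j
      obtain ⟨C, hC⟩ := (isCompact_range (hB i j)).isBounded.exists_norm_le
      exact ⟨C, fun σ => hC _ ⟨σ, rfl⟩⟩
    choose C hC using h2
    have hp : (1 : ℝ) < p := by exact_mod_cast (Fact.out : p.Prime).one_lt
    obtain ⟨k, hk⟩ := pow_unbounded_of_one_lt (∑ i, ∑ j, |C i j|) hp
    refine ⟨k, fun σ i j => ?_⟩
    refine (hC i j σ).trans ((le_abs_self _).trans (le_trans ?_ hk.le))
    refine (Finset.single_le_sum (f := fun j => |C i j|) (fun _ _ => abs_nonneg _)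
      (Finset.mem_univ j)).trans ?_
    exact Finset.single_le_sum (f := fun i => ∑ j, |C i j|)
      (fun _ _ => Finset.sum_nonneg fun _ _ => abs_nonneg _) (Finset.mem_univ i)
  obtain ⟨k, hk⟩ := h1
  have hp0 : (p : ℚ_[p]) ≠ 0 := by exact_mod_cast (Fact.out : p.Prime).ne_zero
  have hmem : ∀ j : Fin m, (p : ℚ_[p]) ^ k • (Pi.single j 1 : Fin m → ℚ_[p]) ∈ lat B := by
    intro j σ i
    rw [Matrix.mulVec_smul, Pi.smul_apply, smul_eq_mul, norm_mul, norm_pow, Padic.norm_p,
      Matrix.mulVec_single_one, Matrix.col_apply]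
    have hp1 : (0 : ℝ) < (p : ℝ) ^ k := by
      have : (0 : ℝ) < p := by exact_mod_cast (Fact.out : p.Prime).pos
      positivity
    calc ((p : ℝ)⁻¹) ^ k * ‖B σ i j‖ ≤ ((p : ℝ)⁻¹) ^ k * (p : ℝ) ^ k := by
          gcongr
          exact hk σ i j
      _ = 1 := by rw [inv_pow, inv_mul_cancel₀ hp1.ne']
  rw [eq_top_iff]
  intro x _
  have h3 : x = ∑ j, (x j * ((p : ℚ_[p]) ^ k)⁻¹) •
      ((p : ℚ_[p]) ^ k • (Pi.single j 1 : Fin m → ℚ_[p])) := by
    funext i
    rw [Finset.sum_apply, Finset.sum_eq_single i]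
    · simp only [Pi.smul_apply, Pi.single_eq_same, smul_eq_mul, mul_one]
      rw [mul_assoc, inv_mul_cancel₀ (pow_ne_zero k hp0), mul_one]
    · intro j _ hij
      simp only [Pi.smul_apply]
      rw [Pi.single_eq_of_ne (Ne.symm hij), smul_zero, smul_zero]
    · intro h
      exact absurd (Finset.mem_univ _) h
  rw [h3]
  exact Submodule.sum_mem _ fun j _ => Submodule.smul_mem _ _ (Submodule.subset_span (hmem j))

/-- **Stable lattices.** -/
theorem exists_lattice [TopologicalSpace Γ] [CompactSpace Γ]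
    (B : Γ →* Matrix (Fin m) (Fin m) ℚ_[p]) (hB : ∀ i j, Continuous fun σ => B σ i j) :
    ∃ (r : ℕ) (e : (Fin m → ℚ_[p]) ≃ₗ[ℚ_[p]] (Fin r → ℚ_[p])) (ρ' : Γ →* GL (Fin r) ℤ_[p]),
      ∀ σ x, e ((B σ).mulVec x) = (rat ρ' σ).mulVec (e x) := by
  classical
  have hlat : Submodule.IsLattice ℚ_[p] (lat B) := ⟨lat_fg B, lat_span B hB⟩
  have : Module.Finite ℤ_[p] (lat B) := Submodule.IsLattice.finite ℚ_[p] (lat B)
  have : Module.Free ℤ_[p] (lat B) := Submodule.IsLattice.free ℚ_[p] (lat B)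
  set r := Module.finrank ℤ_[p] (lat B) with hr
  let b : Basis (Fin r) ℤ_[p] (lat B) := Module.finBasis ℤ_[p] (lat B)
  let b' : Basis (Fin r) ℚ_[p] (Fin m → ℚ_[p]) := b.extendOfIsLattice ℚ_[p]
  have hb' : ∀ j, b' j = (b j : Fin m → ℚ_[p]) := fun j =>
    Module.Basis.extendOfIsLattice_apply ℚ_[p] b j
  let act : Γ →* Module.End ℤ_[p] (lat B) :=
    { toFun := fun σ =>
        { toFun := fun x => ⟨(B σ).mulVec x, lat_stable B σ x.2⟩
          map_add' := fun x y => Subtype.ext (by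
            change (B σ).mulVec ((x : Fin m → ℚ_[p]) + (y : Fin m → ℚ_[p])) =
              (B σ).mulVec (x : Fin m → ℚ_[p]) + (B σ).mulVec (y : Fin m → ℚ_[p])
            exact Matrix.mulVec_add _ _ _)
          map_smul' := fun c x => Subtype.ext (by
            change (B σ).mulVec ((c : ℚ_[p]) • (x : Fin m → ℚ_[p])) =
              (c : ℚ_[p]) • (B σ).mulVec (x : Fin m → ℚ_[p])
            exact Matrix.mulVec_smul _ _ _) }
      map_one' := by
        apply LinearMap.ext
        intro x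
        apply Subtype.ext
        change (B 1).mulVec (x : Fin m → ℚ_[p]) = x
        rw [map_one, Matrix.one_mulVec]
      map_mul' := by
        intro σ τ
        apply LinearMap.ext
        intro x
        apply Subtype.ext
        change (B (σ * τ)).mulVec (x : Fin m → ℚ_[p]) = (B σ).mulVec ((B τ).mulVec x)
        rw [map_mul, Matrix.mulVec_mulVec] }
  let M : Γ →* Matrix (Fin r) (Fin r) ℤ_[p] :=
    ((LinearMap.toMatrixAlgEquiv b : Module.End ℤ_[p] (lat B) ≃ₐ[ℤ_[p]] _) :
      Module.End ℤ_[p] (lat B) →* Matrix (Fin r) (Fin r) ℤ_[p]).comp act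
  refine ⟨r, b'.equivFun, M.toHomUnits, fun σ x => ?_⟩
  have key : ∀ j, (B σ).mulVec (b' j) = ∑ i, ((M σ i j : ℤ_[p]) : ℚ_[p]) • b' i := by
    intro j
    have h1 : act σ (b j) = ∑ i, M σ i j • b i := by
      have h2 : ∀ i, M σ i j = b.repr (act σ (b j)) i := by
        intro i
        exact LinearMap.toMatrixAlgEquiv_apply b (act σ) i j
      simp only [h2]
      exact (b.sum_repr _).symm
    have h3 : ((act σ (b j) : lat B) : Fin m → ℚ_[p]) =
        ((∑ i, M σ i j • b i : lat B) : Fin m → ℚ_[p]) := congrArg Subtype.val h1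
    rw [Submodule.coe_sum] at h3
    rw [hb' j]
    refine h3.trans (Finset.sum_congr rfl fun i _ => ?_)
    rw [hb' i]
    rfl
  have hlin : ∀ x : Fin m → ℚ_[p], b'.equivFun ((B σ).mulVec x) =
      (rat M.toHomUnits σ).mulVec (b'.equivFun x) := by
    intro x
    have h4 : (b'.equivFun.toLinearMap ∘ₗ (B σ).mulVecLin) =
        ((rat M.toHomUnits σ).mulVecLin ∘ₗ b'.equivFun.toLinearMap) := by
      apply b'.ext
      intro j
      change b'.equivFun ((B σ).mulVec (b' j)) =
        (rat M.toHomUnits σ).mulVec (b'.equivFun (b' j))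
      rw [key j, map_sum]
      have h5 : b'.equivFun (b' j) = Pi.single j 1 := by
        funext i
        rw [Basis.equivFun_self, Pi.single_apply]
        simp [eq_comm]
      rw [h5, Matrix.mulVec_single_one]
      funext i
      rw [Finset.sum_apply, Matrix.col_apply]
      have h6 : ∀ l, (b'.equivFun (((M σ l j : ℤ_[p]) : ℚ_[p]) • b' l)) i =
          if l = i then ((M σ l j : ℤ_[p]) : ℚ_[p]) else 0 := by
        intro l
        rw [map_smul, Pi.smul_apply, Basis.equivFun_self, smul_eq_mul]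
        split_ifs with h
        · rw [mul_one]
        · rw [mul_zero]
      simp only [h6]
      rw [Finset.sum_ite_eq' Finset.univ i]
      simp only [Finset.mem_univ, if_true]
      rfl
    exact LinearMap.congr_fun h4 x
  exact hlin x

end Pool.Agent.H850.RG
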