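import Pool.Agent.H850.RG.Engine

/-!
# Almost every element is good
-/

set_option autoImplicit false
set_option linter.unusedSectionVars false

namespace Pool.Agent.H850.RG

open Pool.Agent.H850.TF MeasureTheory Topology

variable {N : ℕ} {p : ℕ} [Fact p.Prime] {Γ : Type} [Group Γ]
variable {E : Type} [AddCommGroup E] [Module ℚ_[p] E] [FiniteDimensional ℚ_[p] E]

/-- the vectors fixed by the pattern subgroup of `σ` are fixed by all small elements -/
def Good (ρ : Γ →* GL (Fin N) ℤ_[p]) (A : Γ →* Module.End ℚ_[p] E) (n : ℕ) (σ : Γ) : Prop :=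
  Fix A (HH ρ n σ : Set Γ) ≤ Fix A (U1 ρ : Set Γ)

theorem Rep.good_iff {ρ : Γ →* GL (Fin N) ℤ_[p]} {A : Γ →* Module.End ℚ_[p] E} (hA : Rep ρ A)
    (n : ℕ) (σ : Γ) :
    Good ρ A n σ ↔ Disjoint (Fix A (HH ρ n σ : Set Γ)) (Mov A (U1 ρ : Set Γ)) := by
  have hc := hA.compl (U1 ρ) inferInstance
  constructor
  · intro h
    exact hc.disjoint.mono_left h
  · intro h x hx
    have h1 : x ∈ Fix A (U1 ρ : Set Γ) ⊔ Mov A (U1 ρ : Set Γ) := by
      rw [hc.sup_eq_top]
      trivial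
    obtain ⟨z, hz, r, hr, rfl⟩ := Submodule.mem_sup.1 h1
    have h2 : r ∈ Fix A (HH ρ n σ : Set Γ) := by
      intro t ht
      have h3 := hx t ht
      rw [map_add] at h3
      have h4 : A t r - r = z - A t z := by
        rw [sub_eq_sub_iff_add_eq_add, add_comm, h3]
      have h5 : A t r - r ∈ Mov A (U1 ρ : Set Γ) := sub_mem (Mov_stable A (U1 ρ) t hr) hr
      have h6 : A t r - r ∈ Fix A (U1 ρ : Set Γ) := by
        rw [h4]
        exact sub_mem hz (Fix_stable A (U1 ρ) t hz)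
      exact sub_eq_zero.1 ((Submodule.disjoint_def.1 hc.disjoint) _ h6 h5)
    have h3 := (Submodule.disjoint_def.1 h) r h2 hr
    rw [h3, add_zero]
    exact hz

variable [TopologicalSpace Γ] [IsTopologicalGroup Γ] [CompactSpace Γ]

/-- **Density of good elements.** -/
theorem Rep.density {ρ : Γ →* GL (Fin N) ℤ_[p]}
    (hρ : Continuous fun σ => (ρ σ : Matrix (Fin N) (Fin N) ℤ_[p]))
    {A : Γ →* Module.End ℚ_[p] E} (hA : Rep ρ A) {n : ℕ} (hn : n ≠ 0) (σa : Γ) :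
    ∃ u, u⁻¹ ∈ U1 ρ ∧ Good ρ A n (u * σa) := by
  obtain ⟨⟨u₀, hu₀⟩, -, hmin⟩ := WellFounded.has_min
    (measure (fun u : U1 ρ => Module.finrank ℚ_[p] (Fix A (HH ρ n (u * σa) : Set Γ)))).wf
    Set.univ ⟨1, trivial⟩
  refine ⟨u₀, (U1 ρ).inv_mem hu₀, ?_⟩
  set σ₀ := u₀ * σa with hσ₀
  set C₀ := Fix A (HH ρ n σ₀ : Set Γ) with hC₀
  set R := Mov A (HH ρ n σ₀ : Set Γ) with hR
  have hc : IsCompl C₀ R := hA.compl (HH ρ n σ₀) inferInstance
  obtain ⟨D, hD, hD0, hDR⟩ := hA.cert n R σ₀ hc.disjoint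
  have hDc := continuous_of_mem ρ hρ hD
  -- nearby elements act trivially
  have hnear : ∀ u ∈ U1 ρ, D (u * σ₀) ≠ 0 → ∀ t ∈ HH ρ n (u * σ₀), ∀ x ∈ C₀, A t x = x := by
    intro u hu hDu t ht x hx
    have hd := hDR _ hDu
    have hle : Module.finrank ℚ_[p] C₀ ≤
        Module.finrank ℚ_[p] (Fix A (HH ρ n (u * σ₀) : Set Γ)) := by
      have h1 := hmin ⟨u * u₀, (U1 ρ).mul_mem hu hu₀⟩ trivial
      have h2 : u * u₀ * σa = u * σ₀ := by rw [hσ₀, mul_assoc]
      simp only [InvImage, WellFoundedRelation.rel] at h1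
      change ¬ (Module.finrank ℚ_[p] (Fix A (HH ρ n (u * u₀ * σa) : Set Γ)) <
        Module.finrank ℚ_[p] (Fix A (HH ρ n (u₀ * σa) : Set Γ))) at h1
      rw [h2] at h1
      exact not_lt.1 h1
    have hsup : Fix A (HH ρ n (u * σ₀) : Set Γ) ⊔ R = ⊤ := by
      apply Submodule.eq_top_of_finrank_eq
      have h1 := Submodule.finrank_sup_add_finrank_inf_eq (Fix A (HH ρ n (u * σ₀) : Set Γ)) R
      rw [hd.eq_bot, finrank_bot, add_zero] at h1
      have h2 := Submodule.finrank_add_eq_of_isCompl hc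
      have h3 := Submodule.finrank_le (Fix A (HH ρ n (u * σ₀) : Set Γ) ⊔ R)
      omega
    have hx' : x ∈ Fix A (HH ρ n (u * σ₀) : Set Γ) ⊔ R := by rw [hsup]; trivial
    obtain ⟨y, hy, r, hr, hyr⟩ := Submodule.mem_sup.1 hx'
    have h1 : A t x - x = A t r - r := by
      rw [← hyr, map_add, hy t ht]
      abel
    have h2 : A t x - x ∈ C₀ := sub_mem (Fix_stable A (HH ρ n σ₀) t hx) hx
    have h3 : A t x - x ∈ R := by
      rw [h1]
      exact sub_mem (Mov_stable A (HH ρ n σ₀) t hr) hr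
    exact sub_eq_zero.1 ((Submodule.disjoint_def.1 hc.disjoint) _ h2 h3)
  -- the kernel of the action on `C₀`
  let K : Subgroup Γ :=
    { carrier := {γ | ∀ x ∈ C₀, A γ x = x}
      one_mem' := fun x _ => by rw [map_one, Module.End.one_apply]
      mul_mem' := by
        intro s t hs ht x hx
        rw [A_mul, ht x hx, hs x hx]
      inv_mem' := by
        intro s hs x hx
        have h1 := A_inv A s x
        rwa [hs x hx] at h1 }
  have hKn : K.Normal := by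
    refine ⟨fun k hk g x hx => ?_⟩
    have h1 := hk _ (Fix_stable A (HH ρ n σ₀) g⁻¹ hx)
    rw [A_mul, A_mul, h1, ← A_mul, mul_inv_cancel, map_one, Module.End.one_apply]
  have hone : D (1 * σ₀) ≠ 0 := by rwa [one_mul]
  have hcommK : ∀ v ∈ U1 ρ, v * σ₀ * v⁻¹ * σ₀⁻¹ ∈ K := by
    intro v hv
    have h1 := hnear 1 (U1 ρ).one_mem hone
    rw [one_mul] at h1
    exact h1 _ (comm_mem_HH ρ n σ₀ hv)
  have hpowK : σ₀ ^ n ∈ K := by
    have h1 := hnear 1 (U1 ρ).one_mem hone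
    rw [one_mul] at h1
    exact h1 _ (pow_mem_HH ρ n σ₀)
  have hsmall : ∀ u ∈ U1 ρ, D (u * σ₀) ≠ 0 → u ∈ K := by
    intro u hu hDu
    have h1 : (u * σ₀) ^ n ∈ K := hnear u hu hDu _ (pow_mem_HH ρ n (u * σ₀))
    have h2 : u ^ n ∈ K := by
      have hcomm : Commute (QuotientGroup.mk' K u) (QuotientGroup.mk' K σ₀) := by
        have h3 : QuotientGroup.mk' K (u * σ₀ * u⁻¹ * σ₀⁻¹) = 1 :=
          (QuotientGroup.eq_one_iff _).2 (hcommK u hu)
        rw [map_mul, map_mul, map_mul, map_inv, map_inv, mul_inv_eq_one, mul_inv_eq_iff_eq_mul] at h3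
        exact h3
      have h4 : QuotientGroup.mk' K (u ^ n) = 1 := by
        have h5 : QuotientGroup.mk' K ((u * σ₀) ^ n) = 1 := (QuotientGroup.eq_one_iff _).2 h1
        have h6 : QuotientGroup.mk' K (σ₀ ^ n) = 1 := (QuotientGroup.eq_one_iff _).2 hpowK
        rw [map_pow, map_mul, hcomm.mul_pow, ← map_pow, ← map_pow, h6, mul_one] at h5
        exact h5
      exact (QuotientGroup.eq_one_iff _).1 h4
    intro x hx
    exact hA.pow u hu n hn x (h2 x hx)
  have hKo : IsOpen (K : Set Γ) := by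
    apply Subgroup.isOpen_of_mem_nhds K (g := 1)
    have h1 : {u : Γ | D (u * σ₀) ≠ 0} ∩ (U1 ρ : Set Γ) ∈ 𝓝 (1 : Γ) := by
      apply IsOpen.mem_nhds
      · exact (isOpen_ne_fun (hDc.comp (continuous_id.mul continuous_const))
          continuous_const).inter (isOpen_U1 ρ hρ)
      · exact ⟨hone, (U1 ρ).one_mem⟩
    exact Filter.mem_of_superset h1 fun u hu => hsmall u hu.2 hu.1
  have hfin : Finite (Γ ⧸ K) := Subgroup.quotient_finite_of_isOpen K hKo
  have hidx : K.index ≠ 0 := by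
    have : K.FiniteIndex := Subgroup.finiteIndex_of_finite_quotient
    exact this.index_ne_zero
  intro x hx u hu
  obtain ⟨k, hk, -, hmem⟩ := Subgroup.exists_pow_mem_of_index_ne_zero hidx u
  exact hA.pow u hu k (by omega) x (hmem x hx)

/-- **Almost every element is good.** -/
theorem Rep.null [MeasurableSpace Γ] [BorelSpace Γ] (μ : Measure Γ) [μ.IsHaarMeasure]
    {ρ : Γ →* GL (Fin N) ℤ_[p]}
    (hρ : Continuous fun σ => (ρ σ : Matrix (Fin N) (Fin N) ℤ_[p]))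
    {A : Γ →* Module.End ℚ_[p] E} (hA : Rep ρ A) {n : ℕ} (hn : n ≠ 0) :
    IsClosed {σ | ¬ Good ρ A n σ} ∧ μ {σ | ¬ Good ρ A n σ} = 0 := by
  set 𝒟 : Set (Γ → ℚ_[p]) := {D | D ∈ Pol ρ ∧
    ∀ σ, D σ ≠ 0 → Disjoint (Fix A (HH ρ n σ : Set Γ)) (Mov A (U1 ρ : Set Γ))} with h𝒟
  have hB : {σ | ¬ Good ρ A n σ} = ⋂ D ∈ 𝒟, {σ | D σ = 0} := by
    ext σ
    simp only [Set.mem_ofPred_eq, Set.mem_iInter]
    constructor
    · intro h D hD
      by_contra h0
      exact h ((hA.good_iff n σ).2 (hD.2 σ h0))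
    · intro h hg
      obtain ⟨D, hD, hD0, hD1⟩ := hA.cert n _ σ ((hA.good_iff n σ).1 hg)
      exact hD0 (h D ⟨hD, hD1⟩)
  have hclosed : IsClosed {σ | ¬ Good ρ A n σ} := by
    rw [hB]
    refine isClosed_biInter fun D hD => ?_
    exact isClosed_eq (continuous_of_mem ρ hρ hD.1) continuous_const
  refine ⟨hclosed, ?_⟩
  apply null_of_dichotomy μ hclosed (U1 ρ : Set Γ)
  · intro g hg σ
    by_cases hall : ∀ k : ℕ, g ^ k * σ ∈ {σ | ¬ Good ρ A n σ}
    · exact Or.inr hall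
    · left
      push Not at hall
      obtain ⟨k₀, hk₀⟩ := hall
      rw [hB] at hk₀ ⊢
      simp only [Set.mem_iInter, Set.mem_ofPred_eq, not_forall] at hk₀
      obtain ⟨D, hD, hD0⟩ := hk₀
      by_contra hinf
      have h1 : {k : ℕ | D (g ^ k * σ) = 0}.Infinite := by
        refine Set.Infinite.mono ?_ hinf
        intro k hk
        simp only [Set.mem_ofPred_eq, Set.mem_iInter] at hk
        exact hk D hD
      exact hD0 ((an_of_mem ρ hD.1 hg σ).zero_of_infinite h1 k₀)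
  · intro σ
    obtain ⟨u, hu, hg⟩ := hA.density hρ hn σ
    exact ⟨u, hu, fun h => h hg⟩

omit [CompactSpace Γ] [IsTopologicalGroup Γ] [TopologicalSpace Γ] in
theorem HH_le (ρ : Γ →* GL (Fin N) ℤ_[p]) {n : ℕ} {σ : Γ} (h : σ ^ n ∈ U1 ρ) :
    HH ρ n σ ≤ Subgroup.normalClosure {σ} ⊓ U1 ρ := by
  have hσ : σ ∈ Subgroup.normalClosure {σ} := Subgroup.subset_normalClosure rfl
  have hN : (Subgroup.normalClosure {σ}).Normal := Subgroup.normalClosure_normal
  have hn : (Subgroup.normalClosure {σ} ⊓ U1 ρ).Normal := inferInstance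
  apply Subgroup.normalClosure_le_normal
  intro t ht
  rcases ht with ht | ⟨v, hv, rfl⟩
  · rw [Set.mem_singleton_iff] at ht
    rw [ht]
    exact ⟨Subgroup.pow_mem _ hσ n, h⟩
  · refine ⟨Subgroup.mul_mem _ (hN.conj_mem σ hσ v) (Subgroup.inv_mem _ hσ), ?_⟩
    have h1 : v * σ * v⁻¹ * σ⁻¹ = v * (σ * v⁻¹ * σ⁻¹) := by group
    rw [h1]
    exact (U1 ρ).mul_mem hv ((inferInstance : (U1 ρ).Normal).conj_mem _ ((U1 ρ).inv_mem hv) σ)

/-- vectors fixed by an open part of the normal closure of a good element -/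
theorem Rep.fixed_of_good {ρ : Γ →* GL (Fin N) ℤ_[p]} {A : Γ →* Module.End ℚ_[p] E}
    (hA : Rep ρ A) {n : ℕ} {σ : Γ} (hn : σ ^ n ∈ U1 ρ) (hg : Good ρ A n σ) (V : Subgroup Γ)
    (hV : IsOpen (V : Set Γ)) {x : E}
    (hx : ∀ t ∈ Subgroup.normalClosure {σ}, t ∈ V → A t x = x) : ∀ u ∈ U1 ρ, A u x = x := by
  have hfin : Finite (Γ ⧸ V) := Subgroup.quotient_finite_of_isOpen V hV
  have hidx : V.index ≠ 0 := by
    have : V.FiniteIndex := Subgroup.finiteIndex_of_finite_quotient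
    exact this.index_ne_zero
  apply hg
  intro t ht
  have h1 := HH_le ρ hn ht
  obtain ⟨k, hk, -, hmem⟩ := Subgroup.exists_pow_mem_of_index_ne_zero hidx t
  exact hA.pow t h1.2 k (by omega) x (hx _ (Subgroup.pow_mem _ h1.1 k) hmem)

end Pool.Agent.H850.RG
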