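import Pool.Agent.H850.RG.ConjGen

/-!
# Semisimplicity over the normal closure of a random element
-/

set_option autoImplicit false
set_option linter.unusedSectionVars false

namespace Pool.Agent.H850.RG

open Pool.Agent.H850.TF MeasureTheory Topology

section General

variable {K : Type} [Field K] {Γ : Type} [Group Γ]
variable {X : Type} [AddCommGroup X] [Module K X]
variable {X' : Type} [AddCommGroup X'] [Module K X']

theorem SS.congr {r : Γ →* Module.End K X} {r' : Γ →* Module.End K X'} {S : Set Γ}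
    (f : X ≃ₗ[K] X') (hf : ∀ s ∈ S, ∀ x, f (r s x) = r' s (f x)) (h : SS r S) : SS r' S := by
  intro W hW
  obtain ⟨W', hW', hc⟩ := h (W.comap f.toLinearMap) (by
    intro s hs x hx
    change f (r s x) ∈ W
    rw [hf s hs]
    exact hW s hs _ hx)
  refine ⟨W'.map f.toLinearMap, ?_, ?_⟩
  · rintro s hs _ ⟨x, hx, rfl⟩
    refine ⟨r s x, hW' s hs x hx, ?_⟩
    exact hf s hs x
  · have h1 : W = (W.comap f.toLinearMap).map f.toLinearMap :=
      (Submodule.map_comap_eq_of_surjective f.surjective W).symm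
    rw [h1]
    exact (OrderIso.isCompl_iff (Submodule.orderIsoMapComap f)).1 hc

/-- restriction to a stable subspace -/
def subr (r : Γ →* Module.End K X) (W : Submodule K X) (hW : ∀ s, ∀ x ∈ W, r s x ∈ W) :
    Γ →* Module.End K W where
  toFun s := (r s).restrict (hW s)
  map_one' := by
    apply LinearMap.ext
    intro x
    apply Subtype.ext
    simp
  map_mul' := by
    intro s t
    apply LinearMap.ext
    intro x
    apply Subtype.ext
    simp

theorem subr_apply (r : Γ →* Module.End K X) (W : Submodule K X)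
    (hW : ∀ s, ∀ x ∈ W, r s x ∈ W) (s : Γ) (x : W) : ((subr r W hW s x : W) : X) = r s x := rfl

theorem SS.subr {r : Γ →* Module.End K X} {S : Set Γ} (h : SS r S) (W : Submodule K X)
    (hW : ∀ s, ∀ x ∈ W, r s x ∈ W) : SS (subr r W hW) S := by
  intro V hV
  obtain ⟨V', hV', hc⟩ := h (V.map W.subtype) (by
    rintro s hs _ ⟨x, hx, rfl⟩
    exact ⟨_, hV s hs x hx, rfl⟩)
  refine ⟨V'.comap W.subtype, ?_, ?_, ?_⟩
  · intro s hs x hx
    exact hV' s hs _ hx
  · rw [Submodule.disjoint_def]
    intro x hx hx'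
    apply Subtype.ext
    exact (Submodule.disjoint_def.1 hc.disjoint) (x : X) ⟨x, hx, rfl⟩ hx'
  · rw [codisjoint_iff, eq_top_iff]
    intro x _
    have h1 : (x : X) ∈ V.map W.subtype ⊔ V' := by rw [hc.sup_eq_top]; trivial
    obtain ⟨_, ⟨y, hy, rfl⟩, z, hz, hyz⟩ := Submodule.mem_sup.1 h1
    have hzW : z ∈ W := by
      have h2 : z = (x : X) - (y : X) := by
        rw [← hyz]
        simp
      rw [h2]
      exact W.sub_mem x.2 y.2
    have h3 : x = y + ⟨z, hzW⟩ := by
      apply Subtype.ext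
      rw [← hyz]
      rfl
    rw [h3]
    exact Submodule.add_mem_sup hy hz

/-- a direct sum of two semisimple representations is semisimple -/
theorem SS.of_isCompl {r : Γ →* Module.End K X} {S : Set Γ} (W Y : Submodule K X)
    (hWY : IsCompl W Y) (hW : ∀ s, ∀ x ∈ W, r s x ∈ W) (hY : ∀ s, ∀ x ∈ Y, r s x ∈ Y)
    (h1 : SS (Pool.Agent.H850.RG.subr r W hW) S) (h2 : SS (Pool.Agent.H850.RG.subr r Y hY) S) :
    SS r S := by
  intro Z hZ
  obtain ⟨W1, hW1, hWc⟩ := h1 (Z.comap W.subtype) (fun s hs x hx => hZ s hs _ hx)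
  -- the projection of `Z` to `Y`
  set Z2 : Submodule K Y := (Z ⊔ W).comap Y.subtype with hZ2
  obtain ⟨Y1, hY1, hYc⟩ := h2 Z2 (by
    intro s hs x hx
    change r s (x : X) ∈ Z ⊔ W
    obtain ⟨z, hz, w, hw, hzw⟩ := Submodule.mem_sup.1 (show (x : X) ∈ Z ⊔ W from hx)
    rw [← hzw, map_add]
    exact Submodule.add_mem_sup (hZ s hs z hz) (hW s w hw))
  refine ⟨W1.map W.subtype ⊔ Y1.map Y.subtype, ?_, ?_, ?_⟩
  · intro s hs x hx
    obtain ⟨_, ⟨a, ha, rfl⟩, _, ⟨b, hb, rfl⟩, rfl⟩ := Submodule.mem_sup.1 hx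
    rw [map_add]
    exact Submodule.add_mem_sup ⟨_, hW1 s hs a ha, rfl⟩ ⟨_, hY1 s hs b hb, rfl⟩
  · rw [Submodule.disjoint_def]
    intro x hx hx'
    obtain ⟨_, ⟨a, ha, rfl⟩, _, ⟨b, hb, rfl⟩, hab⟩ := Submodule.mem_sup.1 hx'
    have hb0 : b = 0 := by
      refine (Submodule.disjoint_def.1 hYc.disjoint) b ?_ hb
      change (b : X) ∈ Z ⊔ W
      have h3 : (b : X) = x + -(a : X) := by
        rw [← hab]
        simp
      rw [h3]
      exact Submodule.add_mem_sup hx (W.neg_mem a.2)
    rw [hb0, map_zero, add_zero] at hab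
    have ha0 : a = 0 := by
      refine (Submodule.disjoint_def.1 hWc.disjoint) a ?_ ha
      change (a : X) ∈ Z
      have h4 : (a : X) = x := hab
      rw [h4]
      exact hx
    rw [← hab, ha0, map_zero]
  · rw [codisjoint_iff, eq_top_iff]
    intro x _
    have h3 : x ∈ W ⊔ Y := by rw [hWY.sup_eq_top]; trivial
    obtain ⟨w, hw, y, hy, rfl⟩ := Submodule.mem_sup.1 h3
    have h4 : (⟨y, hy⟩ : Y) ∈ Z2 ⊔ Y1 := by rw [hYc.sup_eq_top]; trivial
    obtain ⟨y2, hy2, y1, hy1, hyy⟩ := Submodule.mem_sup.1 h4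
    obtain ⟨z, hz, w', hw', hzw⟩ := Submodule.mem_sup.1 (show (y2 : X) ∈ Z ⊔ W from hy2)
    have h5 : (⟨w + w', W.add_mem hw hw'⟩ : W) ∈ Z.comap W.subtype ⊔ W1 := by
      rw [hWc.sup_eq_top]; trivial
    obtain ⟨z', hz', w1, hw1, hww⟩ := Submodule.mem_sup.1 h5
    have h6 : w + y = (z + (z' : X)) + ((w1 : X) + (y1 : X)) := by
      have e1 : y = (y2 : X) + (y1 : X) := (congrArg Subtype.val hyy).symm
      have e2 : (z' : X) + (w1 : X) = w + w' := congrArg Subtype.val hww
      rw [e1, ← hzw]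
      have e3 : (w1 : X) = w + w' - (z' : X) := by rw [← e2]; abel
      rw [e3]
      abel
    rw [h6]
    refine Submodule.add_mem_sup (Z.add_mem hz hz') (Submodule.add_mem_sup ?_ ?_)
    · exact ⟨w1, hw1, rfl⟩
    · exact ⟨y1, hy1, rfl⟩

/-- the block diagonal part of a representation with stable subspace the range of `P` -/
def gr (r : Γ →* Module.End K X) (P : Module.End K X) (hP : P * P = P)
    (hst : ∀ s, P * r s * P = r s * P) : Γ →* Module.End K X where
  toFun s := r s - P * r s + r s * P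
  map_one' := by
    rw [map_one, mul_one, one_mul]
    abel
  map_mul' := by
    intro s t
    have h1 : ∀ u Z, P * (r u * (P * Z)) = r u * (P * Z) := by
      intro u Z
      rw [← mul_assoc, ← mul_assoc, hst, mul_assoc]
    have h2 : ∀ u, P * (r u * P) = r u * P := by
      intro u
      rw [← mul_assoc, hst]
    have h3 : ∀ Z, P * (P * Z) = P * Z := by
      intro Z
      rw [← mul_assoc, hP]
    have h4 : P * (r s * (r t * P)) = r s * (r t * P) := by
      have := hst (s * t)
      rw [map_mul] at this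
      simpa only [mul_assoc] using this
    have h5 : ∀ u, P * r u * P = r u * P := hst
    rw [map_mul]
    simp only [mul_add, add_mul, mul_sub, sub_mul, mul_assoc, h1, h2, h3, h4]
    abel

variable {r : Γ →* Module.End K X} {P : Module.End K X} {hP : P * P = P}
  {hst : ∀ s, P * r s * P = r s * P}

theorem gr_apply (s : Γ) : gr r P hP hst s = r s - P * r s + r s * P := rfl

theorem gr_mul_P (s : Γ) : gr r P hP hst s * P = r s * P := by
  rw [gr_apply, add_mul, sub_mul, hst, mul_assoc (r s), hP]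
  abel

theorem P_mul_gr (s : Γ) : P * gr r P hP hst s = r s * P := by
  rw [gr_apply, mul_add, mul_sub, ← mul_assoc, hP, ← mul_assoc, hst]
  abel

theorem gr_comm (s : Γ) : gr r P hP hst s * P = P * gr r P hP hst s := by
  rw [gr_mul_P, P_mul_gr]

/-- the cocycle measuring the difference -/
def bb (r : Γ →* Module.End K X) (P : Module.End K X) (hP : P * P = P)
    (hst : ∀ s, P * r s * P = r s * P) (s : Γ) : Module.End K X :=
  r s * gr r P hP hst s⁻¹ - 1

theorem gr_mul_inv (s : Γ) : gr r P hP hst s * gr r P hP hst s⁻¹ = 1 := by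
  rw [← map_mul, mul_inv_cancel, map_one]

theorem gr_inv_mul (s : Γ) : gr r P hP hst s⁻¹ * gr r P hP hst s = 1 := by
  rw [← map_mul, inv_mul_cancel, map_one]

theorem bb_eq (s : Γ) : bb r P hP hst s = (P * r s - r s * P) * gr r P hP hst s⁻¹ := by
  unfold bb
  have h1 : P * r s - r s * P = r s - gr r P hP hst s := by
    rw [gr_apply]
    abel
  rw [h1, sub_mul, gr_mul_inv]

theorem bb_zero_iff (s : Γ) : bb r P hP hst s = 0 ↔ r s = gr r P hP hst s := by
  unfold bb
  rw [sub_eq_zero]
  constructor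
  · intro h
    have h1 := congrArg (· * gr r P hP hst s) h
    simp only [mul_assoc, gr_inv_mul, mul_one, one_mul] at h1
    exact h1
  · intro h
    rw [h, gr_mul_inv]

theorem P_bb (s : Γ) : P * bb r P hP hst s = bb r P hP hst s := by
  rw [bb_eq, ← mul_assoc, mul_sub, ← mul_assoc, hP, ← mul_assoc, hst]

theorem bb_P (s : Γ) : bb r P hP hst s * P = 0 := by
  rw [bb_eq, mul_assoc, gr_comm, ← mul_assoc, sub_mul, hst, mul_assoc (r s), hP, sub_self,
    zero_mul]

theorem r_eq (s : Γ) : r s = (1 + bb r P hP hst s) * gr r P hP hst s := by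
  unfold bb
  rw [add_sub_cancel, mul_assoc, gr_inv_mul, mul_one]

end General

section Coc

variable {p : ℕ} [Fact p.Prime] {Γ : Type} [Group Γ]
variable {X : Type} [AddCommGroup X] [Module ℚ_[p] X]
variable {r : Γ →* Module.End ℚ_[p] X} {P : Module.End ℚ_[p] X} {hP : P * P = P}
  {hst : ∀ s, P * r s * P = r s * P}

theorem bb_mul (s t : Γ) : bb r P hP hst (s * t) =
    bb r P hP hst s + cjr (gr r P hP hst) s (bb r P hP hst t) := by
  set g := gr r P hP hst with hg
  set b := bb r P hP hst with hb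
  have h1 : 1 + b (s * t) = r s * r t * g (s * t)⁻¹ := by
    rw [hb, ← map_mul]
    unfold bb
    abel
  have h2 : r s * r t * g (s * t)⁻¹ = (1 + b s) * (1 + cjr g s (b t)) := by
    have h3 : r s * r t * g (s * t)⁻¹ = (1 + b s) * (g s * (1 + b t) * g s⁻¹) := by
      conv_lhs => rw [r_eq (hP := hP) (hst := hst) s, r_eq (hP := hP) (hst := hst) t]
      rw [mul_inv_rev, map_mul]
      simp only [mul_assoc]
      rw [← mul_assoc (gr r P hP hst t), ← hg]
      have h4 : g t * g t⁻¹ = 1 := gr_mul_inv t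
      rw [h4, one_mul]
    rw [h3]
    congr 1
    rw [cjr_apply, mul_add, add_mul, mul_one, r_mul_inv]
  have h5 : b s * cjr g s (b t) = 0 := by
    have h7 : g s * P = P * g s := gr_comm s
    have h8 : P * b t = b t := P_bb t
    have h9 : b s * P = 0 := bb_P s
    rw [cjr_apply]
    calc b s * (g s * b t * g s⁻¹) = b s * (g s * (P * b t) * g s⁻¹) := by rw [h8]
      _ = b s * (g s * P) * (b t * g s⁻¹) := by simp only [mul_assoc]
      _ = b s * (P * g s) * (b t * g s⁻¹) := by rw [h7]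
      _ = (b s * P) * (g s * (b t * g s⁻¹)) := by simp only [mul_assoc]
      _ = 0 := by rw [h9, zero_mul]
  have h6 : 1 + b (s * t) = 1 + (b s + cjr g s (b t)) := by
    rw [h1, h2, mul_add, mul_one, add_mul, one_mul, h5]
    abel
  exact add_left_cancel h6

theorem bb_one : bb r P hP hst 1 = 0 := by
  unfold bb
  rw [inv_one, map_one, map_one, mul_one, sub_self]

end Coc

section Main

variable {N : ℕ} {p : ℕ} [Fact p.Prime] {Γ : Type} [Group Γ]
variable {X : Type} [AddCommGroup X] [Module ℚ_[p] X] [FiniteDimensional ℚ_[p] X]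
variable {r : Γ →* Module.End ℚ_[p] X} {P : Module.End ℚ_[p] X} {hP : P * P = P}
  {hst : ∀ s, P * r s * P = r s * P}
variable {ρ : Γ →* GL (Fin N) ℤ_[p]}

/-- a semisimple restriction gives an equivariant splitting -/
theorem exists_split (H : Subgroup Γ) (h : SS r (H : Set Γ)) :
    ∃ s : Module.End ℚ_[p] X, P * s = s ∧ s * P = 0 ∧
      ∀ t ∈ H, r t * (1 + s) = (1 + s) * gr r P hP hst t := by
  have hW : ∀ t ∈ (H : Set Γ), ∀ x ∈ LinearMap.range P, r t x ∈ LinearMap.range P := by
    rintro t - _ ⟨x, rfl⟩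
    refine ⟨r t (P x), ?_⟩
    have := congrArg (fun f => f x) (hst t)
    exact this
  obtain ⟨C, hC, hc⟩ := h (LinearMap.range P) hW
  let Q : Module.End ℚ_[p] X := (LinearMap.range P).subtype ∘ₗ
    (LinearMap.range P).projectionOnto C hc
  have hQP : Q * P = P := by
    apply LinearMap.ext
    intro x
    change (((LinearMap.range P).projectionOnto C hc (P x) : LinearMap.range P) : X) = P x
    have h1 := Submodule.projectionOnto_apply_left hc (⟨P x, ⟨x, rfl⟩⟩ : LinearMap.range P)
    exact congrArg Subtype.val h1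
  have hPQ : P * Q = Q := by
    apply LinearMap.ext
    intro x
    change P (((LinearMap.range P).projectionOnto C hc x : LinearMap.range P) : X) =
      (((LinearMap.range P).projectionOnto C hc x : LinearMap.range P) : X)
    obtain ⟨y, hy⟩ := ((LinearMap.range P).projectionOnto C hc x).2
    rw [← hy]
    exact congrArg (fun f => f y) hP
  have hcomm : ∀ t ∈ H, Q * r t = r t * Q := by
    intro t ht
    apply LinearMap.ext
    intro x
    have hx : x ∈ LinearMap.range P ⊔ C := by rw [hc.sup_eq_top]; trivial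
    obtain ⟨w, hw, c, hc', rfl⟩ := Submodule.mem_sup.1 hx
    have e1 : ∀ w ∈ LinearMap.range P, Q w = w := by
      intro w hw
      have h1 := Submodule.projectionOnto_apply_left hc (⟨w, hw⟩ : LinearMap.range P)
      exact congrArg Subtype.val h1
    have e2 : ∀ c ∈ C, Q c = 0 := by
      intro c hc'
      have h1 := Submodule.projectionOnto_apply_right hc (⟨c, hc'⟩ : C)
      exact congrArg Subtype.val h1
    change Q (r t (w + c)) = r t (Q (w + c))
    rw [map_add, map_add, map_add, e1 w hw, e2 c hc', e1 _ (hW t ht w hw), e2 _ (hC t ht c hc'),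
      add_zero, add_zero]
  refine ⟨P - Q, ?_, ?_, ?_⟩
  · rw [mul_sub, hP, hPQ]
  · rw [sub_mul, hP, hQP, sub_self]
  · intro t ht
    have h1 : Q * (r t * P) = r t * P := by
      rw [← hst t, ← mul_assoc, ← mul_assoc, hQP]
    have h2 : P * (r t * P) = r t * P := by
      rw [← mul_assoc, hst]
    have h3 : Q * (P * r t) = P * r t := by
      rw [← mul_assoc, hQP]
    have h4 : P * (P * r t) = P * r t := by
      rw [← mul_assoc, hP]
    rw [gr_apply]
    simp only [mul_add, add_mul, mul_sub, sub_mul, mul_one, one_mul, h1, h2, h3, h4, hcomm t ht]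
    abel

/-- a cocycle which is a coboundary -/
theorem bb_of_split {s : Module.End ℚ_[p] X} (hs : P * s = s) {t : Γ}
    (h : r t * (1 + s) = (1 + s) * gr r P hP hst t) :
    bb r P hP hst t = s - cjr (gr r P hP hst) t s := by
  set g := gr r P hP hst with hg
  set b := bb r P hP hst with hb
  have h1 : (1 + b t) * (1 + cjr g t s) = 1 + s := by
    have h2 : (1 + b t) * (1 + cjr g t s) = ((1 + b t) * g t) * (1 + s) * g t⁻¹ := by
      rw [cjr_apply]
      have h3 : 1 + g t * s * g t⁻¹ = g t * (1 + s) * g t⁻¹ := by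
        rw [mul_add, add_mul, mul_one, r_mul_inv]
      rw [h3]
      simp only [mul_assoc]
    have h4 : (1 + b t) * g t = r t := (r_eq t).symm
    rw [h2, h4, h, mul_assoc, r_mul_inv, mul_one]
  have h5 : b t * cjr g t s = 0 := by
    have h7 : g t * P = P * g t := gr_comm t
    have h9 : b t * P = 0 := bb_P t
    rw [cjr_apply]
    calc b t * (g t * s * g t⁻¹) = b t * (g t * (P * s) * g t⁻¹) := by rw [hs]
      _ = b t * (g t * P) * (s * g t⁻¹) := by simp only [mul_assoc]
      _ = b t * (P * g t) * (s * g t⁻¹) := by rw [h7]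
      _ = (b t * P) * (g t * (s * g t⁻¹)) := by simp only [mul_assoc]
      _ = 0 := by rw [h9, zero_mul]
  rw [mul_add, mul_one, add_mul, one_mul, h5, add_zero] at h1
  have h6 : b t + cjr g t s = s := by
    have h8 : 1 + (b t + cjr g t s) = 1 + s := by
      rw [← h1]
      abel
    exact add_left_cancel h8
  exact eq_sub_of_add_eq h6

/-- a cocycle vanishing on the normal closure of a good element has small values -/
theorem bb_mem {n : ℕ} {σ₁ : Γ} (hn : σ₁ ^ n ∈ U1 ρ)
    (hg : Good ρ (cjr (gr r P hP hst)) n σ₁) (c : Γ → Module.End ℚ_[p] X)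
    (hc : ∀ s t, c (s * t) = c s + cjr (gr r P hP hst) s (c t))
    (h0 : ∀ t ∈ Subgroup.normalClosure {σ₁}, c t = 0) (γ : Γ) :
    c γ ∈ Fix (cjr (gr r P hP hst)) (U1 ρ : Set Γ) := by
  have hN : (Subgroup.normalClosure {σ₁}).Normal := Subgroup.normalClosure_normal
  apply hg
  intro h hh
  have hh' : h ∈ Subgroup.normalClosure {σ₁} := (HH_le ρ hn hh).1
  have h1 : γ⁻¹ * h * γ ∈ Subgroup.normalClosure {σ₁} := by
    have := hN.conj_mem h hh' γ⁻¹
    rwa [inv_inv] at this
  have h2 : c (h * γ) = cjr (gr r P hP hst) h (c γ) := by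
    rw [hc, h0 h hh', zero_add]
  have h3 : c (h * γ) = c γ := by
    have h4 : h * γ = γ * (γ⁻¹ * h * γ) := by group
    rw [h4, hc, h0 _ h1, map_zero, add_zero]
  rw [← h2, h3]

/-- a second good element -/
theorem bb_zero {n : ℕ} {σ : Γ} (hn : σ ^ n ∈ U1 ρ)
    (hrep : Rep ρ (cjr (gr r P hP hst)))
    (hg : Good ρ (cjr (gr r P hP hst)) n σ)
    (hb : ∀ γ, bb r P hP hst γ ∈ Fix (cjr (gr r P hP hst)) (U1 ρ : Set Γ))
    (hss : SS r (Subgroup.normalClosure {σ} : Set Γ)) (f : Γ × Option (U1 ρ)) :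
    bb r P hP hst (pat ρ n f σ) = 0 := by
  have hN : (Subgroup.normalClosure {σ}).Normal := Subgroup.normalClosure_normal
  obtain ⟨s, hs, -, hsp⟩ := exists_split (hP := hP) (hst := hst) _ hss
  have hbs := fun t ht => bb_of_split (hP := hP) (hst := hst) hs (hsp t ht)
  let c : Γ → Module.End ℚ_[p] X := fun γ =>
    bb r P hP hst γ - s + cjr (gr r P hP hst) γ s
  have hcc : ∀ x y, c (x * y) = c x + cjr (gr r P hP hst) x (c y) := by
    intro x y
    simp only [c]
    rw [bb_mul, A_mul, map_add, map_sub]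
    abel
  have hc0 : ∀ t ∈ Subgroup.normalClosure {σ}, c t = 0 := by
    intro t ht
    simp only [c]
    rw [hbs t ht]
    abel
  have hcm := bb_mem hn hg c hcc hc0
  have hcU := hrep.compl (U1 ρ) inferInstance
  have hsF : s ∈ Fix (cjr (gr r P hP hst)) (U1 ρ : Set Γ) := by
    intro u hu
    have h1 : cjr (gr r P hP hst) u s - s ∈ Fix (cjr (gr r P hP hst)) (U1 ρ : Set Γ) := by
      have h2 : cjr (gr r P hP hst) u s - s = c u - bb r P hP hst u := by
        simp only [c]
        abel
      rw [h2]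
      exact Submodule.sub_mem _ (hcm u) (hb u)
    have h3 : cjr (gr r P hP hst) u s - s ∈ Mov (cjr (gr r P hP hst)) (U1 ρ : Set Γ) :=
      Submodule.subset_span ⟨u, hu, s, rfl⟩
    exact sub_eq_zero.1 ((Submodule.disjoint_def.1 hcU.disjoint) _ h1 h3)
  have hmem : pat ρ n f σ ∈ HH ρ n σ := by
    rcases f with ⟨g, _ | v⟩
    · exact (inferInstance : (HH ρ n σ).Normal).conj_mem _ (pow_mem_HH ρ n σ) g
    · exact (inferInstance : (HH ρ n σ).Normal).conj_mem _ (comm_mem_HH ρ n σ v.2) g
  have hmem2 := HH_le ρ hn hmem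
  rw [hbs _ hmem2.1, hsF _ hmem2.2, sub_self]

theorem MC.sub {B B' : Γ → Module.End ℚ_[p] X} (hB : MC ρ B)
    (hB' : MC ρ B') : MC ρ (fun σ => B σ - B' σ) := by
  intro l x
  have h1 : (fun σ => l ((B σ - B' σ) x)) = (fun σ => l (B σ x)) - fun σ => l (B' σ x) := by
    funext σ
    simp
  rw [h1]
  exact (Pol ρ).sub_mem (hB l x) (hB' l x)

theorem pat_MC' {A : Γ →* Module.End ℚ_[p] X} (h0 : MC ρ fun σ => A σ)
    (n : ℕ) (f : Γ × Option (U1 ρ)) : MC ρ (fun σ => A (pat ρ n f σ)) := by
  rcases f with ⟨g, _ | v⟩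
  · have h1 : (fun σ => A (pat ρ n (g, none) σ)) = fun σ => A g * A σ ^ n * A g⁻¹ := by
      funext σ
      simp only [pat, map_mul, map_pow]
    rw [h1]
    exact ((MC.const ρ _).mul (h0.pow n)).mul (MC.const ρ _)
  · have h1 : (fun σ => A (pat ρ n (g, some v) σ)) =
        fun σ => A g * (A v * A σ * A (v : Γ)⁻¹ * A σ⁻¹) * A g⁻¹ := by
      funext σ
      simp only [pat, map_mul]
    rw [h1]
    exact ((MC.const ρ _).mul ((((MC.const ρ _).mul h0).mul (MC.const ρ _)).mul h0.inv)).mul
      (MC.const ρ _)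

theorem gr_MC (hr : MC ρ fun σ => r σ) : MC ρ fun σ => gr r P hP hst σ :=
  (hr.sub ((MC.const ρ P).mul hr)).add (hr.mul (MC.const ρ P))

variable [TopologicalSpace Γ] [IsTopologicalGroup Γ] [CompactSpace Γ]
  [MeasurableSpace Γ] [BorelSpace Γ]

omit [CompactSpace Γ] [IsTopologicalGroup Γ] [BorelSpace Γ] [Group Γ] in
/-- the property holds outside a closed null set -/
def CN (μ : Measure Γ) (Q : Γ → Prop) : Prop :=
  ∃ B : Set Γ, IsClosed B ∧ μ B = 0 ∧ ∀ σ, σ ∉ B → Q σ

omit [CompactSpace Γ] [IsTopologicalGroup Γ] [BorelSpace Γ] [Group Γ] in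
theorem CN.and {μ : Measure Γ} {Q Q' : Γ → Prop} (h : CN μ Q) (h' : CN μ Q') :
    CN μ fun σ => Q σ ∧ Q' σ := by
  obtain ⟨B, hB, hB0, h1⟩ := h
  obtain ⟨B', hB', hB0', h1'⟩ := h'
  refine ⟨B ∪ B', hB.union hB', measure_union_null hB0 hB0', fun σ hσ => ?_⟩
  exact ⟨h1 σ fun h => hσ (Or.inl h), h1' σ fun h => hσ (Or.inr h)⟩

omit [CompactSpace Γ] [IsTopologicalGroup Γ] [BorelSpace Γ] [Group Γ] in
theorem CN.mono {μ : Measure Γ} {Q Q' : Γ → Prop} (h : CN μ Q) (h' : ∀ σ, Q σ → Q' σ) :
    CN μ Q' := by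
  obtain ⟨B, hB, hB0, h1⟩ := h
  exact ⟨B, hB, hB0, fun σ hσ => h' σ (h1 σ hσ)⟩

omit [CompactSpace Γ] [IsTopologicalGroup Γ] [BorelSpace Γ] [Group Γ] in
theorem CN.of_forall {μ : Measure Γ} {Q : Γ → Prop} (h : ∀ σ, Q σ) : CN μ Q :=
  ⟨∅, isClosed_empty, measure_empty, fun σ _ => h σ⟩

omit [CompactSpace Γ] [IsTopologicalGroup Γ] [BorelSpace Γ] [Group Γ] in
theorem CN.ae {μ : Measure Γ} {Q : Γ → Prop} (h : CN μ Q) : ∀ᵐ σ ∂μ, Q σ := by
  obtain ⟨B, hB, hB0, h1⟩ := h
  rw [ae_iff]
  refine measure_mono_null (fun σ hσ => ?_) hB0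
  by_contra hB'
  exact hσ (h1 σ hB')

/-- the set of elements killing the cocycle on their patterns is null -/
theorem null_bb (μ : Measure Γ) [μ.IsHaarMeasure]
    (hρ : Continuous fun σ => (ρ σ : Matrix (Fin N) (Fin N) ℤ_[p]))
    (hr : MC ρ fun σ => r σ) {n : ℕ} (hn : n ≠ 0)
    (hb : ∀ γ, bb r P hP hst γ ∈ Fix (cjr (gr r P hP hst)) (U1 ρ : Set Γ))
    (hne : ¬ ∀ u ∈ U1 ρ, bb r P hP hst u = 0) :
    IsClosed {σ | ∀ f : Γ × Option (U1 ρ), bb r P hP hst (pat ρ n f σ) = 0} ∧
    μ {σ | ∀ f : Γ × Option (U1 ρ), bb r P hP hst (pat ρ n f σ) = 0} = 0 := by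
  set b := bb r P hP hst with hbdef
  set cj' := cjr (gr r P hP hst) with hcj
  -- the polynomial functions
  let D : (Γ × Option (U1 ρ)) → Module.Dual ℚ_[p] X → X → Γ → ℚ_[p] := fun f l x σ =>
    l ((r (pat ρ n f σ) - gr r P hP hst (pat ρ n f σ)) x)
  have hD : ∀ f l x, D f l x ∈ Pol ρ := fun f l x =>
    ((pat_MC' hr n f).sub (pat_MC' (gr_MC (hP := hP) (hst := hst) hr) n f)) l x
  have hiff : ∀ f σ, b (pat ρ n f σ) = 0 ↔ ∀ l x, D f l x σ = 0 := by
    intro f σ
    rw [hbdef, bb_zero_iff, ← sub_eq_zero]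
    constructor
    · intro h l x
      change l ((r (pat ρ n f σ) - gr r P hP hst (pat ρ n f σ)) x) = 0
      rw [h]
      simp
    · intro h
      apply LinearMap.ext
      intro x
      exact (Module.forall_dual_apply_eq_zero_iff ℚ_[p] _).1 fun l => h l x
  have hset : {σ | ∀ f : Γ × Option (U1 ρ), b (pat ρ n f σ) = 0} =
      ⋂ (f) (l) (x), {σ | D f l x σ = 0} := by
    ext σ
    simp only [Set.mem_iInter, Set.mem_ofPred_eq]
    exact forall_congr' fun f => hiff f σ
  have hclosed : IsClosed {σ | ∀ f : Γ × Option (U1 ρ), b (pat ρ n f σ) = 0} := by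
    rw [hset]
    refine isClosed_iInter fun f => isClosed_iInter fun l => isClosed_iInter fun x => ?_
    exact isClosed_eq (continuous_of_mem ρ hρ (hD f l x)) continuous_const
  refine ⟨hclosed, ?_⟩
  apply null_of_dichotomy μ hclosed (U1 ρ : Set Γ)
  · intro g hg σ
    by_cases hinf : {k : ℕ | g ^ k * σ ∈ {σ | ∀ f : Γ × Option (U1 ρ), b (pat ρ n f σ) = 0}}.Finite
    · exact Or.inl hinf
    · right
      intro k f
      rw [hiff]
      intro l x
      have h1 : {k : ℕ | D f l x (g ^ k * σ) = 0}.Infinite := by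
        refine Set.Infinite.mono ?_ hinf
        intro k hk
        exact (hiff f _).1 (hk f) l x
      exact (an_of_mem ρ (hD f l x) hg σ).zero_of_infinite h1 k
  · intro σ
    by_contra hall
    push Not at hall
    have hall' : ∀ u ∈ U1 ρ, ∀ f, b (pat ρ n f (u * σ)) = 0 := by
      intro u hu
      exact hall u ((U1 ρ).inv_mem hu)
    apply hne
    have hmul : ∀ s t, b (s * t) = b s + cj' s (b t) := fun s t => bb_mul s t
    have hfix : ∀ u ∈ U1 ρ, ∀ z ∈ Fix cj' (U1 ρ : Set Γ), cj' u z = z := fun u hu z hz => hz u hu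
    have hst' : ∀ γ : Γ, ∀ z ∈ Fix cj' (U1 ρ : Set Γ), cj' γ z ∈ Fix cj' (U1 ρ : Set Γ) :=
      fun γ z hz => Fix_stable cj' (U1 ρ) γ hz
    have h1 : ∀ v ∈ U1 ρ, cj' σ (b v) = b v := by
      intro v hv
      have h2 := hall' 1 (U1 ρ).one_mem (1, some ⟨v, hv⟩)
      simp only [pat, one_mul, inv_one, mul_one] at h2
      set h := v * σ * v⁻¹ * σ⁻¹ with hh
      have hU : h ∈ U1 ρ := by
        have e1 : h = v * (σ * v⁻¹ * σ⁻¹) := by rw [hh]; group
        rw [e1]
        exact (U1 ρ).mul_mem hv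
          ((inferInstance : (U1 ρ).Normal).conj_mem _ ((U1 ρ).inv_mem hv) σ)
      have h3 : v * σ = h * (σ * v) := by rw [hh]; group
      have h4 : b (v * σ) = b v + b σ := by
        rw [hmul, hfix v hv _ (hb σ)]
      have h5 : b (h * (σ * v)) = b σ + cj' σ (b v) := by
        rw [hmul, h2, zero_add, hfix h hU _ (hb (σ * v)), hmul]
      rw [h3, h5, add_comm (b v)] at h4
      exact add_left_cancel h4
    have hpow : ∀ u ∈ U1 ρ, ∀ k : ℕ, b ((u * σ) ^ k) = (k : ℚ_[p]) • b u + b (σ ^ k) := by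
      intro u hu k
      induction k with
      | zero => simp
      | succ k ih =>
        rw [pow_succ', hmul, ih, hmul u σ, hfix u hu _ (hb σ), A_mul, map_add, map_smul, h1 u hu,
          hfix u hu _ (Submodule.add_mem _ (Submodule.smul_mem _ _ (hb u)) (hst' _ _ (hb _))),
          pow_succ', hmul]
        push_cast
        rw [add_smul, one_smul]
        abel
    intro u hu
    have h6 := hall' u hu (1, none)
    have h7 := hall' 1 (U1 ρ).one_mem (1, none)
    simp only [pat, one_mul, inv_one, mul_one] at h6 h7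
    rw [hpow u hu n, h7, add_zero] at h6
    exact (smul_eq_zero.1 h6).resolve_left (by exact_mod_cast hn)

/-- **The main step**: a representation with semisimple block diagonal part. -/
theorem null_SS (μ : Measure Γ) [μ.IsHaarMeasure]
    (hρ : Continuous fun σ => (ρ σ : Matrix (Fin N) (Fin N) ℤ_[p]))
    (hr : MC ρ fun σ => r σ) (hgr : SS (gr r P hP hst) Set.univ) (hss : ¬ SS r Set.univ) :
    CN μ fun σ => ¬ SS r (Subgroup.normalClosure {σ} : Set Γ) := by
  have hfin : Finite (Γ ⧸ U1 ρ) := Subgroup.quotient_finite_of_isOpen (U1 ρ) (isOpen_U1 ρ hρ)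
  have hidx : (U1 ρ).FiniteIndex := Subgroup.finiteIndex_of_finite_quotient
  set n := (U1 ρ).index with hn
  have hn0 : n ≠ 0 := hidx.index_ne_zero
  have hpow : ∀ σ : Γ, σ ^ n ∈ U1 ρ := fun σ => Subgroup.pow_index_mem (U1 ρ) σ
  have hrep : Rep ρ (cjr (gr r P hP hst)) := rep_cjr _ (gr_MC hr) hgr
  obtain ⟨hncl, hnull⟩ := hrep.null μ hρ hn0
  have hgood : CN μ fun σ => Good ρ (cjr (gr r P hP hst)) n σ :=
    ⟨_, hncl, hnull, fun σ hσ => not_not.1 hσ⟩
  by_cases hex : ∃ σ₁, Good ρ (cjr (gr r P hP hst)) n σ₁ ∧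
      SS r (Subgroup.normalClosure {σ₁} : Set Γ)
  · obtain ⟨σ₁, hg₁, hs₁⟩ := hex
    obtain ⟨s, hPs, hsP, hsp⟩ := exists_split (hP := hP) (hst := hst) _ hs₁
    have hss0 : s * s = 0 := by
      rw [← hPs, mul_assoc, ← mul_assoc s, hsP, zero_mul, mul_zero]
    have e1 : (1 - s) * (1 + s) = 1 := by
      rw [mul_add, sub_mul, sub_mul, hss0]
      simp
    have e2 : (1 + s) * (1 - s) = 1 := by
      rw [mul_sub, add_mul, add_mul, hss0]
      simp
    -- the conjugate representation
    let r1 : Γ →* Module.End ℚ_[p] X :=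
      { toFun := fun σ => (1 - s) * r σ * (1 + s)
        map_one' := by rw [map_one, mul_one, e1]
        map_mul' := by
          intro σ τ
          rw [map_mul]
          calc (1 - s) * (r σ * r τ) * (1 + s) = (1 - s) * r σ * 1 * r τ * (1 + s) := by
                simp only [mul_assoc, one_mul]
            _ = (1 - s) * r σ * ((1 + s) * (1 - s)) * r τ * (1 + s) := by rw [e2]
            _ = _ := by simp only [mul_assoc] }
    have hr1 : ∀ σ, r1 σ = (1 - s) * r σ * (1 + s) := fun σ => rfl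
    have hθP : (1 + s) * P = P := by rw [add_mul, one_mul, hsP, add_zero]
    have hθP' : (1 - s) * P = P := by rw [sub_mul, one_mul, hsP, sub_zero]
    have hr1P : ∀ σ, r1 σ * P = r σ * P := by
      intro σ
      rw [hr1, mul_assoc, hθP, mul_assoc, ← hst, ← mul_assoc, ← mul_assoc, hθP']
    have hst1 : ∀ σ, P * r1 σ * P = r1 σ * P := by
      intro σ
      rw [mul_assoc, hr1P, ← mul_assoc, hst]
    have hgr1 : gr r1 P hP hst1 = gr r P hP hst := by
      ext1 σ
      rw [gr_apply, gr_apply, hr1P]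
      congr 1
      have h1 : (1 - P) * (1 - s) = 1 - P := by
        rw [mul_sub, mul_one, sub_mul, one_mul, hPs, sub_self, sub_zero]
      have h2 : (1 - P) * r σ * s = 0 := by
        rw [← hPs, sub_mul, one_mul, sub_mul, ← mul_assoc (r σ), ← mul_assoc (P * r σ), hst,
          sub_self]
      have h3 : (1 - P) * r1 σ = (1 - P) * r σ := by
        rw [hr1, ← mul_assoc, ← mul_assoc, h1, mul_add, mul_one, h2, add_zero]
      rw [sub_mul, one_mul, sub_mul, one_mul] at h3
      exact h3
    have hrMC1 : MC ρ fun σ => r1 σ := by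
      have h1 : (fun σ => r1 σ) = fun σ => (1 - s) * r σ * (1 + s) := rfl
      rw [h1]
      exact ((MC.const ρ _).mul hr).mul (MC.const ρ _)
    let θ : X ≃ₗ[ℚ_[p]] X := LinearEquiv.ofLinearMap (1 - s) (1 + s) e1 e2
    have hθ : ∀ σ x, θ (r σ x) = r1 σ (θ x) := by
      intro σ x
      change (1 - s) (r σ x) = ((1 - s) * r σ * (1 + s)) ((1 - s) x)
      have h1 : (1 - s) * r σ * (1 + s) * (1 - s) = (1 - s) * r σ := by
        rw [mul_assoc, e2, mul_one]
      exact (congrArg (fun f : Module.End ℚ_[p] X => f x) h1).symm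
    have hSS : ∀ S, SS r S → SS r1 S := fun S h => h.congr θ fun s _ x => hθ s x
    have hSS' : ∀ S, SS r1 S → SS r S := fun S h => h.congr θ.symm fun s _ x => by
      apply θ.injective
      rw [LinearEquiv.apply_symm_apply, hθ, LinearEquiv.apply_symm_apply]
    have hb0 : ∀ t ∈ Subgroup.normalClosure {σ₁}, bb r1 P hP hst1 t = 0 := by
      intro t ht
      rw [bb_zero_iff, hgr1, hr1]
      have h1 := hsp t ht
      rw [mul_assoc, h1, ← mul_assoc, e1, one_mul]
    have hg₁' : Good ρ (cjr (gr r1 P hP hst1)) n σ₁ := by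
      rw [hgr1]
      exact hg₁
    have hb : ∀ γ, bb r1 P hP hst1 γ ∈ Fix (cjr (gr r1 P hP hst1)) (U1 ρ : Set Γ) :=
      bb_mem (hpow σ₁) hg₁' _ (fun s t => bb_mul s t) hb0
    have hne : ¬ ∀ u ∈ U1 ρ, bb r1 P hP hst1 u = 0 := by
      intro h
      apply hss
      have h1 : SS (gr r1 P hP hst1) (U1 ρ : Set Γ) := by
        rw [hgr1]
        exact hgr.clifford (U1 ρ)
      have h2 : SS r1 (U1 ρ : Set Γ) := h1.congr (LinearEquiv.refl _ _) fun u hu x => by
        have h3 := (bb_zero_iff (r := r1) (P := P) (hP := hP) (hst := hst1) u).1 (h u hu)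
        simp [h3]
      exact hSS' _ h2.of_finiteIndex
    obtain ⟨hzc, hz⟩ := null_bb μ hρ hrMC1 hn0 hb hne
    have hz' : CN μ fun σ => ¬ ∀ f : Γ × Option (U1 ρ), bb r1 P hP hst1 (pat ρ n f σ) = 0 :=
      ⟨_, hzc, hz, fun σ hσ => hσ⟩
    refine (hgood.and hz').mono fun σ h12 h3 => ?_
    obtain ⟨h1, h2⟩ := h12
    apply h2
    intro f
    have hrep1 : Rep ρ (cjr (gr r1 P hP hst1)) := by
      rw [hgr1]
      exact hrep
    have hg' : Good ρ (cjr (gr r1 P hP hst1)) n σ := by
      rw [hgr1]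
      exact h1
    exact bb_zero (hpow σ) hrep1 hg' hb (hSS _ h3) f
  · push Not at hex
    exact hgood.mono fun σ h1 => hex σ h1

omit [TopologicalSpace Γ] [IsTopologicalGroup Γ] [CompactSpace Γ]
  [MeasurableSpace Γ] [BorelSpace Γ] in
theorem subr_MC {A : Γ →* Module.End ℚ_[p] X} (h : MC ρ fun σ => A σ) (W : Submodule ℚ_[p] X)
    (hW : ∀ s, ∀ x ∈ W, A s x ∈ W) : MC ρ fun σ => subr A W hW σ := by
  intro l x
  obtain ⟨g, hg⟩ := LinearMap.exists_extend l
  have h1 : (fun σ => l (subr A W hW σ x)) = fun σ => g (A σ x) := by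
    funext σ
    rw [← hg]
    rfl
  rw [h1]
  exact h _ _

/-- **Semisimplicity descends from the normal closure of almost every element.** -/
theorem ae_SS (μ : Measure Γ) [μ.IsHaarMeasure]
    (hρ : Continuous fun σ => (ρ σ : Matrix (Fin N) (Fin N) ℤ_[p])) (d : ℕ) :
    ∀ (X : Type) [AddCommGroup X] [Module ℚ_[p] X] [FiniteDimensional ℚ_[p] X]
      (r : Γ →* Module.End ℚ_[p] X), Module.finrank ℚ_[p] X ≤ d → MC ρ (fun σ => r σ) →
      CN μ fun σ => SS r (Subgroup.normalClosure {σ} : Set Γ) → SS r Set.univ := by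
  induction d with
  | zero =>
    intro X _ _ _ r hd hr
    have h0 : Module.finrank ℚ_[p] X = 0 := by omega
    have hsub : Subsingleton X := Module.finrank_zero_iff.1 h0
    refine CN.of_forall fun σ _ W _ => ⟨⊥, ?_, ?_⟩
    · intro s _ x hx
      rw [Submodule.mem_bot] at hx ⊢
      rw [hx, map_zero]
    · have h1 : W = ⊤ := by
        rw [eq_top_iff]
        intro x _
        rw [Subsingleton.elim x 0]
        exact W.zero_mem
      rw [h1]
      exact isCompl_top_bot
  | succ d ih =>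
    intro X _ _ _ r hd hr
    by_cases hss : SS r Set.univ
    · exact CN.of_forall fun _ _ => hss
    have hss' := hss
    unfold SS at hss'
    push Not at hss'
    obtain ⟨W, hW, hno⟩ := hss'
    have hW' : ∀ s, ∀ x ∈ W, r s x ∈ W := fun s x hx => hW s trivial x hx
    have hWtop : W ≠ ⊤ := by
      intro h
      refine hno ⊥ ?_ ?_
      · intro s _ x hx
        rw [Submodule.mem_bot] at hx ⊢
        rw [hx, map_zero]
      · rw [h]
        exact isCompl_top_bot
    have hWbot : W ≠ ⊥ := by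
      intro h
      refine hno ⊤ (fun _ _ _ _ => trivial) ?_
      rw [h]
      exact isCompl_bot_top
    obtain ⟨Y, hY⟩ := Submodule.exists_isCompl W
    let P : Module.End ℚ_[p] X := W.subtype ∘ₗ W.projectionOnto Y hY
    have hPW : ∀ w ∈ W, P w = w := by
      intro w hw
      exact congrArg Subtype.val (Submodule.projectionOnto_apply_left hY (⟨w, hw⟩ : W))
    have hPmem : ∀ x, P x ∈ W := fun x => (W.projectionOnto Y hY x).2
    have hPY : ∀ y ∈ Y, P y = 0 := by
      intro y hy
      exact congrArg Subtype.val (Submodule.projectionOnto_apply_right hY (⟨y, hy⟩ : Y))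
    have hP : P * P = P := by
      apply LinearMap.ext
      intro x
      exact hPW _ (hPmem x)
    have hst : ∀ s, P * r s * P = r s * P := by
      intro s
      apply LinearMap.ext
      intro x
      exact hPW _ (hW' s _ (hPmem x))
    have hPker : ∀ x, P x = 0 → x ∈ Y := by
      intro x hx
      have h1 : x ∈ W ⊔ Y := by rw [hY.sup_eq_top]; trivial
      obtain ⟨w, hw, y, hy, rfl⟩ := Submodule.mem_sup.1 h1
      rw [map_add, hPW w hw, hPY y hy, add_zero] at hx
      rw [hx, zero_add]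
      exact hy
    by_cases hgr : SS (gr r P hP hst) Set.univ
    · exact (null_SS μ hρ hr hgr hss).mono fun σ h1 h2 => absurd h2 h1
    · have hcomm : ∀ s x, P (gr r P hP hst s x) = gr r P hP hst s (P x) := by
        intro s x
        exact (congrArg (fun f : Module.End ℚ_[p] X => f x) (gr_comm (r := r) (P := P) (hP := hP)
          (hst := hst) s)).symm
      have hgW : ∀ s, ∀ x ∈ W, gr r P hP hst s x ∈ W := by
        intro s x hx
        have h1 := hcomm s x
        rw [hPW x hx] at h1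
        rw [← h1]
        exact hPmem _
      have hgY : ∀ s, ∀ x ∈ Y, gr r P hP hst s x ∈ Y := by
        intro s x hx
        apply hPker
        rw [hcomm, hPY x hx, map_zero]
      have hdW : Module.finrank ℚ_[p] W ≤ d := by
        have h1 := Submodule.finrank_lt hWtop
        omega
      have hdY : Module.finrank ℚ_[p] Y ≤ d := by
        have h1 : Module.finrank ℚ_[p] W + Module.finrank ℚ_[p] Y = Module.finrank ℚ_[p] X :=
          Submodule.finrank_add_eq_of_isCompl hY
        have h2 : 0 < Module.finrank ℚ_[p] W := by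
          rw [Module.finrank_pos_iff_exists_ne_zero]
          obtain ⟨x, hx, hx0⟩ := Submodule.exists_mem_ne_zero_of_ne_bot hWbot
          exact ⟨⟨x, hx⟩, fun h => hx0 (congrArg Subtype.val h)⟩
        omega
      have i1 := ih W (subr (gr r P hP hst) W hgW) hdW (subr_MC (gr_MC hr) W hgW)
      have i2 := ih Y (subr (gr r P hP hst) Y hgY) hdY (subr_MC (gr_MC hr) Y hgY)
      refine (i1.and i2).mono fun σ h12 h3 => ?_
      obtain ⟨h1, h2⟩ := h12
      exfalso
      apply hgr
      obtain ⟨s, hPs, hsP, hsp⟩ := exists_split (hP := hP) (hst := hst) _ h3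
      have hss0 : s * s = 0 := by
        rw [← hPs, mul_assoc, ← mul_assoc s, hsP, zero_mul, mul_zero]
      have e1 : (1 - s) * (1 + s) = 1 := by
        rw [mul_add, sub_mul, sub_mul, hss0]
        simp
      have e2 : (1 + s) * (1 - s) = 1 := by
        rw [mul_sub, add_mul, add_mul, hss0]
        simp
      let θ : X ≃ₗ[ℚ_[p]] X := LinearEquiv.ofLinearMap (1 - s) (1 + s) e1 e2
      have h4 : SS (gr r P hP hst) (Subgroup.normalClosure {σ} : Set Γ) := by
        refine h3.congr θ fun t ht x => ?_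
        change (1 - s) (r t x) = gr r P hP hst t ((1 - s) x)
        have h5 : (1 - s) * r t = gr r P hP hst t * (1 - s) := by
          have h6 := hsp t ht
          calc (1 - s) * r t = (1 - s) * r t * ((1 + s) * (1 - s)) := by rw [e2, mul_one]
            _ = (1 - s) * (r t * (1 + s)) * (1 - s) := by simp only [mul_assoc]
            _ = ((1 - s) * (1 + s)) * gr r P hP hst t * (1 - s) := by
              rw [h6]; simp only [mul_assoc]
            _ = _ := by rw [e1, one_mul]
        exact congrArg (fun f : Module.End ℚ_[p] X => f x) h5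
      exact SS.of_isCompl W Y hY hgW hgY (h1 (h4.subr W hgW)) (h2 (h4.subr Y hgY))

end Main

end Pool.Agent.H850.RG
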