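import Mathlib

/-!
# Zeros of rapidly convergent interpolation series over the `p`-adic integers

The proof of `strass` follows a module of the starting library (`H853R2.Skolem.Strass`).
-/

set_option autoImplicit false

namespace Pool.Agent.H850.RG

open Polynomial Finset

variable {p : ℕ} [hp : Fact p.Prime]

/-- The interpolation series `∑ C(m,k) p^(2k) b_k`. -/
noncomputable def ser (b : ℕ → ℤ_[p]) (m : ℕ) : ℤ_[p] :=
  ∑ k ∈ Finset.range (m + 1), (m.choose k : ℤ_[p]) * (p : ℤ_[p]) ^ (2 * k) * b k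

theorem ser_eq (b : ℕ → ℤ_[p]) (m N : ℕ) (h : m ≤ N) :
    ser b m = ∑ k ∈ Finset.range (N + 1), (m.choose k : ℤ_[p]) * (p : ℤ_[p]) ^ (2 * k) * b k := by
  unfold ser
  apply Finset.sum_subset
  · intro k hk; simp at hk ⊢; omega
  · intro k _ hk
    simp at hk
    rw [Nat.choose_eq_zero_of_lt (by omega)]
    simp

/-- The polynomial `N! * ∑_{k≤N} C(x,k) p^(2k) b_k`. -/
noncomputable def F (b : ℕ → ℤ_[p]) (N : ℕ) (s : Finset ℕ) : ℤ_[p][X] :=
  ∑ k ∈ s, C (((N.factorial / k.factorial : ℕ) : ℤ_[p]) * (p : ℤ_[p]) ^ (2 * k) * b k) *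
    descPochhammer ℤ_[p] k

theorem F_eval (b : ℕ → ℤ_[p]) (N m : ℕ) (h : m ≤ N) :
    (F b N (Finset.range (N + 1))).eval (m : ℤ_[p]) = (N.factorial : ℤ_[p]) * ser b m := by
  rw [ser_eq b m N h, F, Polynomial.eval_finsetSum, Finset.mul_sum]
  apply Finset.sum_congr rfl
  intro k hk
  simp only [Finset.mem_range] at hk
  rw [Polynomial.eval_mul, Polynomial.eval_C, descPochhammer_eval_eq_descFactorial,
    Nat.descFactorial_eq_factorial_mul_choose]
  have hk' : k.factorial ∣ N.factorial := Nat.factorial_dvd_factorial (by omega)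
  obtain ⟨q, hq⟩ := hk'
  have : N.factorial / k.factorial = q := by
    rw [hq]; exact Nat.mul_div_cancel_left _ (Nat.factorial_pos k)
  rw [this, hq]
  push_cast
  ring

omit hp in
theorem pow_dvd_coef (hp : p.Prime) (N k J : ℕ) (hk : k ≤ N) (hJ : J ≤ k) :
    p ^ (padicValNat p N.factorial + J) ∣ (N.factorial / k.factorial) * p ^ (2 * k) := by
  have := Fact.mk hp
  have hd : k.factorial ∣ N.factorial := Nat.factorial_dvd_factorial hk
  have hpos : N.factorial / k.factorial ≠ 0 := by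
    have := Nat.div_pos (Nat.le_of_dvd (Nat.factorial_pos N) hd) (Nat.factorial_pos k)
    omega
  rw [padicValNat_dvd_iff_le (by
    apply mul_ne_zero hpos
    exact pow_ne_zero _ hp.ne_zero)]
  rw [padicValNat.mul hpos (pow_ne_zero _ hp.ne_zero), padicValNat.prime_pow,
    padicValNat.div_of_dvd hd]
  have h1 : padicValNat p k.factorial ≤ k := by
    have h2 := sub_one_mul_padicValNat_factorial (p := p) k
    have hp2 := hp.two_le
    have h3 : 1 * padicValNat p k.factorial ≤ (p - 1) * padicValNat p k.factorial :=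
      Nat.mul_le_mul_right _ (by omega)
    omega
  have h2 : padicValNat p k.factorial ≤ padicValNat p N.factorial := by
    rw [← padicValNat_dvd_iff_le (Nat.factorial_ne_zero N)]
    exact pow_padicValNat_dvd.trans hd
  omega

theorem prod_dvd (P : ℤ_[p][X]) (Z : Finset ℕ) (h : ∀ z ∈ Z, P.eval (z : ℤ_[p]) = 0) :
    (∏ z ∈ Z, (X - C (z : ℤ_[p]))) ∣ P := by
  classical
  by_cases hP : P = 0
  · rw [hP]; exact dvd_zero _
  have h1 : (∏ z ∈ Z, (X - C (z : ℤ_[p]))) =
      ((Z.image (fun z : ℕ => (z : ℤ_[p]))).val.map (fun a => X - C a)).prod := by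
    rw [← Finset.prod_eq_multiset_prod]
    rw [Finset.prod_image]
    intro a _ b _ hab
    simpa using hab
  rw [h1, Multiset.prod_X_sub_C_dvd_iff_le_roots hP]
  rw [Multiset.le_iff_subset (Finset.nodup _)]
  intro a ha
  rw [Finset.mem_val, Finset.mem_image] at ha
  obtain ⟨z, hz, rfl⟩ := ha
  rw [mem_roots hP]
  exact h z hz

theorem p_ne : (p : ℤ_[p]) ≠ 0 := by exact_mod_cast hp.out.ne_zero

theorem strass (b : ℕ → ℤ_[p]) (Z : Finset ℕ) (hZ : ∀ m ∈ Z, ser b m = 0) (m : ℕ) :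
    (p : ℤ_[p]) ^ Z.card ∣ ser b m := by
  classical
  set e := Z.card with he
  set N := max m (Z.sup id) with hN
  have hmN : m ≤ N := le_max_left _ _
  have hZN : ∀ z ∈ Z, z ≤ N := fun z hz => (Finset.le_sup (f := id) hz).trans (le_max_right _ _)
  set J := Z.card with hJ
  set W : ℤ_[p][X] := ∏ z ∈ Z, (X - C (z : ℤ_[p])) with hW
  have hWm : W.Monic := monic_prod_of_monic _ _ (fun z _ => monic_X_sub_C _)
  have hWdeg : W.natDegree = J := by
    rw [hW, natDegree_prod_of_monic _ _ (fun z _ => monic_X_sub_C _)]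
    simp only [natDegree_X_sub_C, Finset.sum_const, smul_eq_mul, mul_one, hJ]
  set Fu := F b N (Finset.range (N + 1)) with hFu
  have hroot : ∀ z ∈ Z, Fu.eval (z : ℤ_[p]) = 0 := by
    intro z hz
    rw [hFu, F_eval b N z (hZN z hz), hZ z hz, mul_zero]
  have hdvd : W ∣ Fu := prod_dvd _ _ hroot
  set v := padicValNat p N.factorial with hv
  set lo := F b N ((Finset.range (N + 1)).filter (fun k => k < J)) with hlo
  set hi := F b N ((Finset.range (N + 1)).filter (fun k => ¬ k < J)) with hhi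
  have hsplit : Fu = lo + hi := by
    rw [hFu, hlo, hhi, F, F, F, Finset.sum_filter_add_sum_filter_not]
  have hhid : ∃ G : ℤ_[p][X], hi = C ((p : ℤ_[p]) ^ (v + e)) * G := by
    suffices h : C ((p : ℤ_[p]) ^ (v + e)) ∣ hi by
      obtain ⟨G, hG⟩ := h; exact ⟨G, hG⟩
    rw [hhi, F]
    apply Finset.dvd_sum
    intro k hk
    rw [Finset.mem_filter, Finset.mem_range, not_lt] at hk
    apply Dvd.dvd.mul_right
    apply (C : ℤ_[p] →+* ℤ_[p][X]).map_dvd
    apply Dvd.dvd.mul_right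
    have h1 := pow_dvd_coef hp.out N k e (by omega) (by omega)
    have h2 := Nat.cast_dvd_cast (α := ℤ_[p]) h1
    push_cast at h2 ⊢
    exact h2
  obtain ⟨G, hG⟩ := hhid
  have hWJ : W.degree = (J : WithBot ℕ) := by
    rw [degree_eq_natDegree hWm.ne_zero, hWdeg]
  have hlo0 : lo.degree < W.degree := by
    rw [hWJ, hlo, F]
    apply lt_of_le_of_lt (degree_sum_le _ _)
    rw [Finset.sup_lt_iff (by exact WithBot.bot_lt_coe _)]
    intro k hk
    rw [Finset.mem_filter] at hk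
    refine lt_of_le_of_lt (degree_mul_le _ _) ?_
    have h1 : (C (((N.factorial / k.factorial : ℕ) : ℤ_[p]) * (p : ℤ_[p]) ^ (2 * k) *
        b k)).degree ≤ 0 := degree_C_le
    have h2 : (descPochhammer ℤ_[p] k).degree = (k : WithBot ℕ) := by
      rw [degree_eq_natDegree (monic_descPochhammer ℤ_[p] k).ne_zero, descPochhammer_natDegree]
    rw [h2]
    calc _ ≤ 0 + (k : WithBot ℕ) := by gcongr
      _ = (k : WithBot ℕ) := zero_add _
      _ < (J : WithBot ℕ) := by exact_mod_cast hk.2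
  have hquot : Fu /ₘ W = C ((p : ℤ_[p]) ^ (v + e)) * (G /ₘ W) := by
    refine (div_modByMonic_unique (C ((p : ℤ_[p]) ^ (v + e)) * (G /ₘ W))
      (lo + C ((p : ℤ_[p]) ^ (v + e)) * (G %ₘ W)) hWm ⟨?_, ?_⟩).1
    · rw [hsplit, hG]
      conv_rhs => rw [← modByMonic_add_div G W]
      ring
    · refine lt_of_le_of_lt (degree_add_le _ _) (max_lt hlo0 ?_)
      refine lt_of_le_of_lt (degree_mul_le _ _) ?_
      have h1 : (C ((p : ℤ_[p]) ^ (v + e))).degree ≤ 0 := degree_C_le
      calc _ ≤ 0 + (G %ₘ W).degree := by gcongr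
        _ = (G %ₘ W).degree := zero_add _
        _ < _ := degree_modByMonic_lt _ hWm
  obtain ⟨Q, hQ⟩ := hdvd
  have hQ2 : Fu /ₘ W = Q := by
    rw [hQ, mul_divByMonic_cancel_left _ hWm]
  have hfin : (N.factorial : ℤ_[p]) * ser b m =
      W.eval (m : ℤ_[p]) * ((p : ℤ_[p]) ^ (v + e) * (G /ₘ W).eval (m : ℤ_[p])) := by
    rw [← F_eval b N m hmN, ← hFu, hQ, ← hQ2, hquot]
    simp
  have hd : (p : ℤ_[p]) ^ (v + e) ∣ (N.factorial : ℤ_[p]) * ser b m := by
    rw [hfin]
    exact Dvd.dvd.mul_left (dvd_mul_right _ _) _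
  obtain ⟨q, hq⟩ : p ^ v ∣ N.factorial := pow_padicValNat_dvd
  have hqp : ¬ p ∣ q := by
    intro hpq
    have h1 : p ^ (v + 1) ∣ N.factorial := by
      rw [hq, pow_succ]
      exact Nat.mul_dvd_mul_left _ hpq
    rw [padicValNat_dvd_iff_le (Nat.factorial_ne_zero N)] at h1
    omega
  have hqu : IsUnit (q : ℤ_[p]) := by
    rw [PadicInt.isUnit_iff]
    refine le_antisymm (PadicInt.norm_le_one _) (not_lt.1 fun h => hqp ?_)
    have h2 := (PadicInt.norm_int_lt_one_iff_dvd (p := p) (q : ℤ)).1 (by simpa using h)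
    exact_mod_cast h2
  rw [hq, pow_add] at hd
  push_cast at hd
  rw [mul_assoc] at hd
  have hd2 : (p : ℤ_[p]) ^ e ∣ (q : ℤ_[p]) * ser b m :=
    (mul_dvd_mul_iff_left (pow_ne_zero _ p_ne)).1 hd
  exact (IsUnit.dvd_mul_left hqu).1 hd2

theorem eq_zero_of_pow_dvd (x : ℤ_[p]) (h : ∀ e : ℕ, (p : ℤ_[p]) ^ e ∣ x) : x = 0 := by
  by_contra hx
  have h1 := h (x.valuation + 1)
  rw [← Ideal.mem_span_singleton, PadicInt.mem_span_pow_iff_le_valuation x hx] at h1
  omega

/-- an interpolation series with infinitely many zeros vanishes -/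
theorem ser_zero (b : ℕ → ℤ_[p]) (h : {m | ser b m = 0}.Infinite) (m : ℕ) : ser b m = 0 := by
  apply eq_zero_of_pow_dvd
  intro e
  obtain ⟨Z, hZ, hc⟩ := h.exists_subset_card_eq e
  rw [← hc]
  exact strass b Z (fun k hk => hZ hk) m

/-! ### Functions with rapidly decreasing differences -/

/-- the iterated differences of `F` decrease at least like `p ^ (- 2 j)` -/
def Dec (c : ℝ) (G : ℕ → ℚ_[p]) : Prop :=
  ∀ j m, ‖(fwdDiff 1)^[j] G m‖ ≤ c * ((p : ℝ)⁻¹) ^ (2 * j)

theorem Dec.nonneg {c : ℝ} {G : ℕ → ℚ_[p]} (h : Dec c G) : 0 ≤ c := by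
  have := h 0 0
  simp only [mul_zero, pow_zero, mul_one] at this
  exact (norm_nonneg _).trans this

theorem Dec.mono {c c' : ℝ} {G : ℕ → ℚ_[p]} (h : Dec c G) (hc : c ≤ c') : Dec c' G :=
  fun j m => (h j m).trans (mul_le_mul_of_nonneg_right hc (by positivity))

theorem Dec.add {c : ℝ} {G H : ℕ → ℚ_[p]} (hG : Dec c G) (hH : Dec c H) : Dec c (G + H) := by
  intro j m
  rw [fwdDiff_iter_add, Pi.add_apply]
  exact (IsUltrametricDist.norm_add_le_max _ _).trans (max_le (hG j m) (hH j m))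

theorem Dec.shift {c : ℝ} {G : ℕ → ℚ_[p]} (hG : Dec c G) : Dec c (fun m => G (m + 1)) := by
  intro j m
  have h1 : (fwdDiff 1)^[j] (fun m => G (m + 1)) m = (fwdDiff 1)^[j] G (m + 1) := by
    induction j generalizing m with
    | zero => rfl
    | succ j ih =>
      rw [Function.iterate_succ_apply', Function.iterate_succ_apply', fwdDiff, fwdDiff, ih, ih]
  rw [h1]
  exact hG j (m + 1)

theorem Dec.diff {c : ℝ} {G : ℕ → ℚ_[p]} (hG : Dec c G) :
    Dec (c * ((p : ℝ)⁻¹) ^ 2) (fwdDiff 1 G) := by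
  intro j m
  rw [← Function.iterate_succ_apply]
  refine (hG (j + 1) m).trans (le_of_eq ?_)
  ring

theorem Dec.mul_aux (j : ℕ) : ∀ {c c' : ℝ} {G H : ℕ → ℚ_[p]}, Dec c G → Dec c' H → ∀ m,
    ‖(fwdDiff 1)^[j] (G * H) m‖ ≤ c * c' * ((p : ℝ)⁻¹) ^ (2 * j) := by
  induction j with
  | zero =>
    intro c c' G H hG hH m
    have h1 := hG 0 m
    have h2 := hH 0 m
    simp only [mul_zero, pow_zero, mul_one, Function.iterate_zero, id_eq] at h1 h2 ⊢
    rw [Pi.mul_apply, norm_mul]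
    exact mul_le_mul h1 h2 (norm_nonneg _) hG.nonneg
  | succ j ih =>
    intro c c' G H hG hH m
    have h1 : fwdDiff 1 (G * H) = fwdDiff 1 G * (fun m => H (m + 1)) + G * fwdDiff 1 H := by
      funext m
      simp only [fwdDiff, Pi.add_apply, Pi.mul_apply]
      ring
    rw [Function.iterate_succ_apply, h1, fwdDiff_iter_add, Pi.add_apply]
    refine (IsUltrametricDist.norm_add_le_max _ _).trans (max_le ?_ ?_)
    · refine (ih hG.diff hH.shift m).trans (le_of_eq ?_)
      ring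
    · refine (ih hG hH.diff m).trans (le_of_eq ?_)
      ring

theorem Dec.mul {c c' : ℝ} {G H : ℕ → ℚ_[p]} (hG : Dec c G) (hH : Dec c' H) :
    Dec (c * c') (G * H) := fun j m => Dec.mul_aux j hG hH m

theorem Dec.const (a : ℚ_[p]) : Dec ‖a‖ (fun _ => a) := by
  intro j m
  rcases j with _ | j
  · simp
  · have h1 : ∀ j, (fwdDiff 1)^[j + 1] (fun _ : ℕ => a) = fun _ => 0 := by
      intro j
      induction j with
      | zero =>
        funext m
        simp [fwdDiff]
      | succ j ih =>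
        rw [Function.iterate_succ_apply', ih]
        funext m
        simp [fwdDiff]
    rw [h1]
    simp only [norm_zero]
    positivity

/-- a function on the natural numbers which is analytic in a strong sense -/
def An (G : ℕ → ℚ_[p]) : Prop := ∃ c, Dec c G

theorem An.add {G H : ℕ → ℚ_[p]} (hG : An G) (hH : An H) : An (G + H) := by
  obtain ⟨c, hc⟩ := hG
  obtain ⟨c', hc'⟩ := hH
  exact ⟨max c c', (hc.mono (le_max_left _ _)).add (hc'.mono (le_max_right _ _))⟩

theorem An.mul {G H : ℕ → ℚ_[p]} (hG : An G) (hH : An H) : An (G * H) := by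
  obtain ⟨c, hc⟩ := hG
  obtain ⟨c', hc'⟩ := hH
  exact ⟨c * c', hc.mul hc'⟩

theorem An.const (a : ℚ_[p]) : An (fun _ => a) := ⟨_, Dec.const a⟩

/-- **Strassmann's theorem**: an analytic function on the natural numbers with infinitely many
zeros vanishes. -/
theorem An.zero_of_infinite {G : ℕ → ℚ_[p]} (hG : An G) (h : {k | G k = 0}.Infinite) :
    ∀ k, G k = 0 := by
  obtain ⟨c, hc⟩ := hG
  have hp1 : (1 : ℝ) < p := by exact_mod_cast hp.out.one_lt
  have hp0 : (0 : ℝ) < p := by positivity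
  obtain ⟨e, he⟩ := pow_unbounded_of_one_lt c hp1
  have hpQ : (p : ℚ_[p]) ≠ 0 := by exact_mod_cast hp.out.ne_zero
  have hnp : ‖(p : ℚ_[p])‖ = (p : ℝ)⁻¹ := Padic.norm_p
  -- coefficients
  have hb : ∀ j, ∃ b : ℤ_[p], (p : ℚ_[p]) ^ e * (fwdDiff 1)^[j] G 0 =
      (p : ℚ_[p]) ^ (2 * j) * (b : ℚ_[p]) := by
    intro j
    have h1 : ‖(p : ℚ_[p]) ^ e * (fwdDiff 1)^[j] G 0 / (p : ℚ_[p]) ^ (2 * j)‖ ≤ 1 := by
      rw [norm_div, norm_mul, norm_pow, norm_pow, hnp, div_le_one (by positivity)]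
      calc ((p : ℝ)⁻¹) ^ e * ‖(fwdDiff 1)^[j] G 0‖ ≤
          ((p : ℝ)⁻¹) ^ e * (c * ((p : ℝ)⁻¹) ^ (2 * j)) := by
            gcongr
            exact hc j 0
        _ = (((p : ℝ)⁻¹) ^ e * c) * ((p : ℝ)⁻¹) ^ (2 * j) := by ring
        _ ≤ 1 * ((p : ℝ)⁻¹) ^ (2 * j) := by
            gcongr
            rw [inv_pow, inv_mul_le_iff₀ (by positivity), mul_one]
            exact he.le
        _ = _ := one_mul _
    refine ⟨⟨_, h1⟩, ?_⟩
    change _ = (p : ℚ_[p]) ^ (2 * j) *
      ((p : ℚ_[p]) ^ e * (fwdDiff 1)^[j] G 0 / (p : ℚ_[p]) ^ (2 * j))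
    field_simp
  choose b hb using hb
  have hser : ∀ m, (p : ℚ_[p]) ^ e * G m = (ser b m : ℤ_[p]) := by
    intro m
    have h1 := shift_eq_sum_fwdDiff_iter 1 G m 0
    rw [zero_add, smul_eq_mul, mul_one] at h1
    rw [h1, Finset.mul_sum, ser, PadicInt.coe_sum]
    refine Finset.sum_congr rfl fun k _ => ?_
    rw [nsmul_eq_mul, mul_left_comm, hb k]
    push_cast
    ring
  have hpe : (p : ℚ_[p]) ^ e ≠ 0 := pow_ne_zero _ hpQ
  have hiff : ∀ m, G m = 0 ↔ ser b m = 0 := by
    intro m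
    constructor
    · intro h0
      have h1 := hser m
      rw [h0, mul_zero] at h1
      exact PadicInt.coe_eq_zero.1 h1.symm
    · intro h0
      have h1 := hser m
      rw [h0, PadicInt.coe_zero] at h1
      exact (mul_eq_zero.1 h1).resolve_left hpe
  intro m
  rw [hiff]
  apply ser_zero
  have h1 : {m | ser b m = 0} = {k | G k = 0} := by
    ext k
    exact (hiff k).symm
  rw [h1]
  exact h

end Pool.Agent.H850.RG
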