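import Pool.Agent.H850.RG.Aug

/-!
# Procyclic elements without infinite `p`-part
-/

set_option autoImplicit false
set_option linter.unusedSectionVars false

namespace Pool.Agent.H850.RG

open Pool.Agent.H850.TF MeasureTheory Topology Filter

variable {N : ℕ} {p : ℕ} [Fact p.Prime] {Γ : Type} [Group Γ]

theorem Pol_eq_of_eq (ρ : Γ →* GL (Fin N) ℤ_[p]) {D : Γ → ℚ_[p]} (hD : D ∈ Pol ρ) {σ τ : Γ}
    (h : ρ σ = ρ τ) : D σ = D τ := by
  induction hD using Algebra.adjoin_induction with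
  | mem D hD =>
    rcases hD with ⟨i, j, rfl⟩ | ⟨i, j, rfl⟩
    · simp only [rat_apply, h]
    · simp only [rat_apply, map_inv, h]
  | algebraMap r => rfl
  | add D D' _ _ h h' => rw [Pi.add_apply, Pi.add_apply, h, h']
  | mul D D' _ _ h h' => rw [Pi.mul_apply, Pi.mul_apply, h, h']

/-- the exponents: `≡ 1` modulo `p ^ n` and divisible by every `r ≤ n` prime to `p` -/
theorem exists_exponent (p : ℕ) (hp : p.Prime) (n : ℕ) : ∃ t : ℕ, (∃ s, t = 1 + p ^ n * s) ∧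
    ∀ r, r ≤ n → 0 < r → ¬ p ∣ r → r ∣ t := by
  set M := ∏ r ∈ (Finset.Icc 1 n).filter (fun r => ¬ p ∣ r), r with hM
  have hMc : Nat.Coprime M (p ^ n) := by
    apply Nat.Coprime.pow_right
    apply Nat.Coprime.prod_left
    intro r hr
    rw [Nat.coprime_comm]
    exact (Nat.Prime.coprime_iff_not_dvd hp).2 (Finset.mem_filter.1 hr).2
  have hpos : 0 < M := Nat.pos_of_ne_zero (by
    rw [hM]
    refine Finset.prod_ne_zero_iff.2 fun r hr => ?_
    have := (Finset.mem_Icc.1 (Finset.mem_filter.1 hr).1).1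
    omega)
  have hφ : 0 < Nat.totient (p ^ n) := Nat.totient_pos.2 (pow_pos hp.pos n)
  have h1 := Nat.ModEq.pow_totient hMc
  refine ⟨M ^ Nat.totient (p ^ n), ?_, ?_⟩
  · have h2 : 1 ≤ M ^ Nat.totient (p ^ n) := Nat.one_le_pow _ _ hpos
    have h3 : p ^ n ∣ M ^ Nat.totient (p ^ n) - 1 := (Nat.modEq_iff_dvd' h2).1 h1.symm
    obtain ⟨s, hs⟩ := h3
    exact ⟨s, by omega⟩
  · intro r hr hr0 hpr
    have h2 : r ∣ M := Finset.dvd_prod_of_mem _
      (Finset.mem_filter.2 ⟨Finset.mem_Icc.2 ⟨hr0, hr⟩, hpr⟩)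
    exact h2.trans (dvd_pow_self _ hφ.ne')

variable [TopologicalSpace Γ] [IsTopologicalGroup Γ] [CompactSpace Γ]

/-- `p`-power powers of a small matrix are close to one -/
theorem pow_pow_eq (a : Matrix (Fin N) (Fin N) ℤ_[p]) (n : ℕ) :
    ∃ b : Matrix (Fin N) (Fin N) ℤ_[p],
      (1 + (p : ℤ_[p]) ^ 2 • a) ^ (p ^ n) = 1 + (p : ℤ_[p]) ^ (n + 2) • b := by
  induction n with
  | zero => exact ⟨a, by simp⟩
  | succ n ih =>
    obtain ⟨b, hb⟩ := ih
    obtain ⟨y, -, hy⟩ := step (p := p) b (n + 2) (by omega)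
    refine ⟨b + (p : ℤ_[p]) ^ (n + 2 - 1) • y, ?_⟩
    rw [pow_succ p n, pow_mul, hb, hy]

/-- the powers with exponents tending to zero tend to one -/
theorem tendsto_pow_pow (ρ : Γ →* GL (Fin N) ℤ_[p]) {σ : Γ} (hσ : σ ∈ U1 ρ) (s : ℕ → ℕ) :
    Tendsto (fun n => (ρ (σ ^ (p ^ n * s n)) : Matrix (Fin N) (Fin N) ℤ_[p])) atTop (𝓝 1) := by
  obtain ⟨a, ha⟩ := hσ
  have h1 : ∀ n, ∃ c : Matrix (Fin N) (Fin N) ℤ_[p],
      (ρ (σ ^ (p ^ n * s n)) : Matrix (Fin N) (Fin N) ℤ_[p]) = 1 + (p : ℤ_[p]) ^ n • c := by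
    intro n
    obtain ⟨b, hb⟩ := pow_pow_eq (p := p) a n
    obtain ⟨c, -, hc⟩ := one_add_pow (p := p) ((p : ℤ_[p]) ^ (n + 2) • b) (s n)
    refine ⟨(s n : ℤ_[p]) • ((p : ℤ_[p]) ^ 2 • b) +
      ((p : ℤ_[p]) ^ 2 • b) * ((p : ℤ_[p]) ^ (n + 2) • b) * c, ?_⟩
    rw [map_pow, Units.val_pow_eq_pow_val, ha, pow_mul, hb, hc, add_assoc, smul_add]
    congr 2
    · rw [smul_comm, smul_smul, smul_smul, smul_smul]
      congr 1
      ring
    · rw [smul_mul_assoc, smul_mul_assoc, smul_mul_assoc, smul_mul_assoc, smul_smul, pow_add]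
  choose c hc using h1
  have h2 : (fun n => (ρ (σ ^ (p ^ n * s n)) : Matrix (Fin N) (Fin N) ℤ_[p])) =
      fun n => 1 + (p : ℤ_[p]) ^ n • c n := funext hc
  rw [h2]
  have h3 := (tendsto_const_nhds (x := (1 : Matrix (Fin N) (Fin N) ℤ_[p]))).add
    (tendsto_p_smul c)
  rwa [add_zero] at h3

/-- limit points of a sequence of powers -/
theorem exists_limit {ρ : Γ →* GL (Fin N) ℤ_[p]}
    (hρ : Continuous fun σ => (ρ σ : Matrix (Fin N) (Fin N) ℤ_[p])) {σ : Γ} (hσ : σ ∈ U1 ρ)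
    (k : ℕ) (t : ℕ → ℕ) (ht : ∀ n, ∃ s, t n = 1 + p ^ n * s) {ι : Type} (C : ι → Set Γ)
    (hC : ∀ i, IsClosed (C i)) (hev : ∀ i, ∀ᶠ n in atTop, σ ^ (k * t n) ∈ C i) :
    ∃ h, (∀ i, h ∈ C i) ∧ ρ h = ρ (σ ^ k) := by
  choose s hs using ht
  obtain ⟨h, hh⟩ := exists_clusterPt_of_compactSpace (map (fun n => σ ^ (k * t n)) atTop)
  have hh' : MapClusterPt h atTop (fun n => σ ^ (k * t n)) := hh
  refine ⟨h, fun i => ?_, ?_⟩
  · exact (hC i).mem_of_mapClusterPt hh' (hev i)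
  · have h1 := MapClusterPt.continuousAt_comp
      (f := fun σ => (ρ σ : Matrix (Fin N) (Fin N) ℤ_[p])) hρ.continuousAt hh'
    have h2 : Tendsto ((fun σ => (ρ σ : Matrix (Fin N) (Fin N) ℤ_[p])) ∘
        fun n => σ ^ (k * t n)) atTop (𝓝 (ρ (σ ^ k) : Matrix (Fin N) (Fin N) ℤ_[p])) := by
      have h3 : ((fun σ => (ρ σ : Matrix (Fin N) (Fin N) ℤ_[p])) ∘ fun n => σ ^ (k * t n)) =
          fun n => (ρ (σ ^ k) : Matrix (Fin N) (Fin N) ℤ_[p]) *
            (ρ (σ ^ (p ^ n * (k * s n))) : Matrix (Fin N) (Fin N) ℤ_[p]) := by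
        funext n
        simp only [Function.comp_apply]
        rw [← Units.val_mul, ← map_mul, ← pow_add, hs]
        congr 3
        ring
      rw [h3]
      have h4 := (tendsto_const_nhds (x := (ρ (σ ^ k) : Matrix (Fin N) (Fin N) ℤ_[p]))).mul
        (tendsto_pow_pow ρ hσ fun n => k * s n)
      rwa [mul_one] at h4
    have h5 : ClusterPt (ρ h : Matrix (Fin N) (Fin N) ℤ_[p])
        (𝓝 (ρ (σ ^ k) : Matrix (Fin N) (Fin N) ℤ_[p])) := ClusterPt.mono h1 h2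
    exact Units.ext (eq_of_nhds_neBot h5)

/-- **Elements without infinite `p`-part.** If `G` is an intersection of closed sets `C i` and the
order of `σ` modulo each of them has bounded `p`-part, then a polynomial function vanishing on `G`
vanishes at `σ`. -/
theorem vanish_of_tor {ρ : Γ →* GL (Fin N) ℤ_[p]}
    (hρ : Continuous fun σ => (ρ σ : Matrix (Fin N) (Fin N) ℤ_[p])) {σ : Γ} (hσ : σ ∈ U1 ρ)
    {ι : Type} (C : ι → Subgroup Γ) (hC : ∀ i, IsClosed (C i : Set Γ)) (a : ℕ)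
    (ha : ∀ i, ∃ r, 0 < r ∧ ¬ p ∣ r ∧ σ ^ (p ^ a * r) ∈ C i) {D : Γ → ℚ_[p]} (hD : D ∈ Pol ρ)
    (h0 : ∀ g, (∀ i, g ∈ C i) → D g = 0) : D σ = 0 := by
  choose t ht1 ht2 using exists_exponent p (Fact.out : p.Prime)
  have h1 : ∀ j : ℕ, D (σ ^ (p ^ a * j)) = 0 := by
    intro j
    obtain ⟨h, hh, hρh⟩ := exists_limit hρ hσ (p ^ a * j) t ht1 (fun i => (C i : Set Γ)) hC (by
      intro i
      obtain ⟨r, hr0, hpr, hr⟩ := ha i
      filter_upwards [eventually_ge_atTop r] with n hn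
      obtain ⟨q, hq⟩ := ht2 n r hn hr0 hpr
      have h2 : p ^ a * j * t n = p ^ a * r * (j * q) := by rw [hq]; ring
      rw [h2, pow_mul]
      exact (C i).pow_mem hr _)
    rw [← Pol_eq_of_eq ρ hD hρh]
    exact h0 h hh
  have h2 := (an_of_mem ρ hD hσ 1).zero_of_infinite (by
    refine Set.infinite_of_injective_forall_mem (f := fun j : ℕ => p ^ a * j) ?_ ?_
    · intro x y hxy
      exact Nat.eq_of_mul_eq_mul_left (pow_pos (Fact.out : p.Prime).pos a) hxy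
    · intro j
      simp only [Set.mem_ofPred_eq, mul_one]
      exact h1 j) 1
  rwa [pow_one, mul_one] at h2

end Pool.Agent.H850.RG
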